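import Pool.Agent.Lib.MP_9b2b7a_co.SW.Ring
import Pool.Agent.Lib.MP_9b2b7a_co.Dual

set_option autoImplicit false
open scoped Classical

/-! Chasles' theorem for two triples of lines, in the dual coordinates. -/

namespace MP9b2b

/-- a polynomial function of degree at most three -/
def Cub (f : ℝ → ℝ → ℝ) : Prop :=
  ∃ a0 a1 a2 a3 a4 a5 a6 a7 a8 a9 : ℝ, ∀ x y, f x y = a0 + a1 * x + a2 * y + a3 * x ^ 2 +
    a4 * x * y + a5 * y ^ 2 + a6 * x ^ 3 + a7 * x ^ 2 * y + a8 * x * y ^ 2 + a9 * y ^ 3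

theorem cub_zero : Cub (fun _ _ => 0) := ⟨0, 0, 0, 0, 0, 0, 0, 0, 0, 0, fun x y => by ring⟩

theorem cub_add {f g : ℝ → ℝ → ℝ} (hf : Cub f) (hg : Cub g) : Cub (fun x y => f x y + g x y) := by
  obtain ⟨a0, a1, a2, a3, a4, a5, a6, a7, a8, a9, ha⟩ := hf
  obtain ⟨b0, b1, b2, b3, b4, b5, b6, b7, b8, b9, hb⟩ := hg
  exact ⟨a0 + b0, a1 + b1, a2 + b2, a3 + b3, a4 + b4, a5 + b5, a6 + b6, a7 + b7, a8 + b8, a9 + b9,
    fun x y => by simp only [ha, hb]; ring⟩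

theorem cub_mono (c : ℝ) (i j : ℕ) (h : i + j ≤ 3) : Cub (fun x y => c * (x ^ i * y ^ j)) := by
  have hi : i ≤ 3 := by omega
  have hj : j ≤ 3 := by omega
  interval_cases i <;> interval_cases j <;> first | omega | skip
  · exact ⟨c, 0, 0, 0, 0, 0, 0, 0, 0, 0, fun x y => by ring⟩
  · exact ⟨0, 0, c, 0, 0, 0, 0, 0, 0, 0, fun x y => by ring⟩
  · exact ⟨0, 0, 0, 0, 0, c, 0, 0, 0, 0, fun x y => by ring⟩
  · exact ⟨0, 0, 0, 0, 0, 0, 0, 0, 0, c, fun x y => by ring⟩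
  · exact ⟨0, c, 0, 0, 0, 0, 0, 0, 0, 0, fun x y => by ring⟩
  · exact ⟨0, 0, 0, 0, c, 0, 0, 0, 0, 0, fun x y => by ring⟩
  · exact ⟨0, 0, 0, 0, 0, 0, 0, 0, c, 0, fun x y => by ring⟩
  · exact ⟨0, 0, 0, c, 0, 0, 0, 0, 0, 0, fun x y => by ring⟩
  · exact ⟨0, 0, 0, 0, 0, 0, 0, c, 0, 0, fun x y => by ring⟩
  · exact ⟨0, 0, 0, 0, 0, 0, c, 0, 0, 0, fun x y => by ring⟩

theorem cub_sum {α : Type*} (s : Finset α) (f : α → ℝ → ℝ → ℝ) (h : ∀ a ∈ s, Cub (f a)) :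
    Cub (fun x y => ∑ a ∈ s, f a x y) := by
  induction s using Finset.induction_on with
  | empty => simpa using cub_zero
  | insert a s ha ih =>
    have h1 := cub_add (h a (Finset.mem_insert_self _ _))
      (ih (fun b hb => h b (Finset.mem_insert_of_mem hb)))
    simpa only [Finset.sum_insert ha] using h1

theorem cub_eval (P : MvPolynomial (Fin 2) ℝ) (hP : P.totalDegree ≤ 3) :
    Cub (fun x y => MvPolynomial.eval ![x, y] P) := by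
  have h : (fun x y : ℝ => MvPolynomial.eval ![x, y] P) =
      fun x y => ∑ d ∈ P.support, P.coeff d * (x ^ d 0 * y ^ d 1) := by
    funext x y
    rw [MvPolynomial.eval_eq']
    apply Finset.sum_congr rfl
    intro d _
    rw [Fin.prod_univ_two]
    rfl
  rw [h]
  apply cub_sum P.support (fun d x y => P.coeff d * (x ^ d 0 * y ^ d 1))
  intro d hd
  apply cub_mono
  have h1 := MvPolynomial.le_totalDegree hd
  rw [Finsupp.sum_fintype _ _ (fun _ => rfl), Fin.sum_univ_two] at h1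
  omega

/-- change of coordinates x = s - ε y -/
theorem cub_shear {f : ℝ → ℝ → ℝ} (hf : Cub f) (ε : ℝ) : Cub (fun s y => f (s - ε * y) y) := by
  obtain ⟨a0, a1, a2, a3, a4, a5, a6, a7, a8, a9, ha⟩ := hf
  exact ⟨a0, a1, a2 - ε * a1, a3, a4 - 2 * ε * a3, a5 - ε * a4 + ε ^ 2 * a3, a6, a7 - 3 * ε * a6,
    a8 - 2 * ε * a7 + 3 * ε ^ 2 * a6, a9 - ε * a8 + ε ^ 2 * a7 - ε ^ 3 * a6,
    fun x y => by simp only [ha]; ring⟩

theorem lin_zero {d0 d1 x y : ℝ} (hxy : x ≠ y) (h1 : d0 + d1 * x = 0) (h2 : d0 + d1 * y = 0) :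
    d0 = 0 ∧ d1 = 0 := by
  have h3 : d1 * (x - y) = 0 := by linarith
  have h4 : d1 = 0 := by
    rcases mul_eq_zero.1 h3 with h | h
    · exact h
    · exact absurd (sub_eq_zero.1 h) hxy
  rw [h4] at h1
  exact ⟨by linarith, h4⟩

theorem quad_zero {d0 d1 d2 x y z : ℝ} (hxy : x ≠ y) (hyz : y ≠ z) (hxz : x ≠ z)
    (h1 : d0 + d1 * x + d2 * x ^ 2 = 0) (h2 : d0 + d1 * y + d2 * y ^ 2 = 0)
    (h3 : d0 + d1 * z + d2 * z ^ 2 = 0) : d0 = 0 ∧ d1 = 0 ∧ d2 = 0 := by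
  have e1 : d1 + d2 * x + d2 * y = 0 := by
    have : (x - y) * (d1 + d2 * x + d2 * y) = 0 := by linear_combination h1 - h2
    rcases mul_eq_zero.1 this with h | h
    · exact absurd (sub_eq_zero.1 h) hxy
    · exact h
  have e2 : d1 + d2 * x + d2 * z = 0 := by
    have : (x - z) * (d1 + d2 * x + d2 * z) = 0 := by linear_combination h1 - h3
    rcases mul_eq_zero.1 this with h | h
    · exact absurd (sub_eq_zero.1 h) hxz
    · exact h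
  have e3 := lin_zero (d0 := d1 + d2 * x) (d1 := d2) hyz e1 e2
  have e4 : d1 = 0 := by
    have := e3.1
    rw [e3.2] at this
    linarith
  refine ⟨?_, e4, e3.2⟩
  rw [e4, e3.2] at h1
  linarith

theorem cubic_roots {c0 c1 c2 c3 x y z : ℝ} (hxy : x ≠ y) (hyz : y ≠ z) (hxz : x ≠ z)
    (h1 : c0 + c1 * x + c2 * x ^ 2 + c3 * x ^ 3 = 0) (h2 : c0 + c1 * y + c2 * y ^ 2 + c3 * y ^ 3 = 0)
    (h3 : c0 + c1 * z + c2 * z ^ 2 + c3 * z ^ 3 = 0) (s : ℝ) :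
    c0 + c1 * s + c2 * s ^ 2 + c3 * s ^ 3 = c3 * ((s - x) * (s - y) * (s - z)) := by
  have key := quad_zero (d0 := c0 + c3 * (x * y * z)) (d1 := c1 - c3 * (x * y + y * z + x * z))
    (d2 := c2 + c3 * (x + y + z)) hxy hyz hxz (by linear_combination h1) (by linear_combination h2)
    (by linear_combination h3)
  linear_combination key.1 + s * key.2.1 + s ^ 2 * key.2.2

/-- Chasles: rows `y = α i s + β i`, columns `y = γ j s + δ j` -/
theorem chasles {f : ℝ → ℝ → ℝ} (hf : Cub f) (α β γ δ : Fin 3 → ℝ) (S Y : Fin 3 → Fin 3 → ℝ)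
    (hr : ∀ i j, Y i j = α i * S i j + β i) (hc : ∀ i j, Y i j = γ j * S i j + δ j)
    (hd : ∀ i j j', j ≠ j' → S i j ≠ S i j') (hne : ∀ j, α 0 - γ j ≠ 0)
    (h01 : ∀ j, Y 1 j ≠ α 0 * S 1 j + β 0) (h02 : ∀ j, Y 2 j ≠ α 0 * S 2 j + β 0)
    (h12 : ∀ j, Y 2 j ≠ α 1 * S 2 j + β 1)
    (h8 : ∀ i j, ¬ (i = 2 ∧ j = 2) → f (S i j) (Y i j) = 0) : f (S 2 2) (Y 2 2) = 0 := by
  obtain ⟨a0, a1, a2, a3, a4, a5, a6, a7, a8, a9, ha⟩ := hf
  -- the product of the columns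
  have hC : ∀ s y : ℝ, (y - γ 0 * s - δ 0) * (y - γ 1 * s - δ 1) * (y - γ 2 * s - δ 2) =
      (-(δ 0 * δ 1 * δ 2)) + (-(γ 0 * δ 1 * δ 2 + δ 0 * γ 1 * δ 2 + δ 0 * δ 1 * γ 2)) * s +
      (δ 0 * δ 1 + δ 0 * δ 2 + δ 1 * δ 2) * y +
      (-(γ 0 * γ 1 * δ 2 + γ 0 * δ 1 * γ 2 + δ 0 * γ 1 * γ 2)) * s ^ 2 +
      (γ 0 * δ 1 + γ 1 * δ 0 + γ 0 * δ 2 + γ 2 * δ 0 + γ 1 * δ 2 + γ 2 * δ 1) * s * y +
      (-(δ 0 + δ 1 + δ 2)) * y ^ 2 + (-(γ 0 * γ 1 * γ 2)) * s ^ 3 +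
      (γ 0 * γ 1 + γ 0 * γ 2 + γ 1 * γ 2) * s ^ 2 * y + (-(γ 0 + γ 1 + γ 2)) * s * y ^ 2 + 1 * y ^ 3 := by
    intro s y
    ring
  -- row 0
  have hrow0 : ∀ s : ℝ, f s (α 0 * s + β 0) =
      (a0 + a2 * β 0 + a5 * β 0 ^ 2 + a9 * β 0 ^ 3) +
      (a1 + a2 * α 0 + a4 * β 0 + 2 * a5 * α 0 * β 0 + a8 * β 0 ^ 2 + 3 * a9 * α 0 * β 0 ^ 2) * s +
      (a3 + a4 * α 0 + a5 * α 0 ^ 2 + a7 * β 0 + 2 * a8 * α 0 * β 0 + 3 * a9 * α 0 ^ 2 * β 0) * s ^ 2 +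
      (a6 + a7 * α 0 + a8 * α 0 ^ 2 + a9 * α 0 ^ 3) * s ^ 3 := by
    intro s
    rw [ha]; ring
  have hz : ∀ j, f (S 0 j) (α 0 * S 0 j + β 0) = 0 := by
    intro j
    rw [← hr 0 j]
    exact h8 0 j (by decide +revert)
  have hroots := cubic_roots (hd 0 0 1 (by decide)) (hd 0 1 2 (by decide)) (hd 0 0 2 (by decide))
    (by rw [← hrow0]; exact hz 0) (by rw [← hrow0]; exact hz 1) (by rw [← hrow0]; exact hz 2)
  set k := a6 + a7 * α 0 + a8 * α 0 ^ 2 + a9 * α 0 ^ 3 with hk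
  set m := (α 0 - γ 0) * (α 0 - γ 1) * (α 0 - γ 2) with hm
  have hm0 : m ≠ 0 := mul_ne_zero (mul_ne_zero (hne 0) (hne 1)) (hne 2)
  have hcol : ∀ j s, α 0 * s + β 0 - γ j * s - δ j = (α 0 - γ j) * (s - S 0 j) := by
    intro j s
    have h1 := hr 0 j
    have h2 := hc 0 j
    linear_combination h2 - h1
  set μ := k / m with hμ
  have hμm : μ * m = k := div_mul_cancel₀ _ hm0
  -- coefficients of Q = f - μ C
  obtain ⟨q0, hq0⟩ : ∃ q, q = a0 - μ * (-(δ 0 * δ 1 * δ 2)) := ⟨_, rfl⟩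
  obtain ⟨q1, hq1⟩ : ∃ q, q = a1 - μ * (-(γ 0 * δ 1 * δ 2 + δ 0 * γ 1 * δ 2 + δ 0 * δ 1 * γ 2)) := ⟨_, rfl⟩
  obtain ⟨q2, hq2⟩ : ∃ q, q = a2 - μ * (δ 0 * δ 1 + δ 0 * δ 2 + δ 1 * δ 2) := ⟨_, rfl⟩
  obtain ⟨q3, hq3⟩ : ∃ q, q = a3 - μ * (-(γ 0 * γ 1 * δ 2 + γ 0 * δ 1 * γ 2 + δ 0 * γ 1 * γ 2)) := ⟨_, rfl⟩
  obtain ⟨q4, hq4⟩ : ∃ q, q = a4 - μ * (γ 0 * δ 1 + γ 1 * δ 0 + γ 0 * δ 2 + γ 2 * δ 0 + γ 1 * δ 2 + γ 2 * δ 1) :=
    ⟨_, rfl⟩
  obtain ⟨q5, hq5⟩ : ∃ q, q = a5 - μ * (-(δ 0 + δ 1 + δ 2)) := ⟨_, rfl⟩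
  obtain ⟨q6, hq6⟩ : ∃ q, q = a6 - μ * (-(γ 0 * γ 1 * γ 2)) := ⟨_, rfl⟩
  obtain ⟨q7, hq7⟩ : ∃ q, q = a7 - μ * (γ 0 * γ 1 + γ 0 * γ 2 + γ 1 * γ 2) := ⟨_, rfl⟩
  obtain ⟨q8, hq8⟩ : ∃ q, q = a8 - μ * (-(γ 0 + γ 1 + γ 2)) := ⟨_, rfl⟩
  obtain ⟨q9, hq9⟩ : ∃ q, q = a9 - μ * 1 := ⟨_, rfl⟩
  set Q : ℝ → ℝ → ℝ := fun s y => q0 + q1 * s + q2 * y + q3 * s ^ 2 + q4 * s * y + q5 * y ^ 2 +
    q6 * s ^ 3 + q7 * s ^ 2 * y + q8 * s * y ^ 2 + q9 * y ^ 3 with hQdef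
  have hQ : ∀ s y : ℝ, Q s y = f s y - μ * ((y - γ 0 * s - δ 0) * (y - γ 1 * s - δ 1) * (y - γ 2 * s - δ 2)) := by
    intro s y
    rw [ha, hC]
    simp only [hQdef, hq0, hq1, hq2, hq3, hq4, hq5, hq6, hq7, hq8, hq9]
    ring
  have hQ0 : ∀ s : ℝ, Q s (α 0 * s + β 0) = 0 := by
    intro s
    rw [hQ, hcol 0, hcol 1, hcol 2, hrow0, hroots s]
    rw [← hμm, hm]
    ring
  have hQz : ∀ i j, ¬ (i = 2 ∧ j = 2) → Q (S i j) (Y i j) = 0 := by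
    intro i j hij
    rw [hQ, h8 i j hij]
    have : (Y i j - γ 0 * S i j - δ 0) * (Y i j - γ 1 * S i j - δ 1) * (Y i j - γ 2 * S i j - δ 2) = 0 := by
      have h2 := hc i j
      fin_cases j
      · have : Y i 0 - γ 0 * S i 0 - δ 0 = 0 := by
          have h2 : Y i 0 = γ 0 * S i 0 + δ 0 := h2
          linarith
        show (Y i 0 - γ 0 * S i 0 - δ 0) * _ * _ = 0
        rw [this]; ring
      · have : Y i 1 - γ 1 * S i 1 - δ 1 = 0 := by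
          have h2 : Y i 1 = γ 1 * S i 1 + δ 1 := h2
          linarith
        show _ * (Y i 1 - γ 1 * S i 1 - δ 1) * _ = 0
        rw [this]; ring
      · have : Y i 2 - γ 2 * S i 2 - δ 2 = 0 := by
          have h2 : Y i 2 = γ 2 * S i 2 + δ 2 := h2
          linarith
        show _ * _ * (Y i 2 - γ 2 * S i 2 - δ 2) = 0
        rw [this]; ring
    rw [this]; ring
  -- first division
  set Q1 : ℝ → ℝ → ℝ := fun s y => q2 + q4 * s + q5 * (y + (α 0 * s + β 0)) + q7 * s ^ 2 +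
    q8 * s * (y + (α 0 * s + β 0)) + q9 * (y ^ 2 + y * (α 0 * s + β 0) + (α 0 * s + β 0) ^ 2) with hQ1def
  have hdiv1 : ∀ s y : ℝ, Q s y = (y - (α 0 * s + β 0)) * Q1 s y := by
    intro s y
    have h1 := hQ0 s
    have h2 : Q s y - Q s (α 0 * s + β 0) = (y - (α 0 * s + β 0)) * Q1 s y := by
      simp only [hQdef, hQ1def]; ring
    rw [h1] at h2
    linarith
  have hQ1z : ∀ j, Q1 (S 1 j) (α 1 * S 1 j + β 1) = 0 := by
    intro j
    have h1 := hQz 1 j (fun h => absurd h.1 (by decide))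
    rw [hdiv1] at h1
    rcases mul_eq_zero.1 h1 with h | h
    · exact absurd (sub_eq_zero.1 h) (h01 j)
    · rw [← hr 1 j]; exact h
  have hQ1q : ∀ s : ℝ, Q1 s (α 1 * s + β 1) =
      (q2 + q5 * (β 1 + β 0) + q9 * (β 1 ^ 2 + β 1 * β 0 + β 0 ^ 2)) +
      (q4 + q5 * (α 1 + α 0) + q8 * (β 1 + β 0) +
        q9 * (2 * α 1 * β 1 + α 1 * β 0 + α 0 * β 1 + 2 * α 0 * β 0)) * s +
      (q7 + q8 * (α 1 + α 0) + q9 * (α 1 ^ 2 + α 1 * α 0 + α 0 ^ 2)) * s ^ 2 := by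
    intro s
    simp only [hQ1def]; ring
  have hq := quad_zero (hd 1 0 1 (by decide)) (hd 1 1 2 (by decide)) (hd 1 0 2 (by decide))
    (by rw [← hQ1q]; exact hQ1z 0) (by rw [← hQ1q]; exact hQ1z 1) (by rw [← hQ1q]; exact hQ1z 2)
  have hQ10 : ∀ s : ℝ, Q1 s (α 1 * s + β 1) = 0 := by
    intro s
    rw [hQ1q, hq.1, hq.2.1, hq.2.2]
    ring
  -- second division
  set Q2 : ℝ → ℝ → ℝ := fun s y => q5 + q8 * s + q9 * (y + (α 1 * s + β 1) + (α 0 * s + β 0)) with hQ2def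
  have hdiv2 : ∀ s y : ℝ, Q1 s y = (y - (α 1 * s + β 1)) * Q2 s y := by
    intro s y
    have h1 := hQ10 s
    have h2 : Q1 s y - Q1 s (α 1 * s + β 1) = (y - (α 1 * s + β 1)) * Q2 s y := by
      simp only [hQ1def, hQ2def]; ring
    rw [h1] at h2
    linarith
  have hQ2z : ∀ j, j ≠ 2 → Q2 (S 2 j) (α 2 * S 2 j + β 2) = 0 := by
    intro j hj
    have h1 := hQz 2 j (fun h => hj h.2)
    rw [hdiv1, hdiv2] at h1
    rcases mul_eq_zero.1 h1 with h | h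
    · exact absurd (sub_eq_zero.1 h) (h02 j)
    · rcases mul_eq_zero.1 h with h | h
      · exact absurd (sub_eq_zero.1 h) (h12 j)
      · rw [← hr 2 j]; exact h
  have hQ2q : ∀ s : ℝ, Q2 s (α 2 * s + β 2) = (q5 + q9 * (β 2 + β 1 + β 0)) +
      (q8 + q9 * (α 2 + α 1 + α 0)) * s := by
    intro s
    simp only [hQ2def]; ring
  have hl := lin_zero (hd 2 0 1 (by decide)) (by rw [← hQ2q]; exact hQ2z 0 (by decide))
    (by rw [← hQ2q]; exact hQ2z 1 (by decide))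
  have hfin : Q (S 2 2) (Y 2 2) = 0 := by
    rw [hdiv1, hdiv2]
    have : Q2 (S 2 2) (Y 2 2) = 0 := by
      rw [hr 2 2, hQ2q, hl.1, hl.2]; ring
    rw [this]; ring
  rw [hQ] at hfin
  have : Y 2 2 - γ 2 * S 2 2 - δ 2 = 0 := by
    have := hc 2 2
    linarith
  rw [this] at hfin
  linarith

variable {A : Finset (ℝ × ℝ)} {ε : ℝ}
  {h : ∀ p ∈ A, ∀ q ∈ A, p.1 + ε * p.2 = q.1 + ε * q.2 → p = q}

/-- the zero set of a cubic has the Chasles property -/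
theorem cbp_of (P : MvPolynomial (Fin 2) ℝ) (hP : P.totalDegree ≤ 3) :
    (dual A ε h).CBP (fun i => MvPolynomial.eval ![i.1, i.2] P = 0) := by
  rintro g ⟨row, col, hrow, hcol, hcard, hinj, hne⟩ h8
  have hf := cub_shear (cub_eval P hP) ε
  have hnot : ∀ a b j, a ≠ b → ¬ (dual A ε h).On (g b j) (row a) := by
    intro a b j hab hon
    have hmem : g b j ∈ (dual A ε h).L (row a) := by
      rw [Fam.mem_L]
      exact ⟨((Fam.mem_L _ _ _).1 (hrow b j)).1, hon⟩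
    have hd : ∀ j j', j ≠ j' → g a j ≠ g a j' := fun j j' hj he => hj (hinj _ _ _ _ he).2
    rcases Fam.cover3 (hcard a) (hrow a 0) (hrow a 1) (hrow a 2) (hd 0 1 (by decide)) (hd 1 2 (by decide))
      (hd 0 2 (by decide)) hmem with h | h | h
    · exact hab (hinj _ _ _ _ h).1.symm
    · exact hab (hinj _ _ _ _ h).1.symm
    · exact hab (hinj _ _ _ _ h).1.symm
  have hon : ∀ i j, (dual A ε h).On (g i j) (row i) := fun i j => ((Fam.mem_L _ _ _).1 (hrow i j)).2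
  have honc : ∀ i j, (dual A ε h).On (g i j) (col j) := fun i j => ((Fam.mem_L _ _ _).1 (hcol i j)).2
  have hA : ∀ i j, g i j ∈ A := fun i j => ((Fam.mem_L _ _ _).1 (hrow i j)).1
  have key := chasles hf (fun i => -(row i).1) (fun i => (row i).2) (fun j => -(col j).1)
    (fun j => (col j).2) (fun i j => (g i j).1 + ε * (g i j).2) (fun i j => (g i j).2)
    (by
      intro i j
      have h1 : ((g i j).1 + ε * (g i j).2) * (row i).1 + (g i j).2 = (row i).2 := hon i j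
      show (g i j).2 = -(row i).1 * ((g i j).1 + ε * (g i j).2) + (row i).2
      linarith)
    (by
      intro i j
      have h1 : ((g i j).1 + ε * (g i j).2) * (col j).1 + (g i j).2 = (col j).2 := honc i j
      show (g i j).2 = -(col j).1 * ((g i j).1 + ε * (g i j).2) + (col j).2
      linarith)
    (by
      intro i j j' hj he
      have := h _ (hA i j) _ (hA i j') he
      exact hj (hinj _ _ _ _ this).2)
    (by
      intro j hc
      have h1 : (row 0).1 = (col j).1 := by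
        have : -(row 0).1 - -(col j).1 = 0 := hc
        linarith
      exact hne 0 j ((dual A ε h).eq_of_on_fst (hon 0 j) (honc 0 j) h1))
    (by
      intro j hc
      apply hnot 0 1 j (by decide)
      show ((g 1 j).1 + ε * (g 1 j).2) * (row 0).1 + (g 1 j).2 = (row 0).2
      have hc : (g 1 j).2 = -(row 0).1 * ((g 1 j).1 + ε * (g 1 j).2) + (row 0).2 := hc
      linarith)
    (by
      intro j hc
      apply hnot 0 2 j (by decide)
      show ((g 2 j).1 + ε * (g 2 j).2) * (row 0).1 + (g 2 j).2 = (row 0).2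
      have hc : (g 2 j).2 = -(row 0).1 * ((g 2 j).1 + ε * (g 2 j).2) + (row 0).2 := hc
      linarith)
    (by
      intro j hc
      apply hnot 1 2 j (by decide)
      show ((g 2 j).1 + ε * (g 2 j).2) * (row 1).1 + (g 2 j).2 = (row 1).2
      have hc : (g 2 j).2 = -(row 1).1 * ((g 2 j).1 + ε * (g 2 j).2) + (row 1).2 := hc
      linarith)
    (by
      intro i j hij
      have h1 := h8 i j hij
      have e : (g i j).1 + ε * (g i j).2 - ε * (g i j).2 = (g i j).1 := by ring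
      show MvPolynomial.eval ![(g i j).1 + ε * (g i j).2 - ε * (g i j).2, (g i j).2] P = 0
      rw [e]; exact h1)
  have e : (g 2 2).1 + ε * (g 2 2).2 - ε * (g 2 2).2 = (g 2 2).1 := by ring
  have key : MvPolynomial.eval ![(g 2 2).1 + ε * (g 2 2).2 - ε * (g 2 2).2, (g 2 2).2] P = 0 := key
  rw [e] at key
  exact key

end MP9b2b
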