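import Pool.Agent.Lib.MP_9b2b7a_co.SW.Walk
import Pool.Agent.Lib.MP_9b2b7a_co.SW.Chasles
import Pool.Agent.Lib.MP_9b2b7a_co.Final2

set_option autoImplicit false
open scoped Classical

namespace MP9b2b
namespace Fam

variable {ι : Type} (F : Fam ι) {U : Finset (ℝ × ℝ)}

/-- (line i, lines through the left end, lines through the right end) of the edges of `EDr` -/
noncomputable def SR (U : Finset (ℝ × ℝ)) : Finset (ι × Finset ι × Finset ι) :=
  (F.S ×ˢ F.S.powerset ×ˢ F.S.powerset).filter (fun t => ∃ p q, F.Adj t.1 p q ∧ p ∈ U ∧ q ∉ U ∧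
    t.2.1 = F.L p ∧ t.2.2 = F.L q)

theorem L_sub (v : ℝ × ℝ) : F.L v ∈ F.S.powerset := by
  rw [Finset.mem_powerset]
  unfold L
  exact Finset.filter_subset _ _

theorem eq_of_L {v w : ℝ × ℝ} (hv : F.IsV v) (h : F.L v = F.L w) : v = w := by
  obtain ⟨i, hi, j, hj, hij, h1, h2⟩ := hv
  have a1 : i ∈ F.L w := by rw [← h, mem_L]; exact ⟨hi, h1⟩
  have a2 : j ∈ F.L w := by rw [← h, mem_L]; exact ⟨hj, h2⟩
  rw [mem_L] at a1 a2
  exact F.eq_of_on hi hj hij h1 h2 a1.2 a2.2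

theorem EDr_le_SR : (F.EDr U).card ≤ (F.SR U).card := by
  apply Finset.card_le_card_of_forall_subsingleton
    (fun (e : ι × (ℝ × ℝ)) (t : ι × Finset ι × Finset ι) => t.1 = e.1 ∧ t.2.1 = F.L e.2)
  · rintro ⟨i, v⟩ he
    unfold EDr at he
    rw [Finset.mem_filter, Finset.mem_product] at he
    obtain ⟨⟨h1, h2⟩, q, hq, hqU⟩ := he
    refine ⟨(i, F.L v, F.L q), ?_, rfl, rfl⟩
    unfold SR
    rw [Finset.mem_filter, Finset.mem_product, Finset.mem_product]
    exact ⟨⟨h1, F.L_sub _, F.L_sub _⟩, v, q, hq, h2, hqU, rfl, rfl⟩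
  · rintro ⟨x, u, w⟩ - ⟨i, v⟩ ht ⟨i', v'⟩ ht'
    simp only [Set.mem_ofPred_eq] at ht ht'
    obtain ⟨hm, e1, e2⟩ := ht
    obtain ⟨hm', e1', e2'⟩ := ht'
    unfold EDr at hm
    rw [Finset.mem_filter] at hm
    obtain ⟨-, q, hq, -⟩ := hm
    have : v = v' := F.eq_of_L hq.2.2.2.1 (by rw [← e2, ← e2'])
    rw [this, ← e1, ← e1']

theorem SR_disj : Disjoint (F.SR U) (F.mx.SR (U.image tx)) := by
  rw [Finset.disjoint_left]
  rintro ⟨x, u, w⟩ ha hb
  unfold SR at ha hb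
  rw [Finset.mem_filter] at ha hb
  obtain ⟨-, p, q, h1, h2, h3, h4, h5⟩ := ha
  obtain ⟨-, p', q', k1, k2, k3, k4, k5⟩ := hb
  simp only at h1 h4 h5 k1 k4 k5
  rw [← tx_tx p', L_mx] at k4
  rw [← tx_tx q', L_mx] at k5
  rw [← tx_tx p', ← tx_tx q', adj_mx] at k1
  have e1 : p = tx p' := F.eq_of_L h1.2.2.2.1 (by rw [← h4, ← k4])
  have e2 : q = tx q' := F.eq_of_L h1.2.2.2.2.1 (by rw [← h5, ← k5])
  have l1 := h1.2.2.2.2.2.1
  have l2 := k1.2.2.2.2.2.1
  rw [← e1, ← e2] at l2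
  linarith

end Fam

/-- orientation -/
def ori (x y p : ℝ × ℝ) : ℝ := (y.1 - x.1) * (p.2 - x.2) - (y.2 - x.2) * (p.1 - x.1)

/-- the points of `A` on the line through `x` and `y` -/
noncomputable def lineOf (A : Finset (ℝ × ℝ)) (x y : ℝ × ℝ) : Finset (ℝ × ℝ) :=
  A.filter (fun p => ori x y p = 0)

/-- the (point sets of the) connecting lines of `A` -/
noncomputable def LinesOf (A : Finset (ℝ × ℝ)) : Finset (Finset (ℝ × ℝ)) :=
  ((A ×ˢ A).filter (fun t => t.1 ≠ t.2)).image (fun t => lineOf A t.1 t.2)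

/-- the lines `xy`, `xz` are neighbours at `x` -/
def Nb (A : Finset (ℝ × ℝ)) (x y z : ℝ × ℝ) : Prop :=
  (∀ p ∈ A, 0 ≤ ori x y p * ori x z p) ∨ (∀ p ∈ A, ori x y p * ori x z p ≤ 0)

def NbL (A : Finset (ℝ × ℝ)) (x : ℝ × ℝ) (u w : Finset (ℝ × ℝ)) : Prop :=
  ∀ y ∈ u, ∀ z ∈ w, y ≠ x → z ≠ x → Nb A x y z

/-- the switches of a property of lines -/
noncomputable def sw (A : Finset (ℝ × ℝ)) (P : Finset (ℝ × ℝ) → Prop) :
    Finset ((ℝ × ℝ) × Finset (ℝ × ℝ) × Finset (ℝ × ℝ)) :=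
  (A ×ˢ LinesOf A ×ˢ LinesOf A).filter (fun t => t.1 ∈ t.2.1 ∧ t.1 ∈ t.2.2 ∧ P t.2.1 ∧ ¬ P t.2.2 ∧
    NbL A t.1 t.2.1 t.2.2)

theorem mem_sw (A : Finset (ℝ × ℝ)) (P : Finset (ℝ × ℝ) → Prop)
    (t : (ℝ × ℝ) × Finset (ℝ × ℝ) × Finset (ℝ × ℝ)) : t ∈ sw A P ↔
    (t.1 ∈ A ∧ t.2.1 ∈ LinesOf A ∧ t.2.2 ∈ LinesOf A) ∧ t.1 ∈ t.2.1 ∧ t.1 ∈ t.2.2 ∧ P t.2.1 ∧
      ¬ P t.2.2 ∧ NbL A t.1 t.2.1 t.2.2 := by
  unfold sw
  rw [Finset.mem_filter, Finset.mem_product, Finset.mem_product]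

theorem mem_LinesOf (A : Finset (ℝ × ℝ)) (u : Finset (ℝ × ℝ)) : u ∈ LinesOf A ↔
    ∃ x ∈ A, ∃ y ∈ A, x ≠ y ∧ u = lineOf A x y := by
  unfold LinesOf
  rw [Finset.mem_image]
  constructor
  · rintro ⟨⟨x, y⟩, ht, rfl⟩
    rw [Finset.mem_filter, Finset.mem_product] at ht
    exact ⟨x, ht.1.1, y, ht.1.2, ht.2, rfl⟩
  · rintro ⟨x, hx, y, hy, hxy, rfl⟩
    refine ⟨(x, y), ?_, rfl⟩
    rw [Finset.mem_filter, Finset.mem_product]
    exact ⟨⟨hx, hy⟩, hxy⟩

section
variable {A : Finset (ℝ × ℝ)} {ε : ℝ}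
  {h : ∀ p ∈ A, ∀ q ∈ A, p.1 + ε * p.2 = q.1 + ε * q.2 → p = q}

theorem ori_dual {x y v : ℝ × ℝ} (hx : (dual A ε h).On x v) (hy : (dual A ε h).On y v) (p : ℝ × ℝ) :
    ori x y p = ((dual A ε h).s y - (dual A ε h).s x) * ((dual A ε h).f p v.1 - v.2) := by
  have hx' : (x.1 + ε * x.2) * v.1 + x.2 = v.2 := hx
  have hy' : (y.1 + ε * y.2) * v.1 + y.2 = v.2 := hy
  show (y.1 - x.1) * (p.2 - x.2) - (y.2 - x.2) * (p.1 - x.1) =
    ((y.1 + ε * y.2) - (x.1 + ε * x.2)) * ((p.1 + ε * p.2) * v.1 + p.2 - v.2)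
  have e : y.2 - x.2 = -(((y.1 + ε * y.2) - (x.1 + ε * x.2)) * v.1) := by linear_combination hy' - hx'
  have e1 : y.1 - x.1 = ((y.1 + ε * y.2) - (x.1 + ε * x.2)) * (1 + ε * v.1) := by
    linear_combination (-ε) * (hy' - hx')
  rw [e1, e]
  linear_combination ((y.1 + ε * y.2) - (x.1 + ε * x.2)) * (-hx')

theorem s_ne {x y v : ℝ × ℝ} (hx : x ∈ (dual A ε h).L v) (hy : y ∈ (dual A ε h).L v) (hxy : x ≠ y) :
    (dual A ε h).s y - (dual A ε h).s x ≠ 0 := by
  intro hc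
  rw [Fam.mem_L] at hx hy
  exact hxy ((dual A ε h).inj x hx.1 y hy.1 (by linarith))

theorem lineOf_dual {x y v : ℝ × ℝ} (hx : x ∈ (dual A ε h).L v) (hy : y ∈ (dual A ε h).L v)
    (hxy : x ≠ y) : lineOf A x y = (dual A ε h).L v := by
  have hs := s_ne hx hy hxy
  ext p
  unfold lineOf
  rw [Finset.mem_filter, Fam.mem_L, ori_dual ((Fam.mem_L _ _ _).1 hx).2 ((Fam.mem_L _ _ _).1 hy).2 p,
    Fam.on_iff, mul_eq_zero, sub_eq_zero (a := (dual A ε h).f p v.1)]
  constructor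
  · rintro ⟨h1, h2 | h2⟩
    · exact absurd h2 hs
    · exact ⟨h1, h2⟩
  · rintro ⟨h1, h2⟩
    exact ⟨h1, Or.inr h2⟩

theorem nb_dual {x y z v w : ℝ × ℝ} (hadj : (dual A ε h).Adj x v w) (hy : y ∈ (dual A ε h).L v)
    (hz : z ∈ (dual A ε h).L w) : Nb A x y z := by
  have hg : ∀ p ∈ A, 0 ≤ ((dual A ε h).f p v.1 - v.2) * ((dual A ε h).f p w.1 - w.2) := by
    intro p hp
    have hv : (dual A ε h).f x v.1 = v.2 := hadj.2.1
    have hw : (dual A ε h).f x w.1 = w.2 := hadj.2.2.1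
    have hlt := hadj.2.2.2.2.2.1
    rw [← hv, ← hw]
    rcases lt_trichotomy ((dual A ε h).f p v.1) ((dual A ε h).f x v.1) with h1 | h1 | h1
    · have := (dual A ε h).adj_lt hadj (j := p) hp (le_refl _) hlt (le_refl _) h1
      exact mul_nonneg_of_nonpos_of_nonpos (by linarith) (by linarith)
    · rw [h1, sub_self, zero_mul]
    · have := (dual A ε h).adj_gt hadj (j := p) hp (le_refl _) hlt (le_refl _) h1
      exact mul_nonneg (by linarith) (by linarith)
  have key : ∀ p, ori x y p * ori x z p = (((dual A ε h).s y - (dual A ε h).s x) *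
      ((dual A ε h).s z - (dual A ε h).s x)) *
      (((dual A ε h).f p v.1 - v.2) * ((dual A ε h).f p w.1 - w.2)) := by
    intro p
    rw [ori_dual hadj.2.1 ((Fam.mem_L _ _ _).1 hy).2 p, ori_dual hadj.2.2.1 ((Fam.mem_L _ _ _).1 hz).2 p]
    ring
  rcases le_total 0 (((dual A ε h).s y - (dual A ε h).s x) * ((dual A ε h).s z - (dual A ε h).s x))
    with h1 | h1
  · left
    intro p hp
    rw [key]
    exact mul_nonneg h1 (hg p hp)
  · right
    intro p hp
    rw [key]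
    exact mul_nonpos_of_nonpos_of_nonneg h1 (hg p hp)

/-- the vertices of the lines of `U` -/
noncomputable def UV (A : Finset (ℝ × ℝ)) (ε : ℝ)
    (h : ∀ p ∈ A, ∀ q ∈ A, p.1 + ε * p.2 = q.1 + ε * q.2 → p = q) (U : Finset (Finset (ℝ × ℝ))) :
    Finset (ℝ × ℝ) := (dual A ε h).V.filter (fun v => (dual A ε h).L v ∈ U)

theorem UV_sub {U : Finset (Finset (ℝ × ℝ))} (hU : ∀ u ∈ U, 3 ≤ u.card) :
    UV A ε h U ⊆ (dual A ε h).R3 := by
  intro v hv
  unfold UV at hv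
  rw [Finset.mem_filter, Fam.mem_V] at hv
  rw [Fam.mem_R3]
  exact ⟨hv.1, hU _ hv.2⟩

/-- two points of A lie on a vertex -/
theorem exists_vertex {x y : ℝ × ℝ} (hx : x ∈ A) (hy : y ∈ A) (hxy : x ≠ y) :
    ∃ v, (dual A ε h).IsV v ∧ x ∈ (dual A ε h).L v ∧ y ∈ (dual A ε h).L v := by
  have hmem : ((dual A ε h).X x y, (dual A ε h).f x ((dual A ε h).X x y)) ∈ (dual A ε h).V := by
    unfold Fam.V
    rw [Finset.mem_image]
    exact ⟨(x, y), by rw [Finset.mem_offDiag]; exact ⟨hx, hy, hxy⟩, rfl⟩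
  have hV := ((dual A ε h).mem_V _).1 hmem
  have hs : (dual A ε h).s x - (dual A ε h).s y ≠ 0 := by
    intro hc
    exact hxy ((dual A ε h).inj x hx y hy (by linarith))
  refine ⟨_, hV, ?_, ?_⟩
  · rw [Fam.mem_L]
    exact ⟨hx, rfl⟩
  · rw [Fam.mem_L]
    refine ⟨hy, ?_⟩
    show (dual A ε h).s y * (dual A ε h).X x y + (dual A ε h).b y =
      (dual A ε h).s x * (dual A ε h).X x y + (dual A ε h).b x
    unfold Fam.X
    field_simp
    ring

theorem L_mem_LinesOf {v : ℝ × ℝ} (hv : (dual A ε h).IsV v) : (dual A ε h).L v ∈ LinesOf A := by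
  rw [mem_LinesOf]
  obtain ⟨i, hi, j, hj, hij, h1, h2⟩ := hv
  exact ⟨i, hi, j, hj, hij, (lineOf_dual ((Fam.mem_L _ _ _).2 ⟨hi, h1⟩)
    ((Fam.mem_L _ _ _).2 ⟨hj, h2⟩) hij).symm⟩

theorem card_UV {U : Finset (Finset (ℝ × ℝ))} (hU : U ⊆ LinesOf A) : U.card ≤ (UV A ε h U).card := by
  apply Finset.card_le_card_of_forall_subsingleton (fun u v => (dual A ε h).L v = u)
  · intro u hu
    obtain ⟨x, hx, y, hy, hxy, he⟩ := (mem_LinesOf A u).1 (hU hu)
    obtain ⟨v, hV, h1, h2⟩ := exists_vertex (ε := ε) (h := h) hx hy hxy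
    have e := lineOf_dual h1 h2 hxy
    rw [← he] at e
    refine ⟨v, ?_, e.symm⟩
    unfold UV
    rw [Finset.mem_filter, Fam.mem_V, ← e]
    exact ⟨hV, hu⟩
  · intro v _ u hu u' hu'
    simp only [Set.mem_ofPred_eq] at hu hu'
    rw [← hu.2, ← hu'.2]

theorem SU_UV {U : Finset (Finset (ℝ × ℝ))} : (dual A ε h).SU (UV A ε h U) ⊆ U.biUnion id := by
  intro i hi
  unfold Fam.SU at hi
  rw [Finset.mem_filter] at hi
  obtain ⟨h1, v, hv, h2⟩ := hi
  unfold UV at hv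
  rw [Finset.mem_filter] at hv
  rw [Finset.mem_biUnion]
  exact ⟨_, hv.2, by rw [id, Fam.mem_L]; exact ⟨h1, h2⟩⟩

theorem nb_symm {x y z : ℝ × ℝ} (hn : Nb A x y z) : Nb A x z y := by
  rcases hn with hn | hn
  · left; intro p hp; rw [mul_comm]; exact hn p hp
  · right; intro p hp; rw [mul_comm]; exact hn p hp

theorem SR_sw {U : Finset (Finset (ℝ × ℝ))} :
    (dual A ε h).SR (UV A ε h U) ⊆ sw A (fun u => u ∈ U) := by
  rintro ⟨x, u, w⟩ ht
  unfold Fam.SR at ht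
  rw [Finset.mem_filter, Finset.mem_product] at ht
  obtain ⟨hm, p, q, h1, h2, h3, h4, h5⟩ := ht
  simp only at h1 h4 h5 hm
  subst h4 h5
  unfold UV at h2 h3
  rw [Finset.mem_filter] at h2 h3
  rw [mem_sw]
  refine ⟨⟨hm.1, L_mem_LinesOf h1.2.2.2.1, L_mem_LinesOf h1.2.2.2.2.1⟩, ?_, ?_, h2.2, ?_, ?_⟩
  · rw [Fam.mem_L]; exact ⟨h1.1, h1.2.1⟩
  · rw [Fam.mem_L]; exact ⟨h1.1, h1.2.2.1⟩
  · intro hc
    exact h3 ⟨by rw [Fam.mem_V]; exact h1.2.2.2.2.1, hc⟩
  · intro y hy z hz _ _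
    exact nb_dual h1 hy hz

theorem SR_sw' {U : Finset (Finset (ℝ × ℝ))} :
    (dual A ε h).mx.SR ((UV A ε h U).image Fam.tx) ⊆ sw A (fun u => u ∈ U) := by
  rintro ⟨x, u, w⟩ ht
  unfold Fam.SR at ht
  rw [Finset.mem_filter, Finset.mem_product] at ht
  obtain ⟨hm, p, q, h1, h2, h3, h4, h5⟩ := ht
  simp only at h1 h4 h5 hm
  rw [← Fam.tx_tx p, ← Fam.tx_tx q, Fam.adj_mx] at h1
  rw [← Fam.tx_tx p, Fam.L_mx] at h4
  rw [← Fam.tx_tx q, Fam.L_mx] at h5
  rw [← Fam.tx_tx p, Fam.mem_img] at h2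
  rw [← Fam.tx_tx q, Fam.mem_img] at h3
  subst h4 h5
  unfold UV at h2 h3
  rw [Finset.mem_filter] at h2 h3
  rw [mem_sw]
  refine ⟨⟨hm.1, L_mem_LinesOf h1.2.2.2.2.1, L_mem_LinesOf h1.2.2.2.1⟩, ?_, ?_, h2.2, ?_, ?_⟩
  · rw [Fam.mem_L]; exact ⟨h1.1, h1.2.2.1⟩
  · rw [Fam.mem_L]; exact ⟨h1.1, h1.2.1⟩
  · intro hc
    exact h3 ⟨by rw [Fam.mem_V]; exact h1.2.2.2.1, hc⟩
  · intro y hy z hz _ _
    exact nb_symm (nb_dual h1 hz hy)

theorem edges_le {U : Finset (Finset (ℝ × ℝ))} :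
    ((dual A ε h).EDr (UV A ε h U)).card + ((dual A ε h).mx.EDr ((UV A ε h U).image Fam.tx)).card ≤
      (sw A (fun u => u ∈ U)).card := by
  have h4 := (dual A ε h).EDr_le_SR (U := UV A ε h U)
  have h5 := (dual A ε h).mx.EDr_le_SR (U := (UV A ε h U).image Fam.tx)
  have h6 : ((dual A ε h).SR (UV A ε h U)).card +
      ((dual A ε h).mx.SR ((UV A ε h U).image Fam.tx)).card ≤ (sw A (fun u => u ∈ U)).card := by
    rw [← Finset.card_union_of_disjoint (dual A ε h).SR_disj]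
    exact Finset.card_le_card (Finset.union_subset SR_sw SR_sw')
  omega

/-- a cubic through the nine points of a grid and any further point -/
theorem pencil {g : Fin 3 → Fin 3 → ℝ × ℝ} (hg : (dual A ε h).G3 g) (z : ℝ × ℝ) :
    ∃ P : MvPolynomial (Fin 2) ℝ, P ≠ 0 ∧ P.totalDegree ≤ 3 ∧
      (∀ i j, MvPolynomial.eval ![(g i j).1, (g i j).2] P = 0) ∧
      MvPolynomial.eval ![z.1, z.2] P = 0 := by
  obtain ⟨row, col, hrow', hcol', -, hinj, hne⟩ := hg
  have hrow : ∀ i j, (dual A ε h).On (g i j) (row i) := fun i j => ((Fam.mem_L _ _ _).1 (hrow' i j)).2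
  have hcol : ∀ i j, (dual A ε h).On (g i j) (col j) := fun i j => ((Fam.mem_L _ _ _).1 (hcol' i j)).2
  set R : MvPolynomial (Fin 2) ℝ := lin ε (row 0) * lin ε (row 1) * lin ε (row 2) with hR
  set C : MvPolynomial (Fin 2) ℝ := lin ε (col 0) * lin ε (col 1) * lin ε (col 2) with hC
  have hRd : R.totalDegree ≤ 3 := deg_mul3 (deg_lin _ _) (deg_lin _ _) (deg_lin _ _)
  have hCd : C.totalDegree ≤ 3 := deg_mul3 (deg_lin _ _) (deg_lin _ _) (deg_lin _ _)
  have hR0 : R ≠ 0 := mul_ne_zero (mul_ne_zero (lin_ne _ _) (lin_ne _ _)) (lin_ne _ _)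
  have hRg : ∀ i j, MvPolynomial.eval ![(g i j).1, (g i j).2] R = 0 := by
    intro i j
    have := (on_dual _ _).1 (hrow i j)
    rw [hR, map_mul, map_mul]
    fin_cases i
    · have h' : MvPolynomial.eval ![(g 0 j).1, (g 0 j).2] (lin ε (row 0)) = 0 := this
      show MvPolynomial.eval ![(g 0 j).1, (g 0 j).2] (lin ε (row 0)) * _ * _ = 0
      rw [h']; ring
    · have h' : MvPolynomial.eval ![(g 1 j).1, (g 1 j).2] (lin ε (row 1)) = 0 := this
      show _ * MvPolynomial.eval ![(g 1 j).1, (g 1 j).2] (lin ε (row 1)) * _ = 0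
      rw [h']; ring
    · have h' : MvPolynomial.eval ![(g 2 j).1, (g 2 j).2] (lin ε (row 2)) = 0 := this
      show _ * _ * MvPolynomial.eval ![(g 2 j).1, (g 2 j).2] (lin ε (row 2)) = 0
      rw [h']; ring
  have hCg : ∀ i j, MvPolynomial.eval ![(g i j).1, (g i j).2] C = 0 := by
    intro i j
    have := (on_dual _ _).1 (hcol i j)
    rw [hC, map_mul, map_mul]
    fin_cases j
    · have h' : MvPolynomial.eval ![(g i 0).1, (g i 0).2] (lin ε (col 0)) = 0 := this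
      show MvPolynomial.eval ![(g i 0).1, (g i 0).2] (lin ε (col 0)) * _ * _ = 0
      rw [h']; ring
    · have h' : MvPolynomial.eval ![(g i 1).1, (g i 1).2] (lin ε (col 1)) = 0 := this
      show _ * MvPolynomial.eval ![(g i 1).1, (g i 1).2] (lin ε (col 1)) * _ = 0
      rw [h']; ring
    · have h' : MvPolynomial.eval ![(g i 2).1, (g i 2).2] (lin ε (col 2)) = 0 := this
      show _ * _ * MvPolynomial.eval ![(g i 2).1, (g i 2).2] (lin ε (col 2)) = 0
      rw [h']; ring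
  by_cases hz : MvPolynomial.eval ![z.1, z.2] R = 0
  · exact ⟨R, hR0, hRd, hRg, hz⟩
  · -- a point on the first row off the columns
    obtain ⟨s, hs⟩ := Infinite.exists_notMem_finset
      ((Finset.univ : Finset (Fin 3)).image (fun j => -((row 0).2 - (col j).2) / ((col j).1 - (row 0).1)))
    have hsj : ∀ j, s * ((col j).1 - (row 0).1) + ((row 0).2 - (col j).2) ≠ 0 := by
      intro j hj
      by_cases hx : (col j).1 = (row 0).1
      · rw [hx, sub_self, mul_zero, zero_add, sub_eq_zero] at hj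
        exact hne 0 j (Prod.ext hx.symm hj)
      · apply hs
        rw [Finset.mem_image]
        refine ⟨j, Finset.mem_univ _, ?_⟩
        rw [div_eq_iff (sub_ne_zero.2 hx)]
        linarith
    set b := (row 0).2 - (row 0).1 * s with hb
    set x : ℝ × ℝ := (s - ε * b, b) with hx
    have ev : ∀ v : ℝ × ℝ, MvPolynomial.eval ![x.1, x.2] (lin ε v) = s * v.1 + b - v.2 := by
      intro v
      rw [eval_lin]
      show (s - ε * b + ε * b) * v.1 + b - v.2 = _
      ring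
    have hRx : MvPolynomial.eval ![x.1, x.2] R = 0 := by
      rw [hR, map_mul, map_mul, ev (row 0)]
      have : s * (row 0).1 + b - (row 0).2 = 0 := by rw [hb]; ring
      rw [this]; ring
    have hCx : MvPolynomial.eval ![x.1, x.2] C ≠ 0 := by
      have e : ∀ j, MvPolynomial.eval ![x.1, x.2] (lin ε (col j)) ≠ 0 := by
        intro j
        rw [ev]
        have := hsj j
        intro hc
        apply this
        rw [← hc, hb]; ring
      rw [hC, map_mul, map_mul]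
      exact mul_ne_zero (mul_ne_zero (e 0) (e 1)) (e 2)
    set P : MvPolynomial (Fin 2) ℝ := MvPolynomial.C (MvPolynomial.eval ![z.1, z.2] C) * R -
      MvPolynomial.C (MvPolynomial.eval ![z.1, z.2] R) * C with hP
    have hP0 : P ≠ 0 := by
      intro hc
      have : MvPolynomial.eval ![x.1, x.2] P = 0 := by rw [hc]; simp
      rw [hP] at this
      simp only [map_sub, map_mul, MvPolynomial.eval_C] at this
      rw [hRx, mul_zero, zero_sub, neg_eq_zero] at this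
      rcases mul_eq_zero.1 this with h' | h'
      · exact hz h'
      · exact hCx h'
    refine ⟨P, hP0, ?_, ?_, ?_⟩
    · refine (MvPolynomial.totalDegree_sub _ _).trans (max_le ?_ ?_)
      · refine (MvPolynomial.totalDegree_mul _ _).trans ?_
        rw [MvPolynomial.totalDegree_C]
        omega
      · refine (MvPolynomial.totalDegree_mul _ _).trans ?_
        rw [MvPolynomial.totalDegree_C]
        omega
    · intro i j
      rw [hP]
      simp only [map_sub, map_mul, MvPolynomial.eval_C]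
      rw [hRg i j, hCg i j]; ring
    · rw [hP]
      simp only [map_sub, map_mul, MvPolynomial.eval_C]
      ring

/-- a long walk gives many points on a cubic -/
theorem kOn_walk {U : Finset (ℝ × ℝ)} (r : ℕ)
    {c l : ℝ × ℝ} (hW : (dual A ε h).Walk U (r + 1) c l) {k : ℕ} (hk : k ≤ 2 * r + 3) : KOn k A := by
  obtain ⟨g, t, hg, hall⟩ := (dual A ε h).many_lines r hW
  obtain ⟨P, hP0, hPd, hPg, hPt⟩ := pencil hg t
  obtain ⟨W, hW1, hW2⟩ := hall _ (cbp_of P hPd) hPg hPt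
  exact kOn_of (U := W) (fun x hx => (hW2 x hx).1) (by omega) hP0 hPd (fun x hx => (hW2 x hx).2)

end

/-- THE QUANTITATIVE STRUCTURE THEOREM -/
theorem iso_k (A : Finset (ℝ × ℝ)) (k : ℕ) (hk : 2 ≤ k) (hno : ¬ KOn k A)
    (U : Finset (Finset (ℝ × ℝ))) (hU : U ⊆ LinesOf A) (hU3 : ∀ u ∈ U, 3 ≤ u.card) :
    U.card ≤ (k + 2) * (77 * (U.biUnion id).card + 23 * (sw A (fun u => u ∈ U)).card) := by
  obtain ⟨ε, h⟩ := exists_eps A
  have hs := UV_sub (ε := ε) (h := h) hU3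
  obtain ⟨r, hr⟩ : ∃ r, r = k / 2 - 1 := ⟨_, rfl⟩
  have h1 : (UV A ε h U).card ≤ (r + 2) * ((dual A ε h).N2 (UV A ε h U)).card := by
    by_contra hcon
    push Not at hcon
    obtain ⟨c, -, l, -, hW⟩ := (dual A ε h).exists_walk (r + 1) hcon
    exact hno (kOn_walk r hW (by omega))
  have h2 := (dual A ε h).N2_le (U := UV A ε h U)
  have h3 := (dual A ε h).N1_le hs
  have h4 := card_UV (ε := ε) (h := h) hU
  have h5 := Finset.card_le_card (SU_UV (ε := ε) (h := h) (U := U))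
  have h8 := edges_le (ε := ε) (h := h) (U := U)
  have h9 : 2 * ((dual A ε h).N2 (UV A ε h U)).card ≤
      308 * (U.biUnion id).card + 92 * (sw A (fun u => u ∈ U)).card := by omega
  have h10 : 2 * (r + 2) ≤ k + 2 := by omega
  have h11 : 4 * U.card ≤ 4 * ((k + 2) * (77 * (U.biUnion id).card +
      23 * (sw A (fun u => u ∈ U)).card)) := by
    calc 4 * U.card ≤ 4 * (UV A ε h U).card := by omega
      _ ≤ 4 * ((r + 2) * ((dual A ε h).N2 (UV A ε h U)).card) := by omega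
      _ = (2 * (r + 2)) * (2 * ((dual A ε h).N2 (UV A ε h U)).card) := by ring
      _ ≤ (k + 2) * (308 * (U.biUnion id).card + 92 * (sw A (fun u => u ∈ U)).card) :=
        Nat.mul_le_mul h10 h9
      _ = 4 * ((k + 2) * (77 * (U.biUnion id).card + 23 * (sw A (fun u => u ∈ U)).card)) := by ring
  omega

/-- a set on a cubic curve -/
def OnC (B : Finset (ℝ × ℝ)) : Prop :=
  ∃ p : MvPolynomial (Fin 2) ℝ, p ≠ 0 ∧ p.totalDegree ≤ 3 ∧
    ∀ x ∈ B, MvPolynomial.eval ![x.1, x.2] p = 0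

theorem onC_single (a : ℝ × ℝ) : OnC {a} := by
  refine ⟨MvPolynomial.X 0 - MvPolynomial.C a.1, ?_, ?_, ?_⟩
  · intro hc
    have h1 := congrArg (MvPolynomial.eval ![a.1 + 1, a.2]) hc
    simp at h1
  · refine (MvPolynomial.totalDegree_sub _ _).trans (max_le ?_ ?_)
    · rw [MvPolynomial.totalDegree_X]; norm_num
    · rw [MvPolynomial.totalDegree_C]; norm_num
  · intro x hx
    rw [Finset.mem_singleton] at hx
    subst hx
    simp

/-- the positive form -/
theorem iso_pos (A : Finset (ℝ × ℝ)) (U : Finset (Finset (ℝ × ℝ))) (hU : U ⊆ LinesOf A)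
    (hU3 : ∀ u ∈ U, 3 ≤ u.card) :
    ∃ B : Finset (ℝ × ℝ), B ⊆ A ∧ OnC B ∧
      U.card ≤ (B.card + 3) * (77 * (U.biUnion id).card + 23 * (sw A (fun u => u ∈ U)).card) := by
  have hne : (A.powerset.filter OnC).Nonempty := by
    refine ⟨∅, ?_⟩
    rw [Finset.mem_filter, Finset.mem_powerset]
    exact ⟨Finset.empty_subset _, 1, one_ne_zero, by simp, by simp⟩
  obtain ⟨B, hB, hmax⟩ := Finset.exists_max_image _ Finset.card hne
  rw [Finset.mem_filter, Finset.mem_powerset] at hB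
  refine ⟨B, hB.1, hB.2, ?_⟩
  have hno : ¬ KOn (B.card + 1) A := by
    rintro ⟨B', h1, h2, h3⟩
    have := hmax B' (by rw [Finset.mem_filter, Finset.mem_powerset]; exact ⟨h1, h3⟩)
    omega
  by_cases h0 : 1 ≤ B.card
  · have := iso_k A (B.card + 1) (by omega) hno U hU hU3
    exact this
  · have hB0 : B.card = 0 := by omega
    -- `A` is empty
    have hA : A = ∅ := by
      by_contra hA
      obtain ⟨a, ha⟩ := Finset.nonempty_of_ne_empty hA
      have := hmax {a} (by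
        rw [Finset.mem_filter, Finset.mem_powerset]
        exact ⟨by simpa using ha, onC_single a⟩)
      rw [Finset.card_singleton] at this
      omega
    have hU0 : U = ∅ := by
      by_contra hc
      obtain ⟨u, hu⟩ := Finset.nonempty_of_ne_empty hc
      obtain ⟨x, hx, -⟩ := (mem_LinesOf A u).1 (hU hu)
      rw [hA] at hx
      exact absurd hx (Finset.notMem_empty _)
    rw [hU0]
    simp

/-- ten points -/
theorem iso10 (A : Finset (ℝ × ℝ)) (hno : ¬ KOn 10 A) (U : Finset (Finset (ℝ × ℝ)))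
    (hU : U ⊆ LinesOf A) (hU3 : ∀ u ∈ U, 3 ≤ u.card) :
    U.card ≤ 12 * (U.biUnion id).card + 3 * (sw A (fun u => u ∈ U)).card := by
  obtain ⟨ε, h⟩ := exists_eps A
  by_cases hA : 10 ≤ A.card
  · have hs := UV_sub (ε := ε) (h := h) hU3
    have h1 := (dual A ε h).U_le_sym hs (fun ⟨g, hg⟩ => hno (grid_ten hg hA))
    have h2 := card_UV (ε := ε) (h := h) hU
    have h3 := Finset.card_le_card (SU_UV (ε := ε) (h := h) (U := U))
    have h4 := edges_le (ε := ε) (h := h) (U := U)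
    omega
  · -- at most nine points
    have hsubA : U.biUnion id ⊆ A := by
      intro x hx
      rw [Finset.mem_biUnion] at hx
      obtain ⟨u, hu, hxu⟩ := hx
      obtain ⟨a, -, b, -, -, he⟩ := (mem_LinesOf A u).1 (hU hu)
      rw [id, he] at hxu
      exact (Finset.mem_filter.1 hxu).1
    have h2 := Finset.card_le_card hsubA
    have h1 : U.card ≤ ((U.biUnion id) ×ˢ (U.biUnion id)).card := by
      apply Finset.card_le_card_of_forall_subsingleton
        (fun (u : Finset (ℝ × ℝ)) (t : (ℝ × ℝ) × (ℝ × ℝ)) => u = lineOf A t.1 t.2)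
      · intro u hu
        obtain ⟨a, ha, b, hb, hab, he⟩ := (mem_LinesOf A u).1 (hU hu)
        have ha' : a ∈ u := by
          rw [he]; unfold lineOf; rw [Finset.mem_filter]
          exact ⟨ha, by unfold ori; ring⟩
        have hb' : b ∈ u := by
          rw [he]; unfold lineOf; rw [Finset.mem_filter]
          exact ⟨hb, by unfold ori; ring⟩
        refine ⟨(a, b), ?_, he⟩
        rw [Finset.mem_product]
        exact ⟨Finset.mem_biUnion.2 ⟨u, hu, ha'⟩, Finset.mem_biUnion.2 ⟨u, hu, hb'⟩⟩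
      · intro t _ u hu u' hu'
        simp only [Set.mem_ofPred_eq] at hu hu'
        rw [hu.2, hu'.2]
    rw [Finset.card_product] at h1
    have h3 : (U.biUnion id).card * (U.biUnion id).card ≤ 9 * (U.biUnion id).card :=
      Nat.mul_le_mul_right _ (by omega)
    omega

/-- the lines with at least three points -/
noncomputable def rich (A : Finset (ℝ × ℝ)) : Finset (Finset (ℝ × ℝ)) :=
  (LinesOf A).filter (fun u => 3 ≤ u.card)

theorem rich_sub (A : Finset (ℝ × ℝ)) : rich A ⊆ LinesOf A := Finset.filter_subset _ _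

theorem rich3 (A : Finset (ℝ × ℝ)) : ∀ u ∈ rich A, 3 ≤ u.card := by
  intro u hu
  unfold rich at hu
  exact (Finset.mem_filter.1 hu).2

theorem sw_rich (A : Finset (ℝ × ℝ)) :
    sw A (fun u => u ∈ rich A) ⊆ sw A (fun u => 3 ≤ u.card) := by
  rintro ⟨x, u, w⟩ ht
  rw [mem_sw] at ht ⊢
  obtain ⟨hm, h1, h2, h3, h4, h5⟩ := ht
  simp only at h3 h4 hm
  refine ⟨hm, h1, h2, rich3 A _ h3, fun hc => h4 ?_, h5⟩
  unfold rich
  rw [Finset.mem_filter]
  exact ⟨hm.2.2, hc⟩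

theorem rich_union (A : Finset (ℝ × ℝ)) : ((rich A).biUnion id).card ≤ A.card := by
  apply Finset.card_le_card
  intro x hx
  rw [Finset.mem_biUnion] at hx
  obtain ⟨u, hu, hxu⟩ := hx
  obtain ⟨a, -, b, -, -, he⟩ := (mem_LinesOf A u).1 (rich_sub A hu)
  rw [id, he] at hxu
  exact (Finset.mem_filter.1 hxu).1

/-- the number of collinear triples -/
noncomputable def colTriples (A : Finset (ℝ × ℝ)) : ℕ :=
  ((A.powersetCard 3).filter (fun s : Finset (ℝ × ℝ) => Collinear ℝ (s : Set (ℝ × ℝ)))).card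

theorem T3_le_rich (A : Finset (ℝ × ℝ)) {ε : ℝ}
    {h : ∀ p ∈ A, ∀ q ∈ A, p.1 + ε * p.2 = q.1 + ε * q.2 → p = q} :
    (dual A ε h).T3.card ≤ (rich A).card := by
  apply Finset.card_le_card_of_injOn (fun v => (dual A ε h).L v)
  · intro v hv
    rw [Finset.mem_coe, Fam.mem_T3] at hv
    unfold rich
    rw [Finset.mem_coe, Finset.mem_filter]
    refine ⟨L_mem_LinesOf hv.1, ?_⟩
    show 3 ≤ ((dual A ε h).L v).card
    omega
  · intro v hv w hw he
    rw [Finset.mem_coe, Fam.mem_T3] at hv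
    exact (dual A ε h).eq_of_L hv.1 he

/-- few switches give ten points on a cubic -/
theorem few_switches (A : Finset (ℝ × ℝ)) (hno : ¬ KOn 10 A) :
    colTriples A ≤ 12 * A.card + 3 * (sw A (fun u => 3 ≤ u.card)).card + 420 := by
  obtain ⟨ε, h⟩ := exists_eps A
  have h1 := triples_le (ε := ε) (h := h) hno
  have h2 := T3_le_rich A (ε := ε) (h := h)
  have h3 := iso10 A hno (rich A) (rich_sub A) (rich3 A)
  have h4 := Finset.card_le_card (sw_rich A)
  have h5 := rich_union A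
  unfold colTriples
  omega

/-- for every c > 0 -/
theorem all_c (c : ℝ) (hc : 0 < c) : ∃ N : ℕ, ∀ A : Finset (ℝ × ℝ), N ≤ A.card →
    c * ((A.card : ℝ) ^ 2) ≤ (colTriples A : ℝ) →
    4 * ((sw A (fun u => 3 ≤ u.card)).card : ℝ) ≤ c * ((A.card : ℝ) ^ 2) → KOn 10 A := by
  obtain ⟨N, hN⟩ := exists_nat_gt (max 1 (10000 / c))
  refine ⟨N, fun A hA hT hS => ?_⟩
  by_contra hno
  have h1 := few_switches A hno
  have h1' : (colTriples A : ℝ) ≤ 12 * (A.card : ℝ) +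
      3 * ((sw A (fun u => 3 ≤ u.card)).card : ℝ) + 420 := by
    exact_mod_cast h1
  have hn : (N : ℝ) ≤ A.card := by exact_mod_cast hA
  have hn1 : (1 : ℝ) < A.card := lt_of_lt_of_le (lt_of_le_of_lt (le_max_left _ _) hN) hn
  have hnc : 10000 / c < A.card := lt_of_lt_of_le (lt_of_le_of_lt (le_max_right _ _) hN) hn
  rw [div_lt_iff₀ hc] at hnc
  nlinarith

/-- ordered pairs on rich lines -/
noncomputable def richPairs (A : Finset (ℝ × ℝ)) : ℕ :=
  ((A ×ˢ A).filter (fun t => t.1 ≠ t.2 ∧ 3 ≤ (lineOf A t.1 t.2).card)).card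

theorem richPairs_le (A : Finset (ℝ × ℝ)) (k : ℕ) (hk : ∀ u ∈ LinesOf A, u.card ≤ k) :
    richPairs A ≤ k ^ 2 * (rich A).card := by
  have h1 : richPairs A ≤ ((rich A).sigma (fun u => u ×ˢ u)).card := by
    unfold richPairs
    apply Finset.card_le_card_of_injOn (fun t => (⟨lineOf A t.1 t.2, t⟩ : Σ _ : Finset (ℝ × ℝ), (ℝ × ℝ) × (ℝ × ℝ)))
    · rintro ⟨a, b⟩ ht
      rw [Finset.mem_coe, Finset.mem_filter, Finset.mem_product] at ht
      obtain ⟨⟨ha, hb⟩, hab, h3⟩ := ht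
      simp only at ha hb hab h3
      rw [Finset.mem_coe, Finset.mem_sigma]
      unfold rich
      rw [Finset.mem_filter, Finset.mem_product]
      refine ⟨⟨(mem_LinesOf A _).2 ⟨a, ha, b, hb, hab, rfl⟩, h3⟩, ?_, ?_⟩
      · show a ∈ lineOf A a b
        unfold lineOf; rw [Finset.mem_filter]
        exact ⟨ha, by unfold ori; ring⟩
      · show b ∈ lineOf A a b
        unfold lineOf; rw [Finset.mem_filter]
        exact ⟨hb, by unfold ori; ring⟩
    · intro t _ t' _ he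
      simp only [Sigma.mk.injEq, heq_eq_eq] at he
      exact he.2
  rw [Finset.card_sigma] at h1
  have h2 : ∑ u ∈ rich A, (u ×ˢ u).card ≤ ∑ u ∈ rich A, k ^ 2 := by
    apply Finset.sum_le_sum
    intro u hu
    rw [Finset.card_product, pow_two]
    exact Nat.mul_le_mul (hk u (rich_sub A hu)) (hk u (rich_sub A hu))
  rw [Finset.sum_const, smul_eq_mul, mul_comm] at h2
  exact h1.trans h2

/-- the strong form -/
theorem strong (k : ℕ) (K δ : ℝ) (hK : 0 ≤ K) (hδ : 0 < δ) : ∃ c : ℝ, 0 < c ∧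
    ∀ A : Finset (ℝ × ℝ), (∀ u ∈ LinesOf A, u.card ≤ k) →
      δ * (A.card : ℝ) ^ 2 ≤ (richPairs A : ℝ) →
      ((sw A (fun u => 3 ≤ u.card)).card : ℝ) ≤ K * (A.card : ℝ) →
      ∃ B : Finset (ℝ × ℝ), B ⊆ A ∧ OnC B ∧ c * (A.card : ℝ) ≤ (B.card : ℝ) := by
  refine ⟨δ / (308 * ((k : ℝ) ^ 2 + 1) * (1 + K)), by positivity, fun A hk hp hS => ?_⟩
  obtain ⟨B, hBA, hBC, hB⟩ := iso_pos A (rich A) (rich_sub A) (rich3 A)
  have h1 := richPairs_le A k hk
  have h2 := rich_union A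
  have h3 := Finset.card_le_card (sw_rich A)
  by_cases hA : A.card = 0
  · exact ⟨B, hBA, hBC, by rw [hA]; simp⟩
  · have hn : (0 : ℝ) < A.card := by exact_mod_cast Nat.pos_of_ne_zero hA
    have h1' : (richPairs A : ℝ) ≤ (k : ℝ) ^ 2 * ((rich A).card : ℝ) := by exact_mod_cast h1
    have hB'' : ((rich A).card : ℝ) ≤ ((B.card : ℝ) + 3) *
        (77 * (((rich A).biUnion id).card : ℝ) + 23 * ((sw A (fun u => u ∈ rich A)).card : ℝ)) := by
      exact_mod_cast hB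
    have hs0 : (0 : ℝ) ≤ ((sw A (fun u => u ∈ rich A)).card : ℝ) := by positivity
    have hB' : ((rich A).card : ℝ) ≤ 77 * ((B.card : ℝ) + 3) *
        ((((rich A).biUnion id).card : ℝ) + ((sw A (fun u => u ∈ rich A)).card : ℝ)) := by
      have hb0 : (0 : ℝ) ≤ (B.card : ℝ) + 3 := by positivity
      nlinarith [mul_nonneg hb0 hs0]
    have h2' : (((rich A).biUnion id).card : ℝ) ≤ A.card := by exact_mod_cast h2
    have h3' : ((sw A (fun u => u ∈ rich A)).card : ℝ) ≤ ((sw A (fun u => 3 ≤ u.card)).card : ℝ) := by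
      exact_mod_cast h3
    have hm : (((rich A).biUnion id).card : ℝ) + ((sw A (fun u => u ∈ rich A)).card : ℝ) ≤
        (1 + K) * A.card := by nlinarith
    have hb0 : (0 : ℝ) ≤ B.card := by positivity
    have e1 : ((rich A).card : ℝ) ≤ 77 * ((B.card : ℝ) + 3) * ((1 + K) * A.card) :=
      hB'.trans (mul_le_mul_of_nonneg_left hm (by positivity))
    have e2 : δ * (A.card : ℝ) ^ 2 ≤ ((k : ℝ) ^ 2 + 1) * (77 * ((B.card : ℝ) + 3) * ((1 + K) * A.card)) := by
      have hr0 : (0 : ℝ) ≤ ((rich A).card : ℝ) := by positivity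
      calc δ * (A.card : ℝ) ^ 2 ≤ (k : ℝ) ^ 2 * ((rich A).card : ℝ) := hp.trans h1'
        _ ≤ ((k : ℝ) ^ 2 + 1) * ((rich A).card : ℝ) := by nlinarith
        _ ≤ _ := mul_le_mul_of_nonneg_left e1 (by positivity)
    have e3 : δ * (A.card : ℝ) ≤ ((k : ℝ) ^ 2 + 1) * (77 * ((B.card : ℝ) + 3) * (1 + K)) := by
      have : δ * (A.card : ℝ) * (A.card : ℝ) ≤
          (((k : ℝ) ^ 2 + 1) * (77 * ((B.card : ℝ) + 3) * (1 + K))) * (A.card : ℝ) := by nlinarith
      exact le_of_mul_le_mul_right this hn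
    have e4 : δ / (308 * ((k : ℝ) ^ 2 + 1) * (1 + K)) * (A.card : ℝ) ≤ ((B.card : ℝ) + 3) / 4 := by
      rw [div_mul_eq_mul_div, div_le_div_iff₀ (by positivity) (by norm_num)]
      nlinarith
    by_cases hB0 : 1 ≤ B.card
    · have : (1 : ℝ) ≤ B.card := by exact_mod_cast hB0
      exact ⟨B, hBA, hBC, by linarith⟩
    · have hB00 : (B.card : ℝ) = 0 := by
        have : B.card = 0 := by omega
        rw [this]; simp
      obtain ⟨a, ha⟩ := Finset.card_pos.1 (Nat.pos_of_ne_zero hA)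
      refine ⟨{a}, by simpa using ha, onC_single a, ?_⟩
      rw [Finset.card_singleton]
      rw [hB00] at e4
      push_cast
      linarith

end MP9b2b
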