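import Pool.Agent.Lib.MP_9b2b7a_co.SW.Walk

set_option autoImplicit false
open scoped Classical

/-! Components of good vertices: each carries one cubic, and has at most `e ^ 2 / 6` vertices if it has
`e` exits to the right. -/

namespace MP9b2b
namespace Fam

variable {ι : Type} (F : Fam ι) {U : Finset (ℝ × ℝ)}

theorem dirs6 {c : ℝ × ℝ} (hc : (F.L c).card = 3) {x1 x2 x3 : ι × Bool} (s12 : F.Su c x1 x2)
    (s23 : F.Su c x2 x3) {d : ι × Bool} (hl : d.1 ∈ F.L c) :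
    d = x1 ∨ d = x2 ∨ d = x3 ∨ d = op x1 ∨ d = op x2 ∨ d = op x3 := by
  obtain ⟨y1, y2, y3, y4, y5, y6⟩ := F.dist3 hc s12 s23
  have key : ∀ x : ι × Bool, d.1 = x.1 → d = x ∨ d = op x := by
    intro x hh
    by_cases hb : d.2 = x.2
    · exact Or.inl (Prod.ext hh hb)
    · right
      have hh2 : d.1 = (op x).1 := hh
      have hb2 : d.2 = (op x).2 := by
        show d.2 = !x.2
        cases h1 : d.2 <;> cases h2 : x.2 <;> simp_all
      exact Prod.ext hh2 hb2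
  rcases cover3 hc y4 y5 y6 y1 y2 y3 hl with hh | hh | hh
  · rcases key _ hh with h | h
    · exact Or.inl h
    · exact Or.inr (Or.inr (Or.inr (Or.inl h)))
  · rcases key _ hh with h | h
    · exact Or.inr (Or.inl h)
    · exact Or.inr (Or.inr (Or.inr (Or.inr (Or.inl h))))
  · rcases key _ hh with h | h
    · exact Or.inr (Or.inr (Or.inl h))
    · exact Or.inr (Or.inr (Or.inr (Or.inr (Or.inr h))))

/-- all the way around a good vertex -/
theorem around {Z : ι → Prop} (hCB : F.CBP Z) {q p : ℝ × ℝ} {d : ι × Bool} (hB : F.B2 U q)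
    (hd : F.Nx d q p) (zq : F.GZ Z q) (zp : F.GZ Z p) : ∀ d' w, F.Nx d' q w → F.GZ Z w := by
  have hq3 := (F.good_of_B1 hB.1).1
  have hA : F.AG q := hB.1.2.2.1
  have D := F.nx_data hd
  have hV : F.IsV q := F.card_L_isV (by omega)
  have hlq : d.1 ∈ F.L q := by rw [mem_L]; exact ⟨D.1, D.2.1⟩
  obtain ⟨x2, s12⟩ := F.exists_su hV (d := d) hlq
  obtain ⟨x3, s23⟩ := F.exists_su hV (F.su_data s12).2
  have s34 : F.Su q x3 (op d) := F.su3_close hq3 s12 s23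
  have s45 : F.Su q (op d) (op x2) := F.su_op.2 s12
  have s56 : F.Su q (op x2) (op x3) := F.su_op.2 s23
  obtain ⟨-, a1, a2, m1, m2, -⟩ := hA _ _ s12
  obtain ⟨-, b1, a3, m2', m3, -⟩ := hA _ _ s23
  obtain ⟨-, b2, a4, m3', m4, -⟩ := hA _ _ s34
  obtain ⟨-, b3, a5, m4', m5, -⟩ := hA _ _ s45
  obtain ⟨-, b4, a6, m5', m6, -⟩ := hA _ _ s56
  have g2 : F.GZ Z a2 := F.prop_step hCB s12 hd m2 hA (F.good_of_B1 (hB.2 _ _ m2)) zq zp
  have g3 : F.GZ Z a3 := F.prop_step hCB s23 m2 m3 hA (F.good_of_B1 (hB.2 _ _ m3)) zq g2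
  have g4 : F.GZ Z a4 := F.prop_step hCB s34 m3 m4 hA (F.good_of_B1 (hB.2 _ _ m4)) zq g3
  have g5 : F.GZ Z a5 := F.prop_step hCB s45 m4 m5 hA (F.good_of_B1 (hB.2 _ _ m5)) zq g4
  have g6 : F.GZ Z a6 := F.prop_step hCB s56 m5 m6 hA (F.good_of_B1 (hB.2 _ _ m6)) zq g5
  intro d' w hw
  have D' := F.nx_data hw
  rcases F.dirs6 hq3 s12 s23 (d := d') (by rw [mem_L]; exact ⟨D'.1, D'.2.1⟩) with h | h | h | h | h | h
  · rw [h] at hw; rw [F.nx_unique hw hd]; exact zp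
  · rw [h] at hw; rw [F.nx_unique hw m2]; exact g2
  · rw [h] at hw; rw [F.nx_unique hw m3]; exact g3
  · rw [h] at hw; rw [F.nx_unique hw m4]; exact g4
  · rw [h] at hw; rw [F.nx_unique hw m5]; exact g5
  · rw [h] at hw; rw [F.nx_unique hw m6]; exact g6

/-- adjacent good vertices -/
def Lk (U : Finset (ℝ × ℝ)) (c q : ℝ × ℝ) : Prop := F.B2 U c ∧ F.B2 U q ∧ ∃ d, F.Nx d c q

theorem lk_symm {c q : ℝ × ℝ} (h : F.Lk U c q) : F.Lk U q c := by
  obtain ⟨h1, h2, d, h3⟩ := h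
  exact ⟨h2, h1, op d, F.nx_op.2 h3⟩

theorem comp_prop {Z : ι → Prop} (hCB : F.CBP Z) {c p : ℝ × ℝ} {d : ι × Bool} (hd : F.Nx d c p)
    (zc : F.GZ Z c) (zp : F.GZ Z p) {q : ℝ × ℝ} (h : Relation.ReflTransGen (F.Lk U) c q) :
    F.GZ Z q ∧ ∃ d' p', F.Nx d' q p' ∧ F.GZ Z p' := by
  induction h with
  | refl => exact ⟨zc, d, p, hd, zp⟩
  | tail _ hlk ih =>
    obtain ⟨zb, d', p', hn, zp'⟩ := ih
    obtain ⟨hB, -, e, he⟩ := hlk
    exact ⟨F.around hCB hB hn zb zp' _ _ he, op e, _, F.nx_op.2 he, zb⟩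

/-- one cubic for a component -/
theorem comp_cubic {c : ℝ × ℝ} (hB : F.B2 U c) : ∃ (g : Fin 3 → Fin 3 → ι) (t : ι), F.G3 g ∧
    ∀ Z : ι → Prop, F.CBP Z → (∀ i j, Z (g i j)) → Z t →
      ∀ q, Relation.ReflTransGen (F.Lk U) c q → F.GZ Z q := by
  have hgc := F.good_of_B1 hB.1
  have hc3 := hgc.1
  have hV : F.IsV c := F.card_L_isV (by omega)
  obtain ⟨l, hl⟩ : (F.L c).Nonempty := by rw [← Finset.card_pos]; omega
  obtain ⟨x2, hs⟩ := F.exists_su hV (d := (l, true)) hl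
  obtain ⟨w1, w2, w3, w4, w5, w6, g, n1, n2, -, -, -, hg, -, -, -, -, -, -, hcov⟩ := F.ring6 hgc hs
  have zc : ∀ Z : ι → Prop, (∀ i j, Z (g i j)) → F.GZ Z c := by
    intro Z hZ d p hd i hi
    obtain ⟨a, b, hab⟩ := hcov d p hd i hi
    rw [hab]; exact hZ a b
  by_cases hex : ∃ d p, F.Nx d c p ∧ F.B2 U p
  · obtain ⟨d, p, hd, hp⟩ := hex
    obtain ⟨t, ht⟩ := F.start_step hd hgc (F.good_of_B1 hp.1)
    refine ⟨g, t, hg, fun Z hCB hZ hZt q hq => ?_⟩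
    exact (F.comp_prop hCB hd (zc Z hZ) (ht Z hCB (zc Z hZ) hZt) hq).1
  · push Not at hex
    refine ⟨g, g 0 0, hg, fun Z hCB hZ _ q hq => ?_⟩
    rcases Relation.ReflTransGen.cases_head hq with h | ⟨b, h1, -⟩
    · rw [← h]; exact zc Z hZ
    · obtain ⟨-, hb, d, hd⟩ := h1
      exact absurd hb (hex d b hd)

noncomputable def BB (U : Finset (ℝ × ℝ)) : Finset (ℝ × ℝ) := U.filter (fun c => F.B2 U c)

theorem mem_BB {c : ℝ × ℝ} : c ∈ F.BB U ↔ F.B2 U c := by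
  unfold BB
  rw [Finset.mem_filter]
  exact ⟨fun h => h.2, fun h => ⟨h.1.1, h⟩⟩

/-- the component of c -/
noncomputable def Kp (U : Finset (ℝ × ℝ)) (c : ℝ × ℝ) : Finset (ℝ × ℝ) :=
  (F.BB U).filter (fun q => Relation.ReflTransGen (F.Lk U) c q)

noncomputable def Cs (U : Finset (ℝ × ℝ)) : Finset (Finset (ℝ × ℝ)) := (F.BB U).image (F.Kp U)

theorem mem_Kp {c q : ℝ × ℝ} : q ∈ F.Kp U c ↔ F.B2 U q ∧ Relation.ReflTransGen (F.Lk U) c q := by
  unfold Kp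
  rw [Finset.mem_filter, mem_BB]

theorem rtg_symm {c q : ℝ × ℝ} (h : Relation.ReflTransGen (F.Lk U) c q) :
    Relation.ReflTransGen (F.Lk U) q c := by
  induction h with
  | refl => exact Relation.ReflTransGen.refl
  | tail _ hlk ih => exact Relation.ReflTransGen.head (F.lk_symm hlk) ih

theorem Kp_eq {c q : ℝ × ℝ} (h : q ∈ F.Kp U c) : F.Kp U q = F.Kp U c := by
  rw [mem_Kp] at h
  have hs : Relation.ReflTransGen (F.Lk U) q c := F.rtg_symm h.2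
  ext w
  rw [mem_Kp, mem_Kp]
  exact ⟨fun hw => ⟨hw.1, h.2.trans hw.2⟩, fun hw => ⟨hw.1, hs.trans hw.2⟩⟩

theorem self_mem_Kp {c : ℝ × ℝ} (h : F.B2 U c) : c ∈ F.Kp U c :=
  F.mem_Kp.2 ⟨h, Relation.ReflTransGen.refl⟩

/-- for a component K: v in K iff v is good and its component is K -/
theorem mem_comp {K : Finset (ℝ × ℝ)} (hK : K ∈ F.Cs U) (v : ℝ × ℝ) :
    v ∈ K ↔ F.B2 U v ∧ F.Kp U v = K := by
  unfold Cs at hK
  rw [Finset.mem_image] at hK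
  obtain ⟨c, hc, rfl⟩ := hK
  constructor
  · intro h
    exact ⟨(F.mem_Kp.1 h).1, F.Kp_eq h⟩
  · rintro ⟨h1, h2⟩
    rw [← h2]
    exact F.self_mem_Kp h1

/-- the exits to the right -/
noncomputable def Xt (U : Finset (ℝ × ℝ)) : Finset (Σ _ : ℝ × ℝ, ι) :=
  ((F.BB U).sigma (fun c => F.L c)).filter (fun t => ∀ q, F.Adj t.2 t.1 q → ¬ F.B2 U q)

theorem mem_Xt {t : Σ _ : ℝ × ℝ, ι} : t ∈ F.Xt U ↔
    (F.B2 U t.1 ∧ t.2 ∈ F.L t.1) ∧ ∀ q, F.Adj t.2 t.1 q → ¬ F.B2 U q := by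
  unfold Xt
  rw [Finset.mem_filter, Finset.mem_sigma, mem_BB]

theorem card_Xt : (F.Xt U).card ≤ 3 * (F.N2' U).card := by
  rw [← F.card_N2_sigma]
  apply Finset.card_le_card_of_forall_subsingleton
    (fun (t t' : Σ _ : ℝ × ℝ, ι) => t'.2 = t.2 ∧ F.Adj t.2 t.1 t'.1)
  · rintro ⟨c, l⟩ ht
    rw [mem_Xt] at ht
    obtain ⟨⟨hB, hl⟩, hno⟩ := ht
    simp only at hB hl hno
    have hc3 := (F.good_of_B1 hB.1).1
    have hV : F.IsV c := F.card_L_isV (by omega)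
    obtain ⟨q, hq⟩ := F.exists_right hV hB.1.2.2.1 hl
    refine ⟨⟨q, l⟩, ?_, rfl, hq⟩
    unfold N2' N2
    rw [Finset.mem_sigma, Finset.mem_filter, Finset.mem_filter]
    have h1 := hB.1.2.2.2 (l, true) q (Or.inl ⟨rfl, hq⟩)
    exact ⟨⟨⟨h1.1, hno q hq⟩, h1.2⟩, by rw [mem_L]; exact ⟨hq.1, hq.2.2.1⟩⟩
  · rintro ⟨q, l⟩ - ⟨c, m⟩ ht ⟨c', m'⟩ ht'
    simp only [Set.mem_ofPred_eq] at ht ht'
    obtain ⟨-, e1, a1⟩ := ht
    obtain ⟨-, e2, a2⟩ := ht'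
    subst e1
    subst e2
    rw [F.adj_prev_unique a1 a2]

theorem exists_exit {c : ℝ × ℝ} (hc : F.B2 U c) {l : ι} (hl : l ∈ F.L c) :
    ∃ t ∈ F.Xt U, t.1 ∈ F.Kp U c ∧ t.2 = l := by
  have hne : ((F.Kp U c).filter (fun v => l ∈ F.L v)).Nonempty :=
    ⟨c, by rw [Finset.mem_filter]; exact ⟨F.self_mem_Kp hc, hl⟩⟩
  obtain ⟨v, hv, hmax⟩ := Finset.exists_max_image _ (fun v : ℝ × ℝ => v.1) hne
  rw [Finset.mem_filter] at hv
  refine ⟨⟨v, l⟩, ?_, hv.1, rfl⟩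
  have hv1 := F.mem_Kp.1 hv.1
  rw [mem_Xt]
  refine ⟨⟨hv1.1, hv.2⟩, fun q hq hB => ?_⟩
  simp only at hq
  have h1 := hmax q (by
    rw [Finset.mem_filter, mem_Kp]
    exact ⟨⟨hB, hv1.2.tail ⟨hv1.1, hB, (l, true), Or.inl ⟨rfl, hq⟩⟩⟩, by
      rw [mem_L]; exact ⟨hq.1, hq.2.2.1⟩⟩)
  have h2 := hq.2.2.2.2.2.1
  linarith

/-- the isoperimetric inequality for a component -/
theorem comp_iso {K : Finset (ℝ × ℝ)} (hK : K ∈ F.Cs U) :
    6 * K.card ≤ ((F.Xt U).filter (fun t => F.Kp U t.1 = K)).card ^ 2 := by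
  have h1 : (K.sigma (fun v => (F.L v).offDiag)).card = 6 * K.card := by
    rw [Finset.card_sigma]
    have : ∀ v ∈ K, ((F.L v).offDiag).card = 6 := by
      intro v hv
      have h3 : (F.L v).card = 3 := (F.good_of_B1 ((F.mem_comp hK v).1 hv).1.1).1
      rw [Finset.offDiag_card, h3]
    rw [Finset.sum_congr rfl this, Finset.sum_const, smul_eq_mul, mul_comm]
  rw [← h1, pow_two, ← Finset.card_product]
  apply Finset.card_le_card_of_forall_subsingleton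
    (fun (a : Σ _ : ℝ × ℝ, ι × ι) (b : (Σ _ : ℝ × ℝ, ι) × (Σ _ : ℝ × ℝ, ι)) =>
      b.1.2 = a.2.1 ∧ b.2.2 = a.2.2)
  · rintro ⟨v, i, j⟩ ha
    rw [Finset.mem_sigma, Finset.mem_offDiag] at ha
    obtain ⟨hv, hi, hj, hij⟩ := ha
    simp only at hv hi hj
    obtain ⟨hvB, hvK⟩ := (F.mem_comp hK v).1 hv
    obtain ⟨t1, h1, h2, h3⟩ := F.exists_exit hvB hi
    obtain ⟨t2, k1, k2, k3⟩ := F.exists_exit hvB hj
    refine ⟨(t1, t2), ?_, h3, k3⟩
    rw [Finset.mem_product, Finset.mem_filter, Finset.mem_filter]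
    exact ⟨⟨h1, (F.Kp_eq h2).trans hvK⟩, ⟨k1, (F.Kp_eq k2).trans hvK⟩⟩
  · rintro ⟨t1, t2⟩ - ⟨v, i, j⟩ ha ⟨v', i', j'⟩ ha'
    simp only [Set.mem_ofPred_eq] at ha ha'
    obtain ⟨hm, e1, e2⟩ := ha
    obtain ⟨hm', e1', e2'⟩ := ha'
    have ei : i = i' := by rw [← e1, ← e1']
    have ej : j = j' := by rw [← e2, ← e2']
    subst ei ej
    rw [Finset.mem_sigma, Finset.mem_offDiag] at hm hm'
    obtain ⟨-, hi, hj, hij⟩ := hm
    obtain ⟨-, hi', hj', -⟩ := hm'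
    simp only [mem_L] at hi hj hi' hj' hij
    have : v = v' := F.eq_of_on hi.1 hj.1 hij hi.2 hj.2 hi'.2 hj'.2
    rw [this]

/-- the components with at least `t` exits -/
noncomputable def Big (U : Finset (ℝ × ℝ)) (t : ℝ) : Finset (Finset (ℝ × ℝ)) :=
  (F.Cs U).filter (fun K => t ≤ (((F.Xt U).filter (fun e => F.Kp U e.1 = K)).card : ℝ))

theorem sum_exits : ∑ K ∈ F.Cs U, ((F.Xt U).filter (fun e => F.Kp U e.1 = K)).card = (F.Xt U).card := by
  symm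
  apply Finset.card_eq_sum_card_fiberwise
  intro e he
  rw [Finset.mem_coe, mem_Xt] at he
  unfold Cs
  rw [Finset.mem_coe, Finset.mem_image]
  exact ⟨e.1, F.mem_BB.2 he.1.1, rfl⟩

theorem big_le {t : ℝ} : ((F.Big U t).card : ℝ) * t ≤ 3 * ((F.N2 U).card : ℝ) := by
  have h1 : ((F.Big U t).card : ℝ) * t ≤
      ∑ K ∈ F.Big U t, (((F.Xt U).filter (fun e => F.Kp U e.1 = K)).card : ℝ) := by
    rw [← nsmul_eq_mul]
    apply Finset.card_nsmul_le_sum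
    intro K hK
    unfold Big at hK
    exact (Finset.mem_filter.1 hK).2
  have h2 : ∑ K ∈ F.Big U t, (((F.Xt U).filter (fun e => F.Kp U e.1 = K)).card : ℝ) ≤
      ∑ K ∈ F.Cs U, (((F.Xt U).filter (fun e => F.Kp U e.1 = K)).card : ℝ) := by
    apply Finset.sum_le_sum_of_subset_of_nonneg
    · exact Finset.filter_subset _ _
    · intro K _ _
      positivity
  have h3 : ∑ K ∈ F.Cs U, (((F.Xt U).filter (fun e => F.Kp U e.1 = K)).card : ℝ) =
      ((F.Xt U).card : ℝ) := by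
    exact_mod_cast congrArg (fun n : ℕ => (n : ℝ)) (F.sum_exits (U := U))
  have h4 : ((F.Xt U).card : ℝ) ≤ 3 * ((F.N2' U).card : ℝ) := by exact_mod_cast F.card_Xt (U := U)
  have h5 : ((F.N2' U).card : ℝ) ≤ ((F.N2 U).card : ℝ) := by
    exact_mod_cast Finset.card_le_card (Finset.filter_subset _ _)
  linarith

theorem small_le {t : ℝ} (ht : 0 < t) : 2 * (((F.BB U).filter (fun v => F.Kp U v ∉ F.Big U t)).card : ℝ) ≤
    t * ((F.N2 U).card : ℝ) := by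
  obtain ⟨Sm, hSm⟩ : ∃ Sm, Sm = (F.Cs U).filter (fun K => K ∉ F.Big U t) := ⟨_, rfl⟩
  have h1 : ((F.BB U).filter (fun v => F.Kp U v ∉ F.Big U t)).card ≤ ∑ K ∈ Sm, K.card := by
    rw [Finset.card_eq_sum_card_fiberwise (f := F.Kp U) (t := Sm)]
    · apply Finset.sum_le_sum
      intro K hK
      apply Finset.card_le_card
      intro v hv
      rw [Finset.mem_filter, Finset.mem_filter, mem_BB] at hv
      rw [hSm, Finset.mem_filter] at hK
      exact (F.mem_comp hK.1 v).2 ⟨hv.1.1, hv.2⟩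
    · intro v hv
      rw [Finset.mem_coe, Finset.mem_filter] at hv
      rw [Finset.mem_coe, hSm, Finset.mem_filter]
      refine ⟨?_, hv.2⟩
      unfold Cs
      rw [Finset.mem_image]
      exact ⟨v, hv.1, rfl⟩
  have h1' : (((F.BB U).filter (fun v => F.Kp U v ∉ F.Big U t)).card : ℝ) ≤ ∑ K ∈ Sm, (K.card : ℝ) := by
    exact_mod_cast h1
  have h2 : ∀ K ∈ Sm, 6 * (K.card : ℝ) ≤
      t * (((F.Xt U).filter (fun e => F.Kp U e.1 = K)).card : ℝ) := by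
    intro K hK
    rw [hSm, Finset.mem_filter] at hK
    have h3 := F.comp_iso hK.1
    have h3' : 6 * (K.card : ℝ) ≤ (((F.Xt U).filter (fun e => F.Kp U e.1 = K)).card : ℝ) ^ 2 := by
      exact_mod_cast h3
    have h4 : (((F.Xt U).filter (fun e => F.Kp U e.1 = K)).card : ℝ) < t := by
      by_contra hc
      push Not at hc
      apply hK.2
      unfold Big
      rw [Finset.mem_filter]
      exact ⟨hK.1, hc⟩
    have h5 : (0 : ℝ) ≤ (((F.Xt U).filter (fun e => F.Kp U e.1 = K)).card : ℝ) := by positivity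
    nlinarith
  have h3 : 6 * ∑ K ∈ Sm, (K.card : ℝ) ≤
      t * ∑ K ∈ Sm, (((F.Xt U).filter (fun e => F.Kp U e.1 = K)).card : ℝ) := by
    rw [Finset.mul_sum, Finset.mul_sum]
    exact Finset.sum_le_sum h2
  have h4 : ∑ K ∈ Sm, (((F.Xt U).filter (fun e => F.Kp U e.1 = K)).card : ℝ) ≤
      ∑ K ∈ F.Cs U, (((F.Xt U).filter (fun e => F.Kp U e.1 = K)).card : ℝ) := by
    apply Finset.sum_le_sum_of_subset_of_nonneg
    · rw [hSm]; exact Finset.filter_subset _ _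
    · intro K _ _
      positivity
  have h5 : ∑ K ∈ F.Cs U, (((F.Xt U).filter (fun e => F.Kp U e.1 = K)).card : ℝ) =
      ((F.Xt U).card : ℝ) := by
    exact_mod_cast congrArg (fun n : ℕ => (n : ℝ)) (F.sum_exits (U := U))
  have h6 : ((F.Xt U).card : ℝ) ≤ 3 * ((F.N2' U).card : ℝ) := by exact_mod_cast F.card_Xt (U := U)
  have h7 : ((F.N2' U).card : ℝ) ≤ ((F.N2 U).card : ℝ) := by
    exact_mod_cast Finset.card_le_card (Finset.filter_subset _ _)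
  have h8 : ∑ K ∈ Sm, (((F.Xt U).filter (fun e => F.Kp U e.1 = K)).card : ℝ) ≤
      3 * ((F.N2 U).card : ℝ) := by linarith
  nlinarith [mul_le_mul_of_nonneg_left h8 ht.le]

/-- the vertices of `U` outside the big components -/
theorem uncovered_le {t : ℝ} (ht : 0 < t) :
    ((U.filter (fun v => ∀ K ∈ F.Big U t, v ∉ K)).card : ℝ) ≤ (1 + t / 2) * ((F.N2 U).card : ℝ) := by
  have hsub : U.filter (fun v => ∀ K ∈ F.Big U t, v ∉ K) ⊆
      F.N2 U ∪ (F.BB U).filter (fun v => F.Kp U v ∉ F.Big U t) := by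
    intro v hv
    rw [Finset.mem_filter] at hv
    rw [Finset.mem_union]
    by_cases hB : F.B2 U v
    · right
      rw [Finset.mem_filter]
      exact ⟨F.mem_BB.2 hB, fun hc => hv.2 _ hc (F.self_mem_Kp hB)⟩
    · left
      unfold N2
      rw [Finset.mem_filter]
      exact ⟨hv.1, hB⟩
  have h1 := (Finset.card_le_card hsub).trans (Finset.card_union_le _ _)
  have h1' : ((U.filter (fun v => ∀ K ∈ F.Big U t, v ∉ K)).card : ℝ) ≤ ((F.N2 U).card : ℝ) +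
      (((F.BB U).filter (fun v => F.Kp U v ∉ F.Big U t)).card : ℝ) := by exact_mod_cast h1
  have h2 := F.small_le (U := U) ht
  linarith

end Fam
end MP9b2b
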