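import Pool.Agent.Lib.MP_9b2b7a_co.Sharp

set_option autoImplicit false
open scoped Classical

/-! LOCAL MELCHIOR COUNT.  `U` is a set of vertices with at least three lines of the arrangement `F`. -/

namespace MP9b2b
namespace Fam

variable {ι : Type} (F : Fam ι)

theorem mem_T3 (v : ℝ × ℝ) : v ∈ F.T3 ↔ F.IsV v ∧ (F.L v).card = 3 := by
  unfold T3
  rw [Finset.mem_filter, mem_V]

/-- vertices on at least three lines -/
noncomputable def R3 : Finset (ℝ × ℝ) := F.V.filter (fun v => 3 ≤ (F.L v).card)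

theorem mem_R3 (v : ℝ × ℝ) : v ∈ F.R3 ↔ F.IsV v ∧ 3 ≤ (F.L v).card := by
  unfold R3
  rw [Finset.mem_filter, mem_V]

/-- the excess of a set of vertices -/
noncomputable def ex (U : Finset (ℝ × ℝ)) : ℕ := ∑ v ∈ U, ((F.L v).card - 3)

/-- edges (line, left end) from a vertex of `U` to a vertex outside `U` -/
noncomputable def EDr (U : Finset (ℝ × ℝ)) : Finset (ι × (ℝ × ℝ)) :=
  (F.S ×ˢ U).filter (fun e => ∃ q, F.Adj e.1 e.2 q ∧ q ∉ U)

/-- the lines that meet `U` -/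
noncomputable def SU (U : Finset (ℝ × ℝ)) : Finset ι := F.S.filter (fun i => ∃ v ∈ U, F.On i v)

noncomputable def RA3 (U : Finset (ℝ × ℝ)) : Finset ((ℝ × ℝ) × ι × ι) := F.RA.filter (fun t => t.1 ∈ U)
noncomputable def NE3 (U : Finset (ℝ × ℝ)) : Finset ((ℝ × ℝ) × ι × ι) := F.NE.filter (fun t => t.1 ∈ U)
noncomputable def GT3 (U : Finset (ℝ × ℝ)) : Finset ((ℝ × ℝ) × ι × ι) := F.GT.filter (fun t => t.1 ∈ U)
noncomputable def T3B (U : Finset (ℝ × ℝ)) : Finset ((ℝ × ℝ) × Bool) := U ×ˢ (Finset.univ : Finset Bool)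
noncomputable def K1 (U : Finset (ℝ × ℝ)) : Finset ((ℝ × ℝ) × ι × ι) :=
  (F.NE3 U).filter (fun t => ∃ q ∈ T3B U, F.Ch true t q)
noncomputable def K2 (U : Finset (ℝ × ℝ)) : Finset ((ℝ × ℝ) × ι × ι) :=
  (F.NE3 U \ F.GT3 U).filter (fun t => ∃ q ∈ T3B U, F.Ch false t q)

variable {U : Finset (ℝ × ℝ)}

theorem mem_EDr {i : ι} {v q : ℝ × ℝ} (h : F.Adj i v q) (h3 : v ∈ U)
    (hq : q ∉ U) : (i, v) ∈ F.EDr U := by
  unfold EDr
  rw [Finset.mem_filter, Finset.mem_product]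
  exact ⟨⟨h.1, h3⟩, q, h, hq⟩

theorem GT3_sub : F.GT3 U ⊆ F.NE3 U := by
  intro t ht
  unfold GT3 at ht
  unfold NE3
  rw [Finset.mem_filter] at ht ⊢
  exact ⟨F.GT_sub_NE ht.1, ht.2⟩

theorem NE3_sub : F.NE3 U ⊆ F.RA3 U := by
  intro t ht
  unfold NE3 at ht
  unfold RA3
  rw [Finset.mem_filter] at ht ⊢
  exact ⟨F.NE_sub_RA ht.1, ht.2⟩

/-- angles at `U` whose line has no next vertex -/
theorem card_RA3_sdiff : (F.RA3 U \ F.NE3 U).card ≤ 2 * (F.SU U).card := by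
  have h1 : (((F.RA3 U).filter (fun t => ¬ ∃ u, F.Adj t.2.2 t.1 u))).card ≤ (F.SU U).card := by
    apply Finset.card_le_card_of_injOn (fun t => t.2.2)
    · intro t ht
      unfold RA3 at ht
      simp only [Finset.coe_filter, Set.mem_ofPred_eq, Finset.mem_filter, mem_RA] at ht
      unfold SU
      rw [Finset.mem_coe, Finset.mem_filter]
      exact ⟨ht.1.1.2.1, t.1, ht.1.2, ht.1.1.2.2.2.1⟩
    · intro t ht t' ht' he
      unfold RA3 at ht ht'
      simp only [Finset.coe_filter, Set.mem_ofPred_eq, Finset.mem_filter, mem_RA] at ht ht' he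
      obtain ⟨v, k, k'⟩ := t
      obtain ⟨v1, k1, k1'⟩ := t'
      simp only at ht ht' he
      subst he
      obtain ⟨⟨hr, -⟩, hn⟩ := ht
      obtain ⟨⟨hr1, -⟩, hn1⟩ := ht'
      have hv : F.IsV v := F.rang_isV hr
      have hv1 : F.IsV v1 := F.rang_isV hr1
      have hvv : v = v1 := by
        apply F.eq_of_on_fst hr.2.2.2.1 hr1.2.2.2.1
        rcases lt_trichotomy v.1 v1.1 with h | h | h
        · obtain ⟨q, hq, -⟩ := F.exists_next hr.2.1 hr.2.2.2.1 hv hr1.2.2.2.1 hv1 h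
          exact absurd ⟨q, hq⟩ hn
        · exact h
        · obtain ⟨q, hq, -⟩ := F.exists_next hr.2.1 hr1.2.2.2.1 hv1 hr.2.2.2.1 hv h
          exact absurd ⟨q, hq⟩ hn1
      subst hvv
      have := F.rang_pred_unique hr hr1
      rw [this]
  have h2 : (((F.RA3 U).filter (fun t => ¬ ∃ w, F.Adj t.2.1 t.1 w))).card ≤ (F.SU U).card := by
    apply Finset.card_le_card_of_injOn (fun t => t.2.1)
    · intro t ht
      unfold RA3 at ht
      simp only [Finset.coe_filter, Set.mem_ofPred_eq, Finset.mem_filter, mem_RA] at ht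
      unfold SU
      rw [Finset.mem_coe, Finset.mem_filter]
      exact ⟨ht.1.1.1, t.1, ht.1.2, ht.1.1.2.2.1⟩
    · intro t ht t' ht' he
      unfold RA3 at ht ht'
      simp only [Finset.coe_filter, Set.mem_ofPred_eq, Finset.mem_filter, mem_RA] at ht ht' he
      obtain ⟨v, k, k'⟩ := t
      obtain ⟨v1, k1, k1'⟩ := t'
      simp only at ht ht' he
      subst he
      obtain ⟨⟨hr, -⟩, hn⟩ := ht
      obtain ⟨⟨hr1, -⟩, hn1⟩ := ht'
      have hv : F.IsV v := F.rang_isV hr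
      have hv1 : F.IsV v1 := F.rang_isV hr1
      have hvv : v = v1 := by
        apply F.eq_of_on_fst hr.2.2.1 hr1.2.2.1
        rcases lt_trichotomy v.1 v1.1 with h | h | h
        · obtain ⟨q, hq, -⟩ := F.exists_next hr.1 hr.2.2.1 hv hr1.2.2.1 hv1 h
          exact absurd ⟨q, hq⟩ hn
        · exact h
        · obtain ⟨q, hq, -⟩ := F.exists_next hr.1 hr1.2.2.1 hv1 hr.2.2.1 hv h
          exact absurd ⟨q, hq⟩ hn1
      subst hvv
      have := F.rang_succ_unique hr hr1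
      rw [this]
  have hsub : F.RA3 U \ F.NE3 U ⊆ ((F.RA3 U).filter (fun t => ¬ ∃ u, F.Adj t.2.2 t.1 u)) ∪
      ((F.RA3 U).filter (fun t => ¬ ∃ w, F.Adj t.2.1 t.1 w)) := by
    intro t ht
    rw [Finset.mem_sdiff] at ht
    obtain ⟨h0, h1⟩ := ht
    have h0' := h0
    unfold RA3 at h0'
    rw [Finset.mem_filter] at h0'
    unfold NE3 NE at h1
    rw [Finset.mem_filter, Finset.mem_filter] at h1
    rw [Finset.mem_union, Finset.mem_filter, Finset.mem_filter]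
    by_cases h : ∃ u, F.Adj t.2.2 t.1 u
    · right
      exact ⟨h0, fun hw => h1 ⟨⟨h0'.1, h, hw⟩, h0'.2⟩⟩
    · left
      exact ⟨h0, h⟩
  have h3 := Finset.card_le_card hsub
  have h4 := Finset.card_union_le ((F.RA3 U).filter (fun t => ¬ ∃ u, F.Adj t.2.2 t.1 u))
      ((F.RA3 U).filter (fun t => ¬ ∃ w, F.Adj t.2.1 t.1 w))
  omega

theorem card_fiber {v : ℝ × ℝ} (hv : F.IsV v) :
    (F.L v).card - 1 ≤ (F.RA.filter (fun t => t.1 = v)).card := by
  obtain ⟨M, hM⟩ := F.exists_maxAt hv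
  have hML : M ∈ F.L v := by rw [mem_L]; exact ⟨hM.1, hM.2.1⟩
  rw [← Finset.card_erase_of_mem hML]
  have hex : ∀ k ∈ (F.L v).erase M, ∃ k', F.RAng v k k' := by
    intro k hk
    rw [Finset.mem_erase] at hk
    exact F.exists_succ hk.2 (fun h => hk.1 (F.maxAt_unique h hM))
  apply Finset.card_le_card_of_injOn (fun k => if h : ∃ k', F.RAng v k k' then (v, k, h.choose) else (v, k, k))
  · intro k hk
    have h := hex k hk
    simp only [dif_pos h]
    simp only [Finset.coe_filter, Set.mem_ofPred_eq, mem_RA]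
    exact ⟨h.choose_spec, trivial⟩
  · intro k hk k1 hk1 he
    have h := hex k hk
    have h' := hex k1 hk1
    simp only [dif_pos h, dif_pos h'] at he
    exact (Prod.ext_iff.1 (Prod.ext_iff.1 he).2).1

theorem card_RA3 (hU : U ⊆ F.R3) : 2 * U.card + F.ex U ≤ (F.RA3 U).card := by
  have h1 : (F.RA3 U).card = ∑ v ∈ U, ((F.RA3 U).filter (fun t => t.1 = v)).card := by
    apply Finset.card_eq_sum_card_fiberwise
    intro t ht
    have : t ∈ F.RA3 U := ht
    unfold RA3 at this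
    rw [Finset.mem_filter] at this
    exact this.2
  have h0 : 2 * U.card + F.ex U = ∑ v ∈ U, (2 + ((F.L v).card - 3)) := by
    unfold ex
    rw [Finset.sum_add_distrib, Finset.sum_const, smul_eq_mul, mul_comm]
  rw [h1, h0]
  apply Finset.sum_le_sum
  intro v hv
  have hv3 := (F.mem_R3 v).1 (hU hv)
  have h2 := F.card_fiber hv3.1
  have h3 : (F.RA.filter (fun t => t.1 = v)).card ≤ ((F.RA3 U).filter (fun t => t.1 = v)).card := by
    apply Finset.card_le_card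
    intro t ht
    rw [Finset.mem_filter] at ht ⊢
    unfold RA3
    rw [Finset.mem_filter]
    exact ⟨⟨ht.1, by rw [ht.2]; exact hv⟩, ht.2⟩
  have h4 := hv3.2
  omega

theorem card_T3B : (T3B U).card = 2 * U.card := by
  unfold T3B
  rw [Finset.card_product, Finset.card_univ, Fintype.card_bool, mul_comm]

theorem card_K12 : (F.K1 U).card + (F.K2 U).card ≤ 2 * U.card := by
  have h1 : (F.K1 U).card + (F.K2 U).card = ((F.K1 U).disjSum (F.K2 U)).card := by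
    rw [Finset.card_disjSum]
  rw [h1, ← card_T3B]
  apply Finset.card_le_card_of_forall_subsingleton
    (fun (a : ((ℝ × ℝ) × ι × ι) ⊕ ((ℝ × ℝ) × ι × ι)) q =>
      Sum.elim (fun t => F.Ch true t q) (fun t => F.Ch false t q) a)
  · intro a ha
    rcases a with t | t
    · rw [Finset.inl_mem_disjSum] at ha
      unfold K1 at ha
      rw [Finset.mem_filter] at ha
      obtain ⟨-, q, hq, h⟩ := ha
      exact ⟨q, hq, h⟩
    · rw [Finset.inr_mem_disjSum] at ha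
      unfold K2 at ha
      rw [Finset.mem_filter] at ha
      obtain ⟨-, q, hq, h⟩ := ha
      exact ⟨q, hq, h⟩
  · intro q hq a ha a' ha'
    simp only [Set.mem_ofPred_eq] at ha ha'
    have ha := ha.2
    have ha' := ha'.2
    rcases a with t | t <;> rcases a' with t' | t' <;> simp only [Sum.elim_inl, Sum.elim_inr] at ha ha'
    · rw [(F.ch_unique ha ha').2]
    · exact absurd (F.ch_unique ha ha').1 (by decide)
    · exact absurd (F.ch_unique ha ha').1 (by decide)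
    · rw [(F.ch_unique ha ha').2]

theorem mem_T3B {v : ℝ × ℝ} {b : Bool} (h : v ∈ U) : (v, b) ∈ T3B U := by
  unfold T3B
  rw [Finset.mem_product]
  exact ⟨h, Finset.mem_univ _⟩

/-- a boundary edge used by the face `t` at its leftmost vertex -/
def R1 (t : (ℝ × ℝ) × ι × ι) (e : ι × (ℝ × ℝ)) : Prop :=
  e.2 = t.1 ∧ ∃ q, F.Adj e.1 e.2 q ∧ ((e.1 = t.2.2 ∧ F.MaxAt e.1 q) ∨ (e.1 = t.2.1 ∧ F.MinAt e.1 q))

/-- a boundary edge used by the face `t` at its second vertex -/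
def R2 (t : (ℝ × ℝ) × ι × ι) (e : ι × (ℝ × ℝ)) : Prop :=
  ∃ q, F.Adj e.1 e.2 q ∧
    ((F.MinAt e.1 e.2 ∧ F.MaxAt t.2.2 e.2 ∧ F.Adj t.2.2 t.1 e.2 ∧ F.MaxAt e.1 q) ∨
      (F.MaxAt e.1 e.2 ∧ F.MinAt t.2.1 e.2 ∧ F.Adj t.2.1 t.1 e.2 ∧ F.MinAt e.1 q))

theorem R11 {t t' : (ℝ × ℝ) × ι × ι} {e : ι × (ℝ × ℝ)} (hr : F.RAng t.1 t.2.1 t.2.2)
    (hr' : F.RAng t'.1 t'.2.1 t'.2.2) (h : F.R1 t e) (h' : F.R1 t' e) : t = t' := by
  obtain ⟨v, k, k'⟩ := t
  obtain ⟨v', l, l'⟩ := t'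
  obtain ⟨i, p⟩ := e
  obtain ⟨e1, q, hq, h⟩ := h
  obtain ⟨e1', q', hq', h'⟩ := h'
  simp only at e1 e1' hq hq' h h' hr hr'
  have eq := F.adj_next_unique hq hq'
  subst eq
  subst e1
  subst e1'
  rcases h with ⟨a, b⟩ | ⟨a, b⟩ <;> rcases h' with ⟨a', b'⟩ | ⟨a', b'⟩
  · subst a
    subst a'
    rw [F.rang_pred_unique hr hr']
  · exact (F.minmax_ne hq.2.2.2.2.1 b' b).elim
  · exact (F.minmax_ne hq.2.2.2.2.1 b b').elim
  · subst a
    subst a'
    rw [F.rang_succ_unique hr hr']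

theorem R22 {t t' : (ℝ × ℝ) × ι × ι} {e : ι × (ℝ × ℝ)} (hr : F.RAng t.1 t.2.1 t.2.2)
    (hr' : F.RAng t'.1 t'.2.1 t'.2.2) (h : F.R2 t e) (h' : F.R2 t' e) : t = t' := by
  obtain ⟨v, k, k'⟩ := t
  obtain ⟨v', l, l'⟩ := t'
  obtain ⟨i, p⟩ := e
  obtain ⟨q, hq, h⟩ := h
  obtain ⟨q', hq', h'⟩ := h'
  simp only at hq hq' h h' hr hr'
  have hV := hq.2.2.2.1
  rcases h with ⟨x1, x2, x3, -⟩ | ⟨x1, x2, x3, -⟩ <;> rcases h' with ⟨y1, y2, y3, -⟩ | ⟨y1, y2, y3, -⟩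
  · have e1 := F.maxAt_unique x2 y2
    subst e1
    have e2 := F.adj_prev_unique x3 y3
    subst e2
    rw [F.rang_pred_unique hr hr']
  · exact (F.minmax_ne hV x1 y1).elim
  · exact (F.minmax_ne hV y1 x1).elim
  · have e1 := F.minAt_unique x2 y2
    subst e1
    have e2 := F.adj_prev_unique x3 y3
    subst e2
    rw [F.rang_succ_unique hr hr']

theorem R12 {t t' : (ℝ × ℝ) × ι × ι} {e : ι × (ℝ × ℝ)} (hr : F.RAng t.1 t.2.1 t.2.2)
    (h : F.R1 t e) (h' : F.R2 t' e) : False := by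
  obtain ⟨v, k, k'⟩ := t
  obtain ⟨v', l, l'⟩ := t'
  obtain ⟨i, p⟩ := e
  obtain ⟨e1, q, hq, h⟩ := h
  obtain ⟨q', hq', h'⟩ := h'
  simp only at e1 hq hq' h h' hr
  have eq := F.adj_next_unique hq hq'
  subst eq
  subst e1
  rcases h with ⟨a, b⟩ | ⟨a, b⟩ <;> rcases h' with ⟨x1, -, -, x4⟩ | ⟨x1, -, -, x4⟩
  · subst a
    have h1 := x1.2.2 _ hr.1 hr.2.2.1
    have h2 := hr.2.2.2.2.1
    linarith
  · exact F.minmax_ne hq.2.2.2.2.1 x4 b
  · exact F.minmax_ne hq.2.2.2.2.1 b x4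
  · subst a
    have h1 := x1.2.2 _ hr.2.1 hr.2.2.2.1
    have h2 := hr.2.2.2.2.1
    linarith

noncomputable def L2 (U : Finset (ℝ × ℝ)) : Finset ((ℝ × ℝ) × ι × ι) :=
  (F.NE3 U \ F.GT3 U) \ F.K2 U

noncomputable def Y2 (U : Finset (ℝ × ℝ)) : Finset ((ℝ × ℝ) × ι × ι) :=
  (F.L2 U).filter (fun t => ∃ e ∈ F.EDr U, F.R2 t e)

theorem rang_NE3 {t : (ℝ × ℝ) × ι × ι} (h : t ∈ F.NE3 U) : F.RAng t.1 t.2.1 t.2.2 := by
  have := F.NE3_sub h
  unfold RA3 at this
  rw [Finset.mem_filter, mem_RA] at this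
  exact this.1

/-- the faces whose first charge leaves `U` -/
theorem loss_a {t : (ℝ × ℝ) × ι × ι} (ht : t ∈ F.NE3 U \ F.K1 U) : ∃ e ∈ F.EDr U, F.R1 t e := by
  obtain ⟨v, k, k'⟩ := t
  rw [Finset.mem_sdiff] at ht
  obtain ⟨hN, hA⟩ := ht
  have hA' : ¬ ∃ q ∈ T3B U, F.Ch true (v, k, k') q := by
    intro hc
    apply hA
    unfold K1
    rw [Finset.mem_filter]
    exact ⟨hN, hc⟩
  unfold NE3 NE at hN
  rw [Finset.mem_filter, Finset.mem_filter, mem_RA] at hN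
  obtain ⟨⟨hr, ⟨u, hu⟩, w, hw⟩, h3⟩ := hN
  simp only at hr hu hw h3
  have hr' := (F.rang_my v k k').2 hr
  have hu' := (F.adj_my k' v u).2 hu
  have hw' := (F.adj_my k v w).2 hw
  rcases F.ch_true hr hu hw with ⟨h0, h⟩ | ⟨h0, h⟩
  · exact ⟨(k', v), F.mem_EDr hu h3 (fun hc => hA' ⟨_, mem_T3B hc, h⟩), rfl, u, hu,
      Or.inl ⟨rfl, F.A1 hr hu hw h0⟩⟩
  · refine ⟨(k, v), F.mem_EDr hw h3 (fun hc => hA' ⟨_, mem_T3B hc, h⟩), rfl, w, hw,
      Or.inr ⟨rfl, ?_⟩⟩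
    exact (F.maxAt_my k w).1 (F.my.A1 hr' hw' hu' h0.le)

/-- the faces whose second charge leaves `U` -/
theorem loss_b {t : (ℝ × ℝ) × ι × ι} (ht : t ∈ F.L2 U) :
    (∃ e ∈ F.EDr U, F.R2 t e) ∨
      ((∃ d q, F.Nx d t.1 q ∧ q ∉ U) ∧ ∃ e ∈ F.EDr U, F.R1 t e) := by
  obtain ⟨v, k, k'⟩ := t
  unfold L2 at ht
  rw [Finset.mem_sdiff] at ht
  obtain ⟨hN, hA⟩ := ht
  have hA' : ∀ q ∈ T3B U, ¬ F.Ch false (v, k, k') q := by
    intro q hq hc
    apply hA
    unfold K2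
    rw [Finset.mem_filter]
    exact ⟨hN, q, hq, hc⟩
  rw [Finset.mem_sdiff] at hN
  obtain ⟨hN, hG⟩ := hN
  unfold NE3 NE at hN
  rw [Finset.mem_filter, Finset.mem_filter, mem_RA] at hN
  obtain ⟨⟨hr, ⟨u, hu⟩, w, hw⟩, h3⟩ := hN
  simp only at hr hu hw h3
  have hn : ¬ F.Com u w := by
    intro hc
    apply hG
    unfold GT3
    rw [Finset.mem_filter]
    exact ⟨F.mem_GT_of hr hu hw hc, h3⟩
  have hr' := (F.rang_my v k k').2 hr
  have hu' := (F.adj_my k' v u).2 hu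
  have hw' := (F.adj_my k v w).2 hw
  rcases le_or_gt u.1 w.1 with h | h
  · rcases F.ch_false_aux ⟨hr, hu, hw, h⟩ hn with ⟨p, hp, M, h1, h2, h3', h4⟩ | h1
    · have hch : F.Ch false (v, k, k') (p, false) :=
        Or.inl ⟨rfl, hr, Or.inr (Or.inr ⟨rfl, u, M, h1, h2, h3', hu, h4⟩)⟩
      have hp3 : p ∉ U := fun hc => hA' _ (mem_T3B hc) hch
      by_cases hu3 : u ∈ U
      · left
        exact ⟨(M, u), F.mem_EDr h1 hu3 hp3, p, h1, Or.inl ⟨h3', h4, hu, h2⟩⟩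
      · right
        exact ⟨⟨(k', true), u, Or.inl ⟨rfl, hu⟩, hu3⟩, (k', v), F.mem_EDr hu h3 hu3, rfl, u, hu,
          Or.inl ⟨rfl, h4⟩⟩
    · have hch : F.Ch false (v, k, k') (w, true) := by
        refine Or.inr ⟨rfl, hr', Or.inr (Or.inl ⟨rfl, hw', ?_, ty u, hu', ?_⟩)⟩
        · exact (F.maxAt_my k w).2 h1
        · exact not_lt.2 h
      have hw3 : w ∉ U := fun hc => hA' _ (mem_T3B hc) hch
      right
      exact ⟨⟨(k, true), w, Or.inl ⟨rfl, hw⟩, hw3⟩, (k, v), F.mem_EDr hw h3 hw3, rfl, w, hw,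
        Or.inr ⟨rfl, h1⟩⟩
  · have hn' : ¬ F.my.Com (ty w) (ty u) := by
      rw [com_my]
      exact fun h => hn (F.com_symm h)
    rcases F.my.ch_false_aux ⟨hr', hw', hu', h.le⟩ hn' with ⟨p, hp, M, h1, h2, h3', h4⟩ | h1
    · have hpV : F.IsV (ty p) := by rw [← isV_my, ty_ty]; exact hp
      have hadj : F.Adj M w (ty p) := by
        rw [← adj_my, ty_ty]; exact h1
      have hch : F.Ch false (v, k, k') (ty p, true) := by
        refine Or.inr ⟨rfl, hr', Or.inr (Or.inr ⟨rfl, ty w, M, ?_, ?_, h3', hw', h4⟩)⟩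
        · rw [ty_ty]; exact h1
        · rw [ty_ty]; exact h2
      have hp3 : ty p ∉ U := fun hc => hA' _ (mem_T3B hc) hch
      have hMp : F.MinAt M (ty p) := by
        rw [← maxAt_my, ty_ty]; exact h2
      by_cases hw3 : w ∈ U
      · left
        exact ⟨(M, w), F.mem_EDr hadj hw3 hp3, ty p, hadj,
          Or.inr ⟨(F.minAt_my M w).1 h3', (F.maxAt_my k w).1 h4, hw, hMp⟩⟩
      · right
        exact ⟨⟨(k, true), w, Or.inl ⟨rfl, hw⟩, hw3⟩, (k, v), F.mem_EDr hw h3 hw3, rfl, w, hw,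
          Or.inr ⟨rfl, (F.maxAt_my k w).1 h4⟩⟩
    · have hch : F.Ch false (v, k, k') (u, false) := by
        refine Or.inl ⟨rfl, hr, Or.inr (Or.inl ⟨rfl, hu, ?_, w, hw, ?_⟩)⟩
        · exact (F.minAt_my k' u).1 h1
        · exact not_le.2 h
      have hu3 : u ∉ U := fun hc => hA' _ (mem_T3B hc) hch
      right
      exact ⟨⟨(k', true), u, Or.inl ⟨rfl, hu⟩, hu3⟩, (k', v), F.mem_EDr hu h3 hu3, rfl, u, hu,
        Or.inl ⟨rfl, (F.minAt_my k' u).1 h1⟩⟩

theorem card_a : (F.NE3 U \ F.K1 U).card + (F.Y2 U).card ≤ (F.EDr U).card := by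
  rw [← Finset.card_disjSum]
  apply Finset.card_le_card_of_forall_subsingleton
    (fun (a : ((ℝ × ℝ) × ι × ι) ⊕ ((ℝ × ℝ) × ι × ι)) e =>
      Sum.elim (fun t => t ∈ F.NE3 U ∧ F.R1 t e) (fun t => t ∈ F.NE3 U ∧ F.R2 t e) a)
  · intro a ha
    rcases a with t | t
    · rw [Finset.inl_mem_disjSum] at ha
      obtain ⟨e, he, h⟩ := F.loss_a ha
      exact ⟨e, he, (Finset.mem_sdiff.1 ha).1, h⟩
    · rw [Finset.inr_mem_disjSum] at ha
      unfold Y2 at ha
      rw [Finset.mem_filter] at ha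
      obtain ⟨ha, e, he, h⟩ := ha
      unfold L2 at ha
      exact ⟨e, he, (Finset.mem_sdiff.1 (Finset.mem_sdiff.1 ha).1).1, h⟩
  · intro e _ a ha a' ha'
    simp only [Set.mem_ofPred_eq] at ha ha'
    have ha := ha.2
    have ha' := ha'.2
    rcases a with t | t <;> rcases a' with t' | t' <;> simp only [Sum.elim_inl, Sum.elim_inr] at ha ha'
    · rw [F.R11 (F.rang_NE3 ha.1) (F.rang_NE3 ha'.1) ha.2 ha'.2]
    · exact (F.R12 (F.rang_NE3 ha.1) ha.2 ha'.2).elim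
    · exact (F.R12 (F.rang_NE3 ha'.1) ha'.2 ha.2).elim
    · rw [F.R22 (F.rang_NE3 ha.1) (F.rang_NE3 ha'.1) ha.2 ha'.2]

theorem card_b : (F.GT3 U \ F.K1 U).card + (F.L2 U \ F.Y2 U).card ≤ (F.EDr U).card := by
  have hdisj : Disjoint (F.GT3 U \ F.K1 U) (F.L2 U \ F.Y2 U) := by
    rw [Finset.disjoint_left]
    intro t ht ht'
    rw [Finset.mem_sdiff] at ht ht'
    have h1 := ht'.1
    unfold L2 at h1
    exact (Finset.mem_sdiff.1 (Finset.mem_sdiff.1 h1).1).2 ht.1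
  rw [← Finset.card_union_of_disjoint hdisj]
  apply Finset.card_le_card_of_forall_subsingleton
    (fun t e => t ∈ F.NE3 U ∧ F.R1 t e)
  · intro t ht
    rw [Finset.mem_union] at ht
    rcases ht with ht | ht
    · rw [Finset.mem_sdiff] at ht
      have hN := F.GT3_sub ht.1
      obtain ⟨e, he, h⟩ := F.loss_a (Finset.mem_sdiff.2 ⟨hN, ht.2⟩)
      exact ⟨e, he, hN, h⟩
    · rw [Finset.mem_sdiff] at ht
      obtain ⟨h1, h2⟩ := ht
      have hN : t ∈ F.NE3 U := by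
        have h1' := h1
        unfold L2 at h1'
        exact (Finset.mem_sdiff.1 (Finset.mem_sdiff.1 h1').1).1
      rcases F.loss_b h1 with h | ⟨-, e, he, h⟩
      · exact absurd (by unfold Y2; rw [Finset.mem_filter]; exact ⟨h1, h⟩) h2
      · exact ⟨e, he, hN, h⟩
  · intro e _ t ht t' ht'
    simp only [Set.mem_ofPred_eq] at ht ht'
    exact F.R11 (F.rang_NE3 ht.2.1) (F.rang_NE3 ht'.2.1) ht.2.2 ht'.2.2

/-- vertices of `U` all of whose neighbours are in `U` -/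
noncomputable def Ne (U : Finset (ℝ × ℝ)) : Finset (ℝ × ℝ) :=
  U.filter (fun c => ∀ d q, F.Nx d c q → q ∈ U)

theorem LB1 (hU : U ⊆ F.R3) : ((F.RA3 U \ F.GT3 U).filter (fun t => t.1 ∈ F.Ne U)).card + F.ex U ≤
    4 * (F.SU U).card + (F.EDr U).card := by
  have h0 := F.card_RA3 hU
  have h1 := F.card_RA3_sdiff (U := U)
  have h2 := F.card_K12 (U := U)
  have h3 := F.card_a (U := U)
  have e1 : (F.RA3 U \ F.NE3 U).card + (F.NE3 U).card = (F.RA3 U).card :=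
    Finset.card_sdiff_add_card_eq_card F.NE3_sub
  have e4 : (F.NE3 U \ F.K1 U).card + (F.K1 U).card = (F.NE3 U).card :=
    Finset.card_sdiff_add_card_eq_card (Finset.filter_subset _ _)
  have hsub : (F.RA3 U \ F.GT3 U).filter (fun t => t.1 ∈ F.Ne U) ⊆
      ((F.RA3 U \ F.NE3 U) ∪ F.K2 U) ∪ F.Y2 U := by
    intro t ht
    rw [Finset.mem_filter, Finset.mem_sdiff] at ht
    obtain ⟨⟨hR, hG⟩, hn⟩ := ht
    rw [Finset.mem_union, Finset.mem_union, Finset.mem_sdiff]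
    by_cases hN : t ∈ F.NE3 U
    · by_cases hK : t ∈ F.K2 U
      · exact Or.inl (Or.inr hK)
      · right
        have hL : t ∈ F.L2 U := by
          unfold L2
          rw [Finset.mem_sdiff, Finset.mem_sdiff]
          exact ⟨⟨hN, hG⟩, hK⟩
        unfold Y2
        rw [Finset.mem_filter]
        refine ⟨hL, ?_⟩
        rcases F.loss_b hL with h | ⟨⟨d, q, hd, hq⟩, -⟩
        · exact h
        · unfold Ne at hn
          rw [Finset.mem_filter] at hn
          exact absurd (hn.2 d q hd) hq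
    · exact Or.inl (Or.inl ⟨hR, hN⟩)
  have h4 := Finset.card_le_card hsub
  have h5 := Finset.card_union_le ((F.RA3 U \ F.NE3 U) ∪ F.K2 U) (F.Y2 U)
  have h6 := Finset.card_union_le (F.RA3 U \ F.NE3 U) (F.K2 U)
  omega

theorem LB2 (hU : U ⊆ F.R3) : (T3B U \ F.PG).card + 2 * F.ex U ≤
    4 * (F.SU U).card + 2 * (F.EDr U).card := by
  have h0 := F.card_RA3 hU
  have h1 := F.card_RA3_sdiff (U := U)
  have h12 := F.card_K12 (U := U)
  have ha := F.card_a (U := U)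
  have hb := F.card_b (U := U)
  have e1 : (F.RA3 U \ F.NE3 U).card + (F.NE3 U).card = (F.RA3 U).card :=
    Finset.card_sdiff_add_card_eq_card F.NE3_sub
  have e2 : (F.NE3 U \ F.GT3 U).card + (F.GT3 U).card = (F.NE3 U).card :=
    Finset.card_sdiff_add_card_eq_card F.GT3_sub
  have e4 : (F.NE3 U \ F.K1 U).card + (F.K1 U).card = (F.NE3 U).card :=
    Finset.card_sdiff_add_card_eq_card (Finset.filter_subset _ _)
  have e5 : (F.L2 U).card + (F.K2 U).card = (F.NE3 U \ F.GT3 U).card := by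
    unfold L2
    exact Finset.card_sdiff_add_card_eq_card (Finset.filter_subset _ _)
  have e6 : (F.L2 U \ F.Y2 U).card + (F.Y2 U).card = (F.L2 U).card :=
    Finset.card_sdiff_add_card_eq_card (Finset.filter_subset _ _)
  have h2 := card_T3B (U := U)
  have h4 : (F.K1 U ∩ F.GT3 U).card ≤ (T3B U ∩ F.PG).card := by
    apply Finset.card_le_card_of_forall_subsingleton (fun t q => F.Ch true t q)
    · intro t ht
      rw [Finset.mem_inter] at ht
      obtain ⟨hA, hG⟩ := ht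
      unfold K1 at hA
      rw [Finset.mem_filter] at hA
      obtain ⟨-, q, hq, hc⟩ := hA
      refine ⟨q, ?_, hc⟩
      rw [Finset.mem_inter]
      refine ⟨hq, ?_⟩
      unfold PG
      rw [Finset.mem_filter]
      unfold GT3 at hG
      rw [Finset.mem_filter] at hG
      refine ⟨?_, t, hG.1, hc⟩
      unfold T3B at hq
      rw [Finset.mem_product] at hq
      rw [Finset.mem_product, mem_V]
      exact ⟨((F.mem_R3 _).1 (hU hq.1)).1, hq.2⟩
    · intro q hq t ht t' ht'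
      simp only [Set.mem_ofPred_eq] at ht ht'
      exact (F.ch_unique ht.2 ht'.2).2
  have h5 : (F.GT3 U \ F.K1 U).card + (F.K1 U ∩ F.GT3 U).card = (F.GT3 U).card := by
    rw [Finset.inter_comm, add_comm]
    exact Finset.card_inter_add_card_sdiff _ _
  have h6 : (T3B U \ F.PG).card + (T3B U ∩ F.PG).card = (T3B U).card := by
    rw [add_comm]
    exact Finset.card_inter_add_card_sdiff _ _
  omega

end Fam
end MP9b2b
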