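import Pool.Agent.Lib.MP_9b2b7a_co.SW.Loc

set_option autoImplicit false
open scoped Classical

namespace MP9b2b
namespace Fam

variable {ι : Type} (F : Fam ι) {U : Finset (ℝ × ℝ)}

theorem tx_inj {a b : ℝ × ℝ} (h : tx a = tx b) : a = b := by
  rw [← tx_tx a, ← tx_tx b, h]

theorem mem_img (U : Finset (ℝ × ℝ)) (c : ℝ × ℝ) : tx c ∈ U.image tx ↔ c ∈ U := by
  rw [Finset.mem_image]
  constructor
  · rintro ⟨a, ha, he⟩
    rw [← tx_inj he]; exact ha
  · exact fun h => ⟨c, h, rfl⟩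

theorem img_img (U : Finset (ℝ × ℝ)) : (U.image tx).image tx = U := by
  ext c
  have h1 := mem_img (U.image tx) (tx c)
  rw [tx_tx] at h1
  rw [h1, mem_img]

theorem card_img (U : Finset (ℝ × ℝ)) : (U.image tx).card = U.card := by
  rw [Finset.card_image_of_injective]
  exact fun a b h => tx_inj h

theorem img_R3 (hU : U ⊆ F.R3) : U.image tx ⊆ F.mx.R3 := by
  intro c hc
  rw [← tx_tx c, mem_img] at hc
  have := (F.mem_R3 _).1 (hU hc)
  rw [mem_R3, ← tx_tx c, isV_mx, L_mx]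
  exact this

theorem ex_mx : F.mx.ex (U.image tx) = F.ex U := by
  unfold ex
  rw [Finset.sum_image (fun a _ b _ h => tx_inj h)]
  apply Finset.sum_congr rfl
  intro v _
  rw [L_mx]

theorem SU_mx : F.mx.SU (U.image tx) = F.SU U := by
  ext i
  unfold SU
  rw [Finset.mem_filter, Finset.mem_filter]
  constructor
  · rintro ⟨h1, v, h2, h3⟩
    refine ⟨h1, tx v, ?_, ?_⟩
    · rw [← mem_img, tx_tx]; exact h2
    · rw [← on_mx, tx_tx]; exact h3
  · rintro ⟨h1, v, h2, h3⟩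
    exact ⟨h1, tx v, (mem_img U v).2 h2, (F.on_mx i v).2 h3⟩

theorem mem_Ne (c : ℝ × ℝ) : c ∈ F.Ne U ↔ c ∈ U ∧ ∀ d q, F.Nx d c q → q ∈ U := by
  unfold Ne
  rw [Finset.mem_filter]

theorem Ne_mx (c : ℝ × ℝ) : tx c ∈ F.mx.Ne (U.image tx) ↔ c ∈ F.Ne U := by
  rw [mem_Ne, mem_Ne, mem_img]
  constructor
  · rintro ⟨h1, h2⟩
    refine ⟨h1, fun d q hn => ?_⟩
    have := h2 (op d) (tx q) (F.nx_mx.2 hn)
    rwa [mem_img] at this
  · rintro ⟨h1, h2⟩
    refine ⟨h1, fun d q hn => ?_⟩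
    rw [← tx_tx q, mem_img]
    apply h2 (op d) (tx q)
    rw [← F.nx_mx, op_op, tx_tx]
    exact hn

noncomputable def Bad3 (U : Finset (ℝ × ℝ)) : Finset ((ℝ × ℝ) × (ι × Bool) × (ι × Bool)) :=
  F.Bad.filter (fun t => t.1 ∈ F.Ne U)

/-- MELCHIOR at the interior vertices of `U` only -/
theorem card_Bad3 (hU : U ⊆ F.R3) : (F.Bad3 U).card + 4 * F.ex U ≤
    12 * (F.SU U).card + 3 * (F.EDr U).card + (F.mx.EDr (U.image tx)).card := by
  have hsub : F.Bad3 U ⊆ ((F.Bad3 U).filter (fun t => t.2.1.2 = true ∧ t.2.2.2 = true)) ∪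
      ((F.Bad3 U).filter (fun t => t.2.1.2 = false ∧ t.2.2.2 = false)) ∪
      ((F.Bad3 U).filter (fun t => t.2.2.2 = !t.2.1.2)) := by
    intro t ht
    rw [Finset.mem_union, Finset.mem_union, Finset.mem_filter, Finset.mem_filter, Finset.mem_filter]
    rcases h1 : t.2.1.2 <;> rcases h2 : t.2.2.2 <;> simp [ht]
  have c1 : ((F.Bad3 U).filter (fun t => t.2.1.2 = true ∧ t.2.2.2 = true)).card ≤
      ((F.RA3 U \ F.GT3 U).filter (fun t => t.1 ∈ F.Ne U)).card := by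
    apply Finset.card_le_card_of_injOn (fun t => (t.1, t.2.1.1, t.2.2.1))
    · rintro ⟨p, ⟨k, b⟩, k', b'⟩ ht
      rw [Finset.mem_coe, Finset.mem_filter] at ht
      obtain ⟨hB, h1, h2⟩ := ht
      unfold Bad3 at hB
      rw [Finset.mem_filter] at hB
      obtain ⟨hB, h3⟩ := hB
      simp only at h1 h2 h3
      subst h1 h2
      obtain ⟨hV, hs, hT⟩ := F.mem_Bad hB
      simp only at hV hs hT
      have hr : F.RAng p k k' := by
        rcases hs with ⟨-, h⟩ | ⟨h, -⟩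
        · exact h
        · exact absurd h (by simp)
      rw [Finset.mem_coe, Finset.mem_filter, Finset.mem_sdiff]
      unfold RA3 GT3
      rw [Finset.mem_filter, mem_RA, Finset.mem_filter]
      refine ⟨⟨⟨hr, ((F.mem_Ne p).1 h3).1⟩, fun hG => hT ⟨hs, ?_⟩⟩, h3⟩
      have hG := hG.1
      unfold GT at hG
      rw [Finset.mem_filter] at hG
      obtain ⟨-, u, w, hu, hw, hc⟩ := hG
      exact ⟨w, u, Or.inl ⟨rfl, hw⟩, Or.inl ⟨rfl, hu⟩, F.com_symm hc⟩
    · rintro ⟨p, ⟨k, b⟩, k', b'⟩ ht ⟨p1, ⟨k1, b1⟩, k1', b1'⟩ ht1 he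
      rw [Finset.mem_coe, Finset.mem_filter] at ht ht1
      simp only [Prod.mk.injEq] at he ht ht1 ⊢
      exact ⟨he.1, ⟨he.2.1, by rw [ht.2.1, ht1.2.1]⟩, he.2.2, by rw [ht.2.2, ht1.2.2]⟩
  have c2 : ((F.Bad3 U).filter (fun t => t.2.1.2 = false ∧ t.2.2.2 = false)).card ≤
      ((F.mx.RA3 (U.image tx) \ F.mx.GT3 (U.image tx)).filter
        (fun t => t.1 ∈ F.mx.Ne (U.image tx))).card := by
    apply Finset.card_le_card_of_injOn (fun t => (tx t.1, t.2.2.1, t.2.1.1))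
    · rintro ⟨p, ⟨k, b⟩, k', b'⟩ ht
      rw [Finset.mem_coe, Finset.mem_filter] at ht
      obtain ⟨hB, h1, h2⟩ := ht
      unfold Bad3 at hB
      rw [Finset.mem_filter] at hB
      obtain ⟨hB, h3⟩ := hB
      simp only at h1 h2 h3
      subst h1 h2
      obtain ⟨hV, hs, hT⟩ := F.mem_Bad hB
      simp only at hV hs hT
      have hr : F.RAng p k k' := by
        rcases hs with ⟨-, h⟩ | ⟨h, -⟩
        · exact h
        · exact absurd h (by simp)
      rw [Finset.mem_coe, Finset.mem_filter, Finset.mem_sdiff]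
      unfold RA3 GT3
      rw [Finset.mem_filter, mem_RA, Finset.mem_filter]
      refine ⟨⟨⟨(F.rang_mx p k k').2 hr, (mem_img U p).2 ((F.mem_Ne p).1 h3).1⟩,
        fun hG => hT ⟨hs, ?_⟩⟩, (F.Ne_mx p).2 h3⟩
      have hG := hG.1
      unfold GT at hG
      rw [Finset.mem_filter] at hG
      obtain ⟨-, u, w, hu, hw, hc⟩ := hG
      simp only at hu hw
      refine ⟨tx u, tx w, Or.inr ⟨rfl, ?_⟩, Or.inr ⟨rfl, ?_⟩, ?_⟩
      · show F.Adj k (tx u) p
        rw [← adj_mx, tx_tx]; exact hu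
      · show F.Adj k' (tx w) p
        rw [← adj_mx, tx_tx]; exact hw
      · rw [← com_mx, tx_tx, tx_tx]; exact hc
    · rintro ⟨p, ⟨k, b⟩, k', b'⟩ ht ⟨p1, ⟨k1, b1⟩, k1', b1'⟩ ht1 he
      rw [Finset.mem_coe, Finset.mem_filter] at ht ht1
      simp only [Prod.mk.injEq] at he ht ht1 ⊢
      refine ⟨tx_inj he.1, ⟨he.2.2, by rw [ht.2.1, ht1.2.1]⟩, he.2.1, by rw [ht.2.2, ht1.2.2]⟩
  have c3 : ((F.Bad3 U).filter (fun t => t.2.2.2 = !t.2.1.2)).card ≤ (T3B U \ F.PG).card := by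
    apply Finset.card_le_card_of_injOn (fun t => (t.1, t.2.1.2))
    · rintro ⟨p, ⟨k, b⟩, k', b'⟩ ht
      rw [Finset.mem_coe, Finset.mem_filter] at ht
      obtain ⟨hB, h1⟩ := ht
      unfold Bad3 at hB
      rw [Finset.mem_filter] at hB
      obtain ⟨hB, h3⟩ := hB
      simp only at h1 h3
      subst h1
      obtain ⟨hV, hs, hT⟩ := F.mem_Bad hB
      simp only at hV hs hT
      obtain ⟨hM, hm⟩ : F.MaxAt k p ∧ F.MinAt k' p := by
        rcases hs with ⟨h, -⟩ | ⟨-, h⟩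
        · simp at h
        · exact h
      rw [Finset.mem_coe, Finset.mem_sdiff]
      refine ⟨mem_T3B ((F.mem_Ne p).1 h3).1, fun hP => hT ⟨hs, ?_⟩⟩
      simp only at hP
      cases b
      · obtain ⟨s3, r1, e34, a1, a2, a3, a4⟩ := F.lower hP hm hM
        exact ⟨s3, r1, Or.inr ⟨rfl, a1⟩, Or.inl ⟨rfl, a2⟩, e34, (F.cs_on1 a3).1, (F.cs_on1 a3).2,
          (F.cs_on2 a4).2⟩
      · obtain ⟨s1, r3, e61, a1, a2, a3, a4⟩ := F.upper hP hm hM
        exact ⟨r3, s1, Or.inl ⟨rfl, a2⟩, Or.inr ⟨rfl, a1⟩, e61, (F.cs_on2 a3).1, (F.cs_on1 a4).2,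
          (F.cs_on2 a3).2⟩
    · rintro ⟨p, ⟨k, b⟩, k', b'⟩ ht ⟨p1, ⟨k1, b1⟩, k1', b1'⟩ ht1 he
      rw [Finset.mem_coe, Finset.mem_filter] at ht ht1
      simp only [Prod.mk.injEq] at he
      obtain ⟨rfl, rfl⟩ := he
      obtain ⟨hB, h1⟩ := ht
      obtain ⟨hB1, h1'⟩ := ht1
      unfold Bad3 at hB hB1
      rw [Finset.mem_filter] at hB hB1
      obtain ⟨hB, h3⟩ := hB
      obtain ⟨hB1, -⟩ := hB1
      simp only at h1 h1'
      subst h1 h1'
      obtain ⟨hV, hs, hT⟩ := F.mem_Bad hB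
      obtain ⟨hV1, hs1, hT1⟩ := F.mem_Bad hB1
      simp only at hs hs1
      obtain ⟨hM, hm⟩ : F.MaxAt k p ∧ F.MinAt k' p := by
        rcases hs with ⟨h, -⟩ | ⟨-, h⟩
        · simp at h
        · exact h
      obtain ⟨hM1, hm1⟩ : F.MaxAt k1 p ∧ F.MinAt k1' p := by
        rcases hs1 with ⟨h, -⟩ | ⟨-, h⟩
        · simp at h
        · exact h
      rw [F.maxAt_unique hM hM1, F.minAt_unique hm hm1]
  have h1 := Finset.card_le_card hsub
  have h2 := Finset.card_union_le (((F.Bad3 U).filter (fun t => t.2.1.2 = true ∧ t.2.2.2 = true)) ∪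
      ((F.Bad3 U).filter (fun t => t.2.1.2 = false ∧ t.2.2.2 = false)))
      ((F.Bad3 U).filter (fun t => t.2.2.2 = !t.2.1.2))
  have h3 := Finset.card_union_le ((F.Bad3 U).filter (fun t => t.2.1.2 = true ∧ t.2.2.2 = true))
      ((F.Bad3 U).filter (fun t => t.2.1.2 = false ∧ t.2.2.2 = false))
  have d1 := F.LB1 hU
  have d2 := F.mx.LB1 (F.img_R3 hU)
  have d3 := F.LB2 hU
  rw [SU_mx, ex_mx] at d2
  omega

theorem notAG_le (hU : U ⊆ F.R3) : ((F.Ne U).filter (fun c => ¬ F.AG c)).card ≤ (F.Bad3 U).card := by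
  apply Finset.card_le_card_of_forall_subsingleton (fun c t => t.1 = c)
  · intro c hc
    rw [Finset.mem_filter] at hc
    obtain ⟨hcU, hA⟩ := hc
    have hV := ((F.mem_R3 c).1 (hU ((F.mem_Ne c).1 hcU).1)).1
    have h := F.badN_ag hV hA
    unfold badN at h
    rw [Nat.succ_le_iff, Finset.card_pos] at h
    obtain ⟨t, ht⟩ := h
    rw [Finset.mem_filter] at ht
    refine ⟨t, ?_, ht.2⟩
    unfold Bad3
    rw [Finset.mem_filter, ht.2]
    exact ⟨ht.1, hcU⟩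
  · intro t _ c hc c' hc'
    simp only [Set.mem_ofPred_eq] at hc hc'
    rw [← hc.2, ← hc'.2]

theorem four_le : (U.filter (fun c => 4 ≤ (F.L c).card)).card ≤ F.ex U := by
  unfold ex
  rw [Finset.card_filter]
  apply Finset.sum_le_sum
  intro v _
  split_ifs with h <;> omega

theorem exit_le : (U.filter (fun c => ∃ d q, F.Nx d c q ∧ q ∉ U)).card ≤
    (F.EDr U).card + (F.mx.EDr (U.image tx)).card := by
  rw [← Finset.card_disjSum]
  apply Finset.card_le_card_of_forall_subsingleton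
    (fun (c : ℝ × ℝ) (a : (ι × (ℝ × ℝ)) ⊕ (ι × (ℝ × ℝ))) =>
      Sum.elim (fun e => e.2 = c) (fun e => e.2 = tx c) a)
  · intro c hc
    rw [Finset.mem_filter] at hc
    obtain ⟨hcU, d, p, hn, hpU⟩ := hc
    rcases hn with ⟨-, hn⟩ | ⟨-, hn⟩
    · exact ⟨Sum.inl (d.1, c), Finset.inl_mem_disjSum.2 (F.mem_EDr hn hcU hpU), rfl⟩
    · refine ⟨Sum.inr (d.1, tx c), Finset.inr_mem_disjSum.2 (F.mx.mem_EDr ((F.adj_mx d.1 p c).2 hn)
        ((mem_img U c).2 hcU) (fun h => hpU ((mem_img U p).1 h))), rfl⟩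
  · intro a _ c hc c' hc'
    simp only [Set.mem_ofPred_eq] at hc hc'
    rcases a with e | e
    · simp only [Sum.elim_inl] at hc hc'
      rw [← hc.2, ← hc'.2]
    · simp only [Sum.elim_inr] at hc hc'
      exact tx_inj (by rw [← hc.2, ← hc'.2])

theorem U_le_loc (hU : U ⊆ F.R3) (hno : ¬ ∃ g : Fin 3 → Fin 3 → ι, F.Grid g) :
    U.card ≤ 12 * (F.SU U).card + 4 * (F.EDr U).card + 2 * (F.mx.EDr (U.image tx)).card := by
  have h1 := F.card_Bad3 hU
  have h2 := F.notAG_le hU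
  have h3 := F.exit_le (U := U)
  have h4 := F.four_le (U := U)
  have hsub : U ⊆ (((F.Ne U).filter (fun c => ¬ F.AG c)) ∪ (U.filter (fun c => 4 ≤ (F.L c).card))) ∪
      (U.filter (fun c => ∃ d q, F.Nx d c q ∧ q ∉ U)) := by
    intro c hc
    have hc3 := (F.mem_R3 c).1 (hU hc)
    rw [Finset.mem_union, Finset.mem_union, Finset.mem_filter, Finset.mem_filter, Finset.mem_filter,
      mem_Ne]
    by_cases hex : ∃ d q, F.Nx d c q ∧ q ∉ U
    · exact Or.inr ⟨hc, hex⟩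
    · push Not at hex
      by_cases hA : F.AG c
      · by_cases h4 : 4 ≤ (F.L c).card
        · exact Or.inl (Or.inr ⟨hc, h4⟩)
        · exfalso
          apply hno
          apply F.ag_hex (by omega : (F.L c).card = 3) hA
          intro d p hn
          exact ((F.mem_R3 p).1 (hU (hex d p hn))).2
      · exact Or.inl (Or.inl ⟨⟨hc, hex⟩, hA⟩)
  have h5 := Finset.card_le_card hsub
  have h6 := Finset.card_union_le (((F.Ne U).filter (fun c => ¬ F.AG c)) ∪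
      (U.filter (fun c => 4 ≤ (F.L c).card))) (U.filter (fun c => ∃ d q, F.Nx d c q ∧ q ∉ U))
  have h7 := Finset.card_union_le ((F.Ne U).filter (fun c => ¬ F.AG c))
      (U.filter (fun c => 4 ≤ (F.L c).card))
  omega

theorem mx_mx : F.mx.mx = F := by
  cases F
  simp [mx]

theorem grid_mx {g : Fin 3 → Fin 3 → ι} (h : F.mx.Grid g) : F.Grid g := by
  obtain ⟨h1, h2, row, col, h3, h4, h5⟩ := h
  refine ⟨h1, h2, fun i => tx (row i), fun i => tx (col i), fun i j => ?_, fun i j => ?_, fun i j he => ?_⟩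
  · rw [← on_mx, tx_tx]; exact h3 i j
  · rw [← on_mx, tx_tx]; exact h4 i j
  · exact h5 i j (tx_inj he)

/-- the symmetric form: the isoperimetric inequality -/
theorem U_le_sym (hU : U ⊆ F.R3) (hno : ¬ ∃ g : Fin 3 → Fin 3 → ι, F.Grid g) :
    U.card ≤ 12 * (F.SU U).card + 3 * ((F.EDr U).card + (F.mx.EDr (U.image tx)).card) := by
  have h1 := F.U_le_loc hU hno
  have h2 := F.mx.U_le_loc (F.img_R3 hU) (fun ⟨g, hg⟩ => hno ⟨g, F.grid_mx hg⟩)
  rw [mx_mx, img_img, SU_mx, card_img] at h2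
  omega

end Fam
end MP9b2b
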