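import Pool.Agent.Lib.MP_9b2b7a_co.SW.Main

set_option autoImplicit false
open scoped Classical

/-! The local Melchior inequality for an arbitrary set of vertices, double points included. -/

namespace MP9b2b
namespace Fam

variable {ι : Type} (F : Fam ι) {U : Finset (ℝ × ℝ)}

theorem mel_right (hU : U ⊆ F.V) :
    ∑ v ∈ U, ((F.L v).card - 1) ≤ 2 * (F.SU U).card + (F.EDr U).card + 2 * U.card := by
  have h1 : (F.RA3 U).card = ∑ v ∈ U, ((F.RA3 U).filter (fun t => t.1 = v)).card := by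
    apply Finset.card_eq_sum_card_fiberwise
    intro t ht
    have : t ∈ F.RA3 U := ht
    unfold RA3 at this
    rw [Finset.mem_filter] at this
    exact this.2
  have h2 : ∑ v ∈ U, ((F.L v).card - 1) ≤ (F.RA3 U).card := by
    rw [h1]
    apply Finset.sum_le_sum
    intro v hv
    refine (F.card_fiber ((F.mem_V v).1 (hU hv))).trans ?_
    apply Finset.card_le_card
    intro t ht
    rw [Finset.mem_filter] at ht ⊢
    unfold RA3
    rw [Finset.mem_filter]
    exact ⟨⟨ht.1, by rw [ht.2]; exact hv⟩, ht.2⟩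
  have h3 := F.card_RA3_sdiff (U := U)
  have h4 := F.card_K12 (U := U)
  have h5 := F.card_a (U := U)
  have e1 : (F.RA3 U \ F.NE3 U).card + (F.NE3 U).card = (F.RA3 U).card :=
    Finset.card_sdiff_add_card_eq_card F.NE3_sub
  have e4 : (F.NE3 U \ F.K1 U).card + (F.K1 U).card = (F.NE3 U).card :=
    Finset.card_sdiff_add_card_eq_card (Finset.filter_subset _ _)
  omega

theorem img_V (hU : U ⊆ F.V) : U.image tx ⊆ F.mx.V := by
  intro c hc
  rw [← tx_tx c, mem_img] at hc
  have := (F.mem_V _).1 (hU hc)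
  rw [mem_V, ← tx_tx c, isV_mx]
  exact this

theorem mel_sym (hU : U ⊆ F.V) :
    2 * ∑ v ∈ U, ((F.L v).card - 1) ≤ 4 * (F.SU U).card +
      ((F.EDr U).card + (F.mx.EDr (U.image tx)).card) + 4 * U.card := by
  have h1 := F.mel_right hU
  have h2 := F.mx.mel_right (F.img_V hU)
  rw [SU_mx, card_img, Finset.sum_image (fun a _ b _ h => tx_inj h)] at h2
  have h3 : ∑ v ∈ U, ((F.mx.L (tx v)).card - 1) = ∑ v ∈ U, ((F.L v).card - 1) := by
    apply Finset.sum_congr rfl
    intro v _
    rw [L_mx]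
  rw [h3] at h2
  omega

end Fam

/-- LOCAL MELCHIOR INEQUALITY -/
theorem melchior (A : Finset (ℝ × ℝ)) (W : Finset (Finset (ℝ × ℝ))) (hW : W ⊆ LinesOf A) :
    2 * ∑ w ∈ W, ((w.card : ℤ) - 3) ≤ 4 * ((W.biUnion id).card : ℤ) +
      ((sw A (fun u => u ∈ W)).card : ℤ) := by
  obtain ⟨ε, h⟩ := exists_eps A
  have hs : UV A ε h W ⊆ (dual A ε h).V := by
    unfold UV
    exact Finset.filter_subset _ _
  have h1 := (dual A ε h).mel_sym hs
  have h5 := Finset.card_le_card (SU_UV (ε := ε) (h := h) (U := W))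
  have h8 := edges_le (ε := ε) (h := h) (U := W)
  have hinj : ∀ v ∈ UV A ε h W, ∀ w ∈ UV A ε h W, (dual A ε h).L v = (dual A ε h).L w → v = w := by
    intro v hv w hw he
    exact (dual A ε h).eq_of_L (((dual A ε h).mem_V v).1 (hs hv)) he
  have himg : (UV A ε h W).image (fun v => (dual A ε h).L v) = W := by
    ext u
    rw [Finset.mem_image]
    constructor
    · rintro ⟨v, hv, rfl⟩
      unfold UV at hv
      exact (Finset.mem_filter.1 hv).2
    · intro hu
      obtain ⟨x, hx, y, hy, hxy, he⟩ := (mem_LinesOf A u).1 (hW hu)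
      obtain ⟨v, hV, h1, h2⟩ := exists_vertex (ε := ε) (h := h) hx hy hxy
      have e := lineOf_dual h1 h2 hxy
      rw [← he] at e
      refine ⟨v, ?_, e.symm⟩
      unfold UV
      rw [Finset.mem_filter, Fam.mem_V, ← e]
      exact ⟨hV, hu⟩
  have hsum : ∑ w ∈ W, ((w.card : ℤ) - 3) = ∑ v ∈ UV A ε h W, ((((dual A ε h).L v).card : ℤ) - 3) := by
    conv_lhs => rw [← himg]
    rw [Finset.sum_image hinj]
  have hcast : ∑ v ∈ UV A ε h W, ((((dual A ε h).L v).card : ℤ) - 3) =
      ((∑ v ∈ UV A ε h W, (((dual A ε h).L v).card - 1) : ℕ) : ℤ) - 2 * ((UV A ε h W).card : ℤ) := by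
    have e1 : ∑ v ∈ UV A ε h W, ((((dual A ε h).L v).card : ℤ) - 3) =
        ∑ v ∈ UV A ε h W, (((((dual A ε h).L v).card - 1 : ℕ) : ℤ) - 2) := by
      apply Finset.sum_congr rfl
      intro v hv
      have := (dual A ε h).two_le_L (((dual A ε h).mem_V v).1 (hs hv))
      omega
    rw [e1, Finset.sum_sub_distrib, Finset.sum_const, nsmul_eq_mul]
    push_cast
    ring
  rw [hsum, hcast]
  omega

end MP9b2b
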