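import Pool.Agent.Lib.MP_9b2b7a_co.SW.Struct

set_option autoImplicit false
open scoped Classical

/-! Linearly many switches: boundedly many cubics contain almost all rich pairs. -/

namespace MP9b2b

theorem mass_le (A : Finset (ℝ × ℝ)) (K : ℝ) (hK : 0 ≤ K)
    (hS : ((sw A (fun u => 3 ≤ u.card)).card : ℝ) ≤ K * (A.card : ℝ)) :
    154 * (((rich A).biUnion id).card : ℝ) + 46 * ((sw A (fun u => u ∈ rich A)).card : ℝ) ≤
      (154 + 46 * K) * (A.card : ℝ) ∧
    ((∑ u ∈ rich A, (u.card - 3) : ℕ) : ℝ) ≤ (154 + 46 * K) * (A.card : ℝ) := by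
  have h2 : (((rich A).biUnion id).card : ℝ) ≤ A.card := by exact_mod_cast rich_union A
  have h3 : ((sw A (fun u => u ∈ rich A)).card : ℝ) ≤ ((sw A (fun u => 3 ≤ u.card)).card : ℝ) := by
    exact_mod_cast Finset.card_le_card (sw_rich A)
  have h4 : 2 * ((∑ u ∈ rich A, (u.card - 3) : ℕ) : ℝ) ≤ 4 * (((rich A).biUnion id).card : ℝ) +
      ((sw A (fun u => u ∈ rich A)).card : ℝ) := by
    exact_mod_cast excess_le A (rich A) (rich_sub A) (rich3 A)
  have hn : (0 : ℝ) ≤ A.card := by positivity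
  have hKn : 0 ≤ K * (A.card : ℝ) := mul_nonneg hK hn
  constructor
  · linarith
  · linarith

theorem pairs (K ε : ℝ) (hK : 0 ≤ K) (hε : 0 < ε) : ∃ C : ℕ, ∀ A : Finset (ℝ × ℝ),
    ((sw A (fun u => 3 ≤ u.card)).card : ℝ) ≤ K * (A.card : ℝ) →
    ∃ D : Finset (Finset (ℝ × ℝ)), D.card ≤ C ∧ (∀ B ∈ D, B ⊆ A ∧ OnC B) ∧
      ((freePairs A D).card : ℝ) ≤ ε * (A.card : ℝ) ^ 2 := by
  obtain ⟨κ, hκ⟩ : ∃ κ, κ = 154 + 46 * K := ⟨_, rfl⟩
  have hκ0 : 0 < κ := by rw [hκ]; positivity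
  refine ⟨⌈36 * κ / ε⌉₊ ^ 2 + ⌈86 * κ ^ 2 / ε⌉₊, fun A hS => ?_⟩
  obtain ⟨hM, hX⟩ := mass_le A K hK hS
  rw [← hκ] at hM hX
  by_cases hn : (A.card : ℝ) ≤ 36 * κ / ε
  · refine ⟨LinesOf A, ?_, ?_, ?_⟩
    · have h1 : (LinesOf A).card ≤ A.card ^ 2 := by
        unfold LinesOf
        refine Finset.card_image_le.trans ((Finset.card_filter_le _ _).trans ?_)
        rw [Finset.card_product, pow_two]
      have h2 : A.card ≤ ⌈36 * κ / ε⌉₊ := by
        have := hn.trans (Nat.le_ceil _)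
        exact_mod_cast this
      have h3 := Nat.pow_le_pow_left h2 2
      omega
    · intro B hB
      refine ⟨?_, onC_line hB⟩
      obtain ⟨x, -, y, -, -, rfl⟩ := (mem_LinesOf A B).1 hB
      exact Finset.filter_subset _ _
    · have : freePairs A (LinesOf A) = ∅ := by
        unfold freePairs
        rw [Finset.filter_eq_empty_iff]
        rintro ⟨a, b⟩ ht ⟨h1, -, h3⟩
        rw [Finset.mem_product] at ht
        exact h3 _ ((mem_LinesOf A _).2 ⟨a, ht.1, b, ht.2, h1, rfl⟩) (Finset.Subset.refl _)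
      rw [this]
      simp only [Finset.card_empty, Nat.cast_zero]
      positivity
  · push Not at hn
    have hn0 : (0 : ℝ) < A.card := lt_of_le_of_lt (by positivity) hn
    have hn1 : 36 * κ < ε * (A.card : ℝ) := by
      rw [div_lt_iff₀ hε] at hn
      linarith
    obtain ⟨n, hnn⟩ : ∃ n : ℝ, n = (A.card : ℝ) := ⟨_, rfl⟩
    rw [← hnn] at hM hX hn0 hn1 ⊢
    obtain ⟨t, htt⟩ : ∃ t, t = ε * n / (18 * κ) := ⟨_, rfl⟩
    have ht : 0 < t := by rw [htt]; positivity
    have htk : t * κ = ε * n / 18 := by rw [htt]; field_simp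
    obtain ⟨D1, hD1, hc1, hu1⟩ := struct A (rich A) (rich_sub A) (rich3 A) t ht
    obtain ⟨θ, hθ⟩ : ∃ θ, θ = ε * n / (8 * κ) := ⟨_, rfl⟩
    have hθ0 : 0 < θ := by rw [hθ]; positivity
    have hθk : θ * κ = ε * n / 8 := by rw [hθ]; field_simp
    obtain ⟨D2, hD2⟩ : ∃ D2, D2 = (rich A).filter (fun u => 4 ≤ u.card ∧ θ ≤ (u.card : ℝ)) := ⟨_, rfl⟩
    refine ⟨D1 ∪ D2, ?_, ?_, ?_⟩
    · -- the number of cubics
      have k1 : (D1.card : ℝ) ≤ 54 * κ ^ 2 / ε := by
        have e1 : (D1.card : ℝ) * t ≤ 3 * (κ * n) := by linarith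
        have e2 : (D1.card : ℝ) * (ε * n / 18) ≤ 3 * (κ * n) * κ := by
          rw [← htk, ← mul_assoc]
          exact mul_le_mul_of_nonneg_right e1 hκ0.le
        rw [le_div_iff₀ hε]
        have e3 : ((D1.card : ℝ) * ε) * n ≤ (54 * κ ^ 2) * n := by nlinarith
        exact le_of_mul_le_mul_right e3 hn0
      have k2 : (D2.card : ℝ) ≤ 32 * κ ^ 2 / ε := by
        have e1 : (D2.card : ℝ) * θ ≤ 4 * (κ * n) := by
          have e2 : (D2.card : ℝ) * θ ≤ ∑ u ∈ D2, (u.card : ℝ) := by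
            rw [← nsmul_eq_mul]
            apply Finset.card_nsmul_le_sum
            intro u hu
            rw [hD2, Finset.mem_filter] at hu
            exact hu.2.2
          have e3 : ∑ u ∈ D2, u.card ≤ 4 * ∑ u ∈ rich A, (u.card - 3) := by
            rw [Finset.mul_sum]
            refine (Finset.sum_le_sum (f := fun u : Finset (ℝ × ℝ) => u.card)
              (g := fun u => 4 * (u.card - 3)) (fun u hu => ?_)).trans
              (Finset.sum_le_sum_of_subset (by rw [hD2]; exact Finset.filter_subset _ _))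
            rw [hD2, Finset.mem_filter] at hu
            have := hu.2.1
            show u.card ≤ 4 * (u.card - 3)
            omega
          have e3' : ∑ u ∈ D2, (u.card : ℝ) ≤ 4 * ((∑ u ∈ rich A, (u.card - 3) : ℕ) : ℝ) := by
            exact_mod_cast e3
          linarith
        have e2 : (D2.card : ℝ) * (ε * n / 8) ≤ 4 * (κ * n) * κ := by
          rw [← hθk, ← mul_assoc]
          exact mul_le_mul_of_nonneg_right e1 hκ0.le
        rw [le_div_iff₀ hε]
        have e3 : ((D2.card : ℝ) * ε) * n ≤ (32 * κ ^ 2) * n := by nlinarith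
        exact le_of_mul_le_mul_right e3 hn0
      have k3 : ((D1 ∪ D2).card : ℝ) ≤ (D1.card : ℝ) + (D2.card : ℝ) := by
        exact_mod_cast Finset.card_union_le D1 D2
      have k4 : ((D1 ∪ D2).card : ℝ) ≤ (⌈86 * κ ^ 2 / ε⌉₊ : ℝ) := by
        refine le_trans ?_ (Nat.le_ceil _)
        have : 86 * κ ^ 2 / ε = 54 * κ ^ 2 / ε + 32 * κ ^ 2 / ε := by ring
        rw [this]
        linarith
      have k5 : (D1 ∪ D2).card ≤ ⌈86 * κ ^ 2 / ε⌉₊ := by exact_mod_cast k4
      exact k5.trans (Nat.le_add_left _ _)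
    · intro B hB
      rw [Finset.mem_union] at hB
      rcases hB with hB | hB
      · exact hD1 B hB
      · rw [hD2, Finset.mem_filter] at hB
        have hL := rich_sub A hB.1
        refine ⟨?_, onC_line hL⟩
        obtain ⟨x, -, y, -, -, rfl⟩ := (mem_LinesOf A B).1 hL
        exact Finset.filter_subset _ _
    · -- the uncovered pairs
      have k1 : ((freePairs A (D1 ∪ D2)).card : ℝ) ≤
          ∑ u ∈ (rich A).filter (fun u => ∀ B ∈ D1 ∪ D2, ¬ u ⊆ B), (u.card : ℝ) ^ 2 := by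
        exact_mod_cast freePairs_le A (D1 ∪ D2)
      have k2 : ∑ u ∈ (rich A).filter (fun u => ∀ B ∈ D1 ∪ D2, ¬ u ⊆ B), (u.card : ℝ) ^ 2 ≤
          ∑ u ∈ (rich A).filter (fun u => ∀ B ∈ D1 ∪ D2, ¬ u ⊆ B),
            (9 + 4 * θ * ((u.card - 3 : ℕ) : ℝ)) := by
        apply Finset.sum_le_sum
        intro u hu
        rw [Finset.mem_filter] at hu
        have hu3 := rich3 A u hu.1
        by_cases h4 : 4 ≤ u.card
        · have h5 : (u.card : ℝ) < θ := by
            by_contra hc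
            push Not at hc
            apply hu.2 u ?_ (Finset.Subset.refl _)
            rw [Finset.mem_union, hD2, Finset.mem_filter]
            exact Or.inr ⟨hu.1, h4, hc⟩
          have h6 : (u.card : ℝ) ≤ 4 * ((u.card - 3 : ℕ) : ℝ) := by
            have : u.card ≤ 4 * (u.card - 3) := by omega
            exact_mod_cast this
          have h7 : (0 : ℝ) ≤ (u.card : ℝ) := by positivity
          nlinarith
        · have h5 : (u.card : ℝ) = 3 := by
            have : u.card = 3 := by omega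
            rw [this]; norm_num
          have h6 : (0 : ℝ) ≤ ((u.card - 3 : ℕ) : ℝ) := by positivity
          rw [h5]
          nlinarith [mul_nonneg hθ0.le h6]
      have k3 : ∑ u ∈ (rich A).filter (fun u => ∀ B ∈ D1 ∪ D2, ¬ u ⊆ B),
            (9 + 4 * θ * ((u.card - 3 : ℕ) : ℝ)) ≤
          9 * (((rich A).filter (fun u => ∀ B ∈ D1, ¬ u ⊆ B)).card : ℝ) +
            4 * θ * ((∑ u ∈ rich A, (u.card - 3) : ℕ) : ℝ) := by
        rw [Finset.sum_add_distrib, ← Finset.mul_sum, Finset.sum_const, nsmul_eq_mul]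
        have e1 : ((rich A).filter (fun u => ∀ B ∈ D1 ∪ D2, ¬ u ⊆ B)).card ≤
            ((rich A).filter (fun u => ∀ B ∈ D1, ¬ u ⊆ B)).card := by
          apply Finset.card_le_card
          intro u hu
          rw [Finset.mem_filter] at hu ⊢
          exact ⟨hu.1, fun B hB => hu.2 B (Finset.mem_union_left _ hB)⟩
        have e1' : (((rich A).filter (fun u => ∀ B ∈ D1 ∪ D2, ¬ u ⊆ B)).card : ℝ) ≤
            (((rich A).filter (fun u => ∀ B ∈ D1, ¬ u ⊆ B)).card : ℝ) := by exact_mod_cast e1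
        have e2 : ∑ u ∈ (rich A).filter (fun u => ∀ B ∈ D1 ∪ D2, ¬ u ⊆ B), (u.card - 3) ≤
            ∑ u ∈ rich A, (u.card - 3) := Finset.sum_le_sum_of_subset (Finset.filter_subset _ _)
        have e2' : ∑ u ∈ (rich A).filter (fun u => ∀ B ∈ D1 ∪ D2, ¬ u ⊆ B), ((u.card - 3 : ℕ) : ℝ) ≤
            ((∑ u ∈ rich A, (u.card - 3) : ℕ) : ℝ) := by exact_mod_cast e2
        have e3 := mul_le_mul_of_nonneg_left e2' (by positivity : (0 : ℝ) ≤ 4 * θ)
        linarith
      have k4 : (((rich A).filter (fun u => ∀ B ∈ D1, ¬ u ⊆ B)).card : ℝ) ≤ (1 + t / 2) * (κ * n) :=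
        hu1.trans (mul_le_mul_of_nonneg_left hM (by positivity))
      have k5 : 4 * θ * ((∑ u ∈ rich A, (u.card - 3) : ℕ) : ℝ) ≤ ε * n ^ 2 / 2 := by
        have e1 := mul_le_mul_of_nonneg_left hX (by positivity : (0 : ℝ) ≤ 4 * θ)
        have e2 : 4 * θ * (κ * n) = ε * n ^ 2 / 2 := by
          have : 4 * θ * (κ * n) = 4 * (θ * κ) * n := by ring
          rw [this, hθk]; ring
        linarith
      have k6 : 9 * ((1 + t / 2) * (κ * n)) = 9 * κ * n + ε * n ^ 2 / 4 := by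
        have : 9 * ((1 + t / 2) * (κ * n)) = 9 * κ * n + 9 / 2 * (t * κ) * n := by ring
        rw [this, htk]; ring
      have k7 : 9 * κ * n ≤ ε * n ^ 2 / 4 := by nlinarith
      linarith

/-- the stronger question for sets with linearly many switches -/
theorem strong2 (K δ : ℝ) (hK : 0 ≤ K) (hδ : 0 < δ) : ∃ c : ℝ, 0 < c ∧ ∀ A : Finset (ℝ × ℝ),
    δ * (A.card : ℝ) ^ 2 ≤ (richPairs A : ℝ) →
    ((sw A (fun u => 3 ≤ u.card)).card : ℝ) ≤ K * (A.card : ℝ) →
      ∃ B : Finset (ℝ × ℝ), B ⊆ A ∧ OnC B ∧ c * (A.card : ℝ) ≤ (B.card : ℝ) := by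
  obtain ⟨C, hC⟩ := pairs K (δ / 2) hK (by positivity)
  obtain ⟨c, hc⟩ : ∃ c, c = Real.sqrt (δ / (2 * ((C : ℝ) + 1))) := ⟨_, rfl⟩
  have hpos : 0 < δ / (2 * ((C : ℝ) + 1)) := by positivity
  have hc0 : 0 < c := by rw [hc]; exact Real.sqrt_pos.2 hpos
  have hc2 : c ^ 2 * (2 * ((C : ℝ) + 1)) = δ := by
    rw [hc, Real.sq_sqrt hpos.le]; field_simp
  refine ⟨c, hc0, fun A hp hS => ?_⟩
  obtain ⟨D, hDC, hD, hf⟩ := hC A hS
  by_contra hcon
  push Not at hcon
  have hn0 : (0 : ℝ) < A.card := by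
    have h1 := hcon ∅ (Finset.empty_subset _) ⟨1, one_ne_zero, by simp, by simp⟩
    simp only [Finset.card_empty, Nat.cast_zero] at h1
    exact (mul_pos_iff_of_pos_left hc0).1 h1
  have h1 : richPairs A ≤ (freePairs A D).card + ∑ B ∈ D, B.card ^ 2 := by
    have hsub : (A ×ˢ A).filter (fun t => t.1 ≠ t.2 ∧ 3 ≤ (lineOf A t.1 t.2).card) ⊆
        (freePairs A D) ∪ D.biUnion (fun B => B ×ˢ B) := by
      rintro ⟨a, b⟩ ht
      rw [Finset.mem_filter, Finset.mem_product] at ht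
      obtain ⟨⟨ha, hb⟩, hab, h3⟩ := ht
      simp only at ha hb hab h3
      rw [Finset.mem_union]
      by_cases hex : ∃ B ∈ D, lineOf A a b ⊆ B
      · right
        obtain ⟨B, hB, hs⟩ := hex
        rw [Finset.mem_biUnion]
        have hm := mem_lineOf_self ha hb
        exact ⟨B, hB, by rw [Finset.mem_product]; exact ⟨hs hm.1, hs hm.2⟩⟩
      · left
        push Not at hex
        unfold freePairs
        rw [Finset.mem_filter, Finset.mem_product]
        exact ⟨⟨ha, hb⟩, hab, h3, hex⟩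
    unfold richPairs
    refine (Finset.card_le_card hsub).trans ((Finset.card_union_le _ _).trans ?_)
    refine Nat.add_le_add_left (Finset.card_biUnion_le.trans (le_of_eq ?_)) _
    apply Finset.sum_congr rfl
    intro B _
    rw [Finset.card_product, pow_two]
  have h1' : (richPairs A : ℝ) ≤ ((freePairs A D).card : ℝ) + ∑ B ∈ D, (B.card : ℝ) ^ 2 := by
    exact_mod_cast h1
  have h2 : ∑ B ∈ D, (B.card : ℝ) ^ 2 ≤ (C : ℝ) * (c * (A.card : ℝ)) ^ 2 := by
    calc ∑ B ∈ D, (B.card : ℝ) ^ 2 ≤ ∑ B ∈ D, (c * (A.card : ℝ)) ^ 2 := by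
          apply Finset.sum_le_sum
          intro B hB
          have := hcon B (hD B hB).1 (hD B hB).2
          have h0 : (0 : ℝ) ≤ (B.card : ℝ) := by positivity
          exact pow_le_pow_left₀ h0 this.le 2
      _ = (D.card : ℝ) * (c * (A.card : ℝ)) ^ 2 := by rw [Finset.sum_const, nsmul_eq_mul]
      _ ≤ (C : ℝ) * (c * (A.card : ℝ)) ^ 2 := by
          apply mul_le_mul_of_nonneg_right _ (by positivity)
          exact_mod_cast hDC
  have h3 : δ / 2 * (A.card : ℝ) ^ 2 ≤ (C : ℝ) * (c * (A.card : ℝ)) ^ 2 := by linarith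
  have h4 : (C : ℝ) * (c * (A.card : ℝ)) ^ 2 = (C : ℝ) * c ^ 2 * (A.card : ℝ) ^ 2 := by ring
  have h5 : (0 : ℝ) < (A.card : ℝ) ^ 2 := by positivity
  have h6 : (0 : ℝ) < c ^ 2 * (A.card : ℝ) ^ 2 := by positivity
  rw [h4] at h3
  nlinarith

end MP9b2b
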