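import Pool.Agent.Lib.MP_9b2b7a_co.SW.Loc2

set_option autoImplicit false
open scoped Classical

/-! The ring of six neighbours of a good vertex and the propagation of a cubic. -/

namespace MP9b2b
namespace Fam

variable {ι : Type} (F : Fam ι)

/-- a grid whose rows are exactly triple -/
def G3 (g : Fin 3 → Fin 3 → ι) : Prop :=
  ∃ row col : Fin 3 → ℝ × ℝ, (∀ i j, g i j ∈ F.L (row i)) ∧ (∀ i j, g i j ∈ F.L (col j)) ∧
    (∀ i, (F.L (row i)).card = 3) ∧ (∀ i j i' j', g i j = g i' j' → i = i' ∧ j = j') ∧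
    ∀ i j, row i ≠ col j

/-- the Chasles property of a set of lines -/
def CBP (Z : ι → Prop) : Prop :=
  ∀ g : Fin 3 → Fin 3 → ι, F.G3 g → (∀ i j, ¬ (i = 2 ∧ j = 2) → Z (g i j)) → Z (g 2 2)

/-- `Z` holds on all lines through the neighbours of `v` -/
def GZ (Z : ι → Prop) (v : ℝ × ℝ) : Prop := ∀ d q, F.Nx d v q → ∀ i ∈ F.L q, Z i

/-- a triple vertex with six triangles and six triple neighbours -/
def Good1 (c : ℝ × ℝ) : Prop := (F.L c).card = 3 ∧ F.AG c ∧ ∀ d q, F.Nx d c q → (F.L q).card = 3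

theorem dist3 {p : ℝ × ℝ} (hp : (F.L p).card = 3) {a b c : ι × Bool} (h1 : F.Su p a b)
    (h2 : F.Su p b c) : a.1 ≠ b.1 ∧ b.1 ≠ c.1 ∧ a.1 ≠ c.1 ∧ a.1 ∈ F.L p ∧ b.1 ∈ F.L p ∧ c.1 ∈ F.L p := by
  have d1 := F.su_data h1
  have d2 := F.su_data h2
  exact ⟨F.cs_ne2 (F.su_cs h1) (by omega), F.cs_ne2 (F.su_cs h2) (by omega),
    F.cs_ne (F.su_cs h1) (F.su_cs h2) (by omega), d1.1, d1.2, d2.2⟩

theorem cover3 {s : Finset ι} (h : s.card = 3) {a b c : ι} (ha : a ∈ s) (hb : b ∈ s) (hc : c ∈ s)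
    (hab : a ≠ b) (hbc : b ≠ c) (hac : a ≠ c) {x : ι} (hx : x ∈ s) : x = a ∨ x = b ∨ x = c := by
  have h3 : ({a, b, c} : Finset ι).card = 3 := by
    rw [Finset.card_insert_of_notMem, Finset.card_pair hbc]
    simp [hab, hac]
  have hsub : ({a, b, c} : Finset ι) ⊆ s := by
    intro y hy
    simp only [Finset.mem_insert, Finset.mem_singleton] at hy
    rcases hy with rfl | rfl | rfl <;> assumption
  have he := Finset.eq_of_subset_of_card_le hsub (by omega)
  rw [← he] at hx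
  simpa using hx

theorem ring6 {c : ℝ × ℝ} (h : F.Good1 c) {x1 x2 : ι × Bool} (s12 : F.Su c x1 x2) :
    ∃ (w1 w2 w3 w4 w5 w6 : ℝ × ℝ) (g : Fin 3 → Fin 3 → ι),
      F.Nx x1 c w1 ∧ F.Nx x2 c w2 ∧ (∃ e, F.Nx e w1 w2) ∧ (∃ e, F.Nx e w2 w3) ∧ (∃ e, F.Nx e w6 w1) ∧
      F.G3 g ∧ (∀ j, g 0 j ∈ F.L w1) ∧ (∀ j, g 1 j ∈ F.L w3) ∧ (∀ i, g i 0 ∈ F.L w2) ∧
      (∀ i, g i 1 ∈ F.L w6) ∧ (∀ i, g i 2 ∈ F.L w4) ∧ (∀ j, g 2 j ∈ F.L w5) ∧
      ∀ d q, F.Nx d c q → ∀ i ∈ F.L q, ∃ a b, i = g a b := by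
  obtain ⟨hc, hA, hN⟩ := h
  have hV : F.IsV c := F.card_L_isV (by omega)
  obtain ⟨x3, s23⟩ := F.exists_su hV (F.su_data s12).2
  have s34 : F.Su c x3 (op x1) := F.su3_close hc s12 s23
  have s45 : F.Su c (op x1) (op x2) := F.su_op.2 s12
  have s56 : F.Su c (op x2) (op x3) := F.su_op.2 s23
  have s61 : F.Su c (op x3) x1 := by
    have := F.su_op.2 s34
    rwa [op_op] at this
  obtain ⟨-, w1, w2, n1, n2, c12⟩ := hA _ _ s12
  obtain ⟨-, w2', w3, m2, n3, c23⟩ := hA _ _ s23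
  obtain ⟨-, w3', w4, m3, n4, c34⟩ := hA _ _ s34
  obtain ⟨-, w4', w5, m4, n5, c45⟩ := hA _ _ s45
  obtain ⟨-, w5', w6, m5, n6, c56⟩ := hA _ _ s56
  obtain ⟨-, w6', w1', m6, m1, c61⟩ := hA _ _ s61
  have i2 := F.nx_unique m2 n2
  have i3 := F.nx_unique m3 n3
  have i4 := F.nx_unique m4 n4
  have i5 := F.nx_unique m5 n5
  have i6 := F.nx_unique m6 n6
  have i1 := F.nx_unique m1 n1
  subst i1 i2 i3 i4 i5 i6
  obtain ⟨e1, f1, g1, k1⟩ := F.triD s12 m1 m2 c12
  obtain ⟨e2, f2, g2, k2⟩ := F.triD s23 m2 m3 c23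
  obtain ⟨e3, f3, g3, k3⟩ := F.triD s34 m3 m4 c34
  obtain ⟨e4, f4, g4, k4⟩ := F.triD s45 m4 m5 c45
  obtain ⟨e5, f5, g5, k5⟩ := F.triD s56 m5 m6 c56
  obtain ⟨e6, f6, g6, k6⟩ := F.triD s61 m6 m1 c61
  rw [op_op] at k3 g4 k4 g5 k5 g6
  have t1 := hN _ _ m1
  have t2 := hN _ _ m2
  have t3 := hN _ _ m3
  have t4 := hN _ _ m4
  have t5 := hN _ _ m5
  have t6 := hN _ _ m6
  obtain ⟨a11, a12, a13, b11, b12, b13⟩ := F.dist3 t1 g1 k6
  obtain ⟨a21, a22, a23, b21, b22, b23⟩ := F.dist3 t2 g2 k1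
  obtain ⟨a31, a32, a33, b31, b32, b33⟩ := F.dist3 t3 g3 k2
  obtain ⟨a41, a42, a43, b41, b42, b43⟩ := F.dist3 t4 g4 k3
  obtain ⟨a51, a52, a53, b51, b52, b53⟩ := F.dist3 t5 g5 k4
  obtain ⟨a61, a62, a63, b61, b62, b63⟩ := F.dist3 t6 g6 k5
  have z0 : ∀ e : ι × Bool, (op e).1 = e.1 := fun e => rfl
  simp only [z0] at a11 a12 a13 b12 b13 a21 a22 a23 b22 b23 a31 a32 a33 b32 b33 a41 a42 a43 b42 b43 a51 a52 a53 b52 b53 a61 a62 a63 b62 b63
  set g : Fin 3 → Fin 3 → ι := ![![e1.1, e6.1, x1.1], ![e2.1, x3.1, e3.1], ![x2.1, e5.1, e4.1]] with hg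
  have hrow : ∀ i j, g i j ∈ F.L ((![w1', w3', w5'] : Fin 3 → ℝ × ℝ) i) := by
    intro i j
    fin_cases i <;> fin_cases j <;> simp [*]
  have hcol : ∀ i j, g i j ∈ F.L ((![w2', w6', w4'] : Fin 3 → ℝ × ℝ) j) := by
    intro i j
    fin_cases i <;> fin_cases j <;> simp [*]
  have q1 := (F.nx_data f1).2.2.2.2.2
  have q2 := (F.nx_data f2).2.2.2.2.2
  have q3 := (F.nx_data f3).2.2.2.2.2
  have q4 := (F.nx_data f4).2.2.2.2.2
  have q5 := (F.nx_data f5).2.2.2.2.2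
  have q6 := (F.nx_data f6).2.2.2.2.2
  have o14 : w4' ≠ w1' := by
    have := F.nx_op.2 m4
    rw [op_op] at this
    exact F.chain2 this m1
  have o25 : w5' ≠ w2' := by
    have := F.nx_op.2 m5
    rw [op_op] at this
    exact F.chain2 this m2
  have o36 : w6' ≠ w3' := by
    have := F.nx_op.2 m6
    rw [op_op] at this
    exact F.chain2 this m3
  have hne : ∀ i j, (![w1', w3', w5'] : Fin 3 → ℝ × ℝ) i ≠ (![w2', w6', w4'] : Fin 3 → ℝ × ℝ) j := by
    intro i j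
    fin_cases i <;> fin_cases j
    · exact q1
    · exact q6.symm
    · exact o14.symm
    · exact q2.symm
    · exact o36.symm
    · exact q3
    · exact o25
    · exact q5
    · exact q4.symm
  have hr : ∀ i j j', j ≠ j' → g i j ≠ g i j' := by
    intro i j j' hj
    fin_cases i <;> fin_cases j <;> fin_cases j' <;> first | exact absurd rfl hj | skip
    · exact a13
    · exact a11
    · exact a13.symm
    · exact a12.symm
    · exact a11.symm
    · exact a12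
    · exact a32.symm
    · exact a33.symm
    · exact a32
    · exact a31.symm
    · exact a33
    · exact a31
    · exact a51.symm
    · exact a52
    · exact a51
    · exact a53
    · exact a52.symm
    · exact a53.symm
  have hcc : ∀ i i' j, i ≠ i' → g i j ≠ g i' j := by
    intro i i' j hi
    fin_cases i <;> fin_cases i' <;> fin_cases j <;> first | exact absurd rfl hi | skip
    · exact a23.symm
    · exact a61
    · exact a42
    · exact a22.symm
    · exact a63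
    · exact a41.symm
    · exact a23
    · exact a61.symm
    · exact a42.symm
    · exact a21
    · exact a62
    · exact a43.symm
    · exact a22
    · exact a63.symm
    · exact a41
    · exact a21.symm
    · exact a62.symm
    · exact a43
  have hGrid := F.grid_of g ![w1', w3', w5'] ![w2', w6', w4']
    (fun i j => ((F.mem_L _ _).1 (hrow i j)).1) (fun i j => ((F.mem_L _ _).1 (hrow i j)).2)
    (fun i j => ((F.mem_L _ _).1 (hcol i j)).2) hne hr hcc
  refine ⟨w1', w2', w3', w4', w5', w6', g, m1, m2, ⟨e1, f1⟩, ⟨e2, f2⟩, ⟨e6, f6⟩,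
    ⟨![w1', w3', w5'], ![w2', w6', w4'], hrow, hcol, ?_, hGrid.1, hne⟩, fun j => hrow 0 j,
    fun j => hrow 1 j, fun i => hcol i 0, fun i => hcol i 1, fun i => hcol i 2, fun j => hrow 2 j, ?_⟩
  · intro i
    fin_cases i
    · exact t1
    · exact t3
    · exact t5
  · have r1 : ∀ i ∈ F.L w1', ∃ a b, i = g a b := by
      intro i hi
      rcases cover3 t1 (hrow 0 0) (hrow 0 1) (hrow 0 2) (hr 0 0 1 (by decide)) (hr 0 1 2 (by decide))
        (hr 0 0 2 (by decide)) hi with h | h | h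
      · exact ⟨_, _, h⟩
      · exact ⟨_, _, h⟩
      · exact ⟨_, _, h⟩
    have r3 : ∀ i ∈ F.L w3', ∃ a b, i = g a b := by
      intro i hi
      rcases cover3 t3 (hrow 1 0) (hrow 1 1) (hrow 1 2) (hr 1 0 1 (by decide)) (hr 1 1 2 (by decide))
        (hr 1 0 2 (by decide)) hi with h | h | h
      · exact ⟨_, _, h⟩
      · exact ⟨_, _, h⟩
      · exact ⟨_, _, h⟩
    have r5 : ∀ i ∈ F.L w5', ∃ a b, i = g a b := by
      intro i hi
      rcases cover3 t5 (hrow 2 0) (hrow 2 1) (hrow 2 2) (hr 2 0 1 (by decide)) (hr 2 1 2 (by decide))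
        (hr 2 0 2 (by decide)) hi with h | h | h
      · exact ⟨_, _, h⟩
      · exact ⟨_, _, h⟩
      · exact ⟨_, _, h⟩
    have r2 : ∀ i ∈ F.L w2', ∃ a b, i = g a b := by
      intro i hi
      rcases cover3 t2 (hcol 0 0) (hcol 1 0) (hcol 2 0) (hcc 0 1 0 (by decide)) (hcc 1 2 0 (by decide))
        (hcc 0 2 0 (by decide)) hi with h | h | h
      · exact ⟨_, _, h⟩
      · exact ⟨_, _, h⟩
      · exact ⟨_, _, h⟩
    have r6 : ∀ i ∈ F.L w6', ∃ a b, i = g a b := by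
      intro i hi
      rcases cover3 t6 (hcol 0 1) (hcol 1 1) (hcol 2 1) (hcc 0 1 1 (by decide)) (hcc 1 2 1 (by decide))
        (hcc 0 2 1 (by decide)) hi with h | h | h
      · exact ⟨_, _, h⟩
      · exact ⟨_, _, h⟩
      · exact ⟨_, _, h⟩
    have r4 : ∀ i ∈ F.L w4', ∃ a b, i = g a b := by
      intro i hi
      rcases cover3 t4 (hcol 0 2) (hcol 1 2) (hcol 2 2) (hcc 0 1 2 (by decide)) (hcc 1 2 2 (by decide))
        (hcc 0 2 2 (by decide)) hi with h | h | h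
      · exact ⟨_, _, h⟩
      · exact ⟨_, _, h⟩
      · exact ⟨_, _, h⟩
    rintro ⟨l, b⟩ q hq
    have hl : l ∈ F.L c := by
      have := F.nx_data hq
      rw [mem_L]
      exact ⟨this.1, this.2.1⟩
    obtain ⟨y1, y2, y3, y4, y5, y6⟩ := F.dist3 hc s12 s23
    have hcov := cover3 hc y4 y5 y6 y1 y2 y3 hl
    rcases hcov with hh | hh | hh
    · by_cases hb : b = x1.2
      · have : ((l, b) : ι × Bool) = x1 := Prod.ext hh hb
        rw [this] at hq
        rw [F.nx_unique hq m1]; exact r1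
      · have : ((l, b) : ι × Bool) = op x1 := by
          apply Prod.ext hh
          show b = !x1.2
          cases b <;> cases hx : x1.2 <;> simp_all
        rw [this] at hq
        rw [F.nx_unique hq m4]; exact r4
    · by_cases hb : b = x2.2
      · have : ((l, b) : ι × Bool) = x2 := Prod.ext hh hb
        rw [this] at hq
        rw [F.nx_unique hq m2]; exact r2
      · have : ((l, b) : ι × Bool) = op x2 := by
          apply Prod.ext hh
          show b = !x2.2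
          cases b <;> cases hx : x2.2 <;> simp_all
        rw [this] at hq
        rw [F.nx_unique hq m5]; exact r5
    · by_cases hb : b = x3.2
      · have : ((l, b) : ι × Bool) = x3 := Prod.ext hh hb
        rw [this] at hq
        rw [F.nx_unique hq m3]; exact r3
      · have : ((l, b) : ι × Bool) = op x3 := by
          apply Prod.ext hh
          show b = !x3.2
          cases b <;> cases hx : x3.2 <;> simp_all
        rw [this] at hq
        rw [F.nx_unique hq m6]; exact r6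

/-- one step around a vertex -/
theorem prop_step {Z : ι → Prop} (hCB : F.CBP Z) {v q q' : ℝ × ℝ} {d d' : ι × Bool}
    (hs : F.Su v d d') (hq : F.Nx d v q) (hq' : F.Nx d' v q') (hA : F.AG v) (hG : F.Good1 q')
    (zv : F.GZ Z v) (zq : F.GZ Z q) : F.GZ Z q' := by
  obtain ⟨-, a, a', h1, h2, hc⟩ := hA _ _ hs
  have i1 := F.nx_unique h1 hq
  have i2 := F.nx_unique h2 hq'
  subst i1 i2
  obtain ⟨e, f, g1, k1⟩ := F.triD hs h1 h2 hc
  obtain ⟨w1, w2, w3, w4, w5, w6, g, n1, n2, -, ⟨e23, n23⟩, ⟨e61, n61⟩, hg, r1, r3, c2, c6, -, -, hcov⟩ :=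
    F.ring6 hG k1
  have j1 : w1 = v := F.nx_unique n1 (F.nx_op.2 h2)
  have j2 : w2 = a := F.nx_unique n2 (F.nx_op.2 f)
  subst j1 j2
  have z1 : ∀ j, Z (g 0 j) := fun j => zq _ _ (F.nx_op.2 h1) _ (r1 j)
  have z3 : ∀ j, Z (g 1 j) := fun j => zq _ _ n23 _ (r3 j)
  have z2 : ∀ i, Z (g i 0) := fun i => zv _ _ h1 _ (c2 i)
  have z6 : ∀ i, Z (g i 1) := fun i => zv _ _ (F.nx_op.2 n61) _ (c6 i)
  have hall : ∀ i j, Z (g i j) := by
    have h8 : ∀ i j, ¬ (i = 2 ∧ j = 2) → Z (g i j) := by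
      intro i j hij
      fin_cases i
      · exact z1 j
      · exact z3 j
      · fin_cases j
        · exact z2 2
        · exact z6 2
        · exact absurd ⟨rfl, rfl⟩ hij
    have h9 := hCB g hg h8
    intro i j
    by_cases hij : i = 2 ∧ j = 2
    · rw [hij.1, hij.2]; exact h9
    · exact h8 i j hij
  intro x y hxy i hi
  obtain ⟨a', b', hab⟩ := hcov x y hxy i hi
  rw [hab]
  exact hall _ _

/-- lines through v -/
theorem gz_self {Z : ι → Prop} {v : ℝ × ℝ} (hV : F.IsV v) (hA : F.AG v) (zv : F.GZ Z v) :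
    ∀ i ∈ F.L v, Z i := by
  intro i hi
  obtain ⟨d', hs⟩ := F.exists_su hV (d := (i, true)) hi
  obtain ⟨-, q, q', h1, -, -⟩ := hA _ _ hs
  have := F.nx_data h1
  exact zv _ _ h1 i (by rw [mem_L]; exact ⟨this.1, this.2.2.1⟩)

/-- the tenth line -/
theorem start_step {v q : ℝ × ℝ} {d : ι × Bool} (hd : F.Nx d v q) (hv : F.Good1 v) (hq : F.Good1 q) :
    ∃ t : ι, ∀ Z : ι → Prop, F.CBP Z → F.GZ Z v → Z t → F.GZ Z q := by
  have D := F.nx_data hd
  obtain ⟨x2, hs⟩ := F.exists_su D.2.2.2.2.1 (d := op d) (by rw [mem_L]; exact ⟨D.1, D.2.2.1⟩)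
  obtain ⟨w1, w2, w3, w4, w5, w6, g, n1, n2, ⟨e12, n12⟩, -, ⟨e61, n61⟩, hg, r1, r3, c2, c6, -, -, hcov⟩ :=
    F.ring6 hq hs
  have j1 : w1 = v := F.nx_unique n1 (F.nx_op.2 hd)
  subst j1
  refine ⟨g 1 2, fun Z hCB zv ht => ?_⟩
  have zs := F.gz_self D.2.2.2.1 hv.2.1 zv
  have z1 : ∀ j, Z (g 0 j) := fun j => zs _ (r1 j)
  have z2 : ∀ i, Z (g i 0) := fun i => zv _ _ n12 _ (c2 i)
  have z6 : ∀ i, Z (g i 1) := fun i => zv _ _ (F.nx_op.2 n61) _ (c6 i)
  have hall : ∀ i j, Z (g i j) := by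
    have h8 : ∀ i j, ¬ (i = 2 ∧ j = 2) → Z (g i j) := by
      intro i j hij
      fin_cases i
      · exact z1 j
      · fin_cases j
        · exact z2 1
        · exact z6 1
        · exact ht
      · fin_cases j
        · exact z2 2
        · exact z6 2
        · exact absurd ⟨rfl, rfl⟩ hij
    have h9 := hCB g hg h8
    intro i j
    by_cases hij : i = 2 ∧ j = 2
    · rw [hij.1, hij.2]; exact h9
    · exact h8 i j hij
  intro x y hxy i hi
  obtain ⟨a', b', hab⟩ := hcov x y hxy i hi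
  rw [hab]
  exact hall _ _

end Fam
end MP9b2b
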