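import Pool.Agent.Lib.MP_9b2b7a_co.SW.Main
import Pool.Agent.Lib.MP_9b2b7a_co.SW.Comp

set_option autoImplicit false
open scoped Classical

/-! The structure theorem: a few cubics contain almost all lines of a set of rich lines. -/

namespace MP9b2b

section
variable {A : Finset (ℝ × ℝ)} {ε : ℝ}
  {h : ∀ p ∈ A, ∀ q ∈ A, p.1 + ε * p.2 = q.1 + ε * q.2 → p = q}

/-- the cubic of a component -/
theorem cubic_comp {U : Finset (ℝ × ℝ)} {K : Finset (ℝ × ℝ)} (hK : K ∈ (dual A ε h).Cs U) :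
    ∃ B : Finset (ℝ × ℝ), B ⊆ A ∧ OnC B ∧ ∀ v ∈ K, (dual A ε h).L v ⊆ B := by
  unfold Fam.Cs at hK
  rw [Finset.mem_image] at hK
  obtain ⟨c, hc, rfl⟩ := hK
  rw [Fam.mem_BB] at hc
  obtain ⟨g, t, hg, hall⟩ := (dual A ε h).comp_cubic hc
  obtain ⟨P, hP0, hPd, hPg, hPt⟩ := pencil hg t
  have hZ := hall _ (cbp_of P hPd) hPg hPt
  refine ⟨A.filter (fun x => MvPolynomial.eval ![x.1, x.2] P = 0), Finset.filter_subset _ _,
    ⟨P, hP0, hPd, fun x hx => (Finset.mem_filter.1 hx).2⟩, ?_⟩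
  intro v hv i hi
  rw [Fam.mem_Kp] at hv
  have hgz := hZ v hv.2
  have h3 : ((dual A ε h).L v).card = 3 := hv.1.1.2.1
  have hV : (dual A ε h).IsV v := (dual A ε h).card_L_isV (by omega)
  rw [Finset.mem_filter]
  exact ⟨((Fam.mem_L _ _ _).1 hi).1, (dual A ε h).gz_self hV hv.1.1.2.2.1 hgz i hi⟩

/-- the excess -/
theorem ex_UV {U : Finset (Finset (ℝ × ℝ))} (hU : U ⊆ LinesOf A) :
    ∑ u ∈ U, (u.card - 3) ≤ (dual A ε h).ex (UV A ε h U) := by
  have hsub : U ⊆ (UV A ε h U).image (fun v => (dual A ε h).L v) := by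
    intro u hu
    obtain ⟨x, hx, y, hy, hxy, he⟩ := (mem_LinesOf A u).1 (hU hu)
    obtain ⟨v, hV, h1, h2⟩ := exists_vertex (ε := ε) (h := h) hx hy hxy
    have e := lineOf_dual h1 h2 hxy
    rw [← he] at e
    rw [Finset.mem_image]
    refine ⟨v, ?_, e.symm⟩
    unfold UV
    rw [Finset.mem_filter, Fam.mem_V, ← e]
    exact ⟨hV, hu⟩
  refine (Finset.sum_le_sum_of_subset hsub).trans ?_
  rw [Finset.sum_image]
  · exact le_refl _
  · intro v hv w hw he
    unfold UV at hv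
    rw [Finset.mem_coe, Finset.mem_filter, Fam.mem_V] at hv
    exact (dual A ε h).eq_of_L hv.1 he

end

/-- local Melchior inequality for the excess -/
theorem excess_le (A : Finset (ℝ × ℝ)) (U : Finset (Finset (ℝ × ℝ))) (hU : U ⊆ LinesOf A)
    (hU3 : ∀ u ∈ U, 3 ≤ u.card) :
    2 * ∑ u ∈ U, (u.card - 3) ≤ 4 * (U.biUnion id).card + (sw A (fun u => u ∈ U)).card := by
  obtain ⟨ε, h⟩ := exists_eps A
  have hs := UV_sub (ε := ε) (h := h) hU3
  have h1 := (dual A ε h).LB2 hs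
  have h2 := (dual A ε h).mx.LB2 ((dual A ε h).img_R3 hs)
  rw [Fam.SU_mx, Fam.ex_mx] at h2
  have h3 := ex_UV (ε := ε) (h := h) hU
  have h5 := Finset.card_le_card (SU_UV (ε := ε) (h := h) (U := U))
  have h8 := edges_le (ε := ε) (h := h) (U := U)
  omega

/-- THE STRUCTURE THEOREM -/
theorem struct (A : Finset (ℝ × ℝ)) (U : Finset (Finset (ℝ × ℝ))) (hU : U ⊆ LinesOf A)
    (hU3 : ∀ u ∈ U, 3 ≤ u.card) (t : ℝ) (ht : 0 < t) :
    ∃ D : Finset (Finset (ℝ × ℝ)), (∀ B ∈ D, B ⊆ A ∧ OnC B) ∧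
      (D.card : ℝ) * t ≤ 3 * (154 * ((U.biUnion id).card : ℝ) + 46 * ((sw A (fun u => u ∈ U)).card : ℝ)) ∧
      ((U.filter (fun u => ∀ B ∈ D, ¬ u ⊆ B)).card : ℝ) ≤ (1 + t / 2) *
        (154 * ((U.biUnion id).card : ℝ) + 46 * ((sw A (fun u => u ∈ U)).card : ℝ)) := by
  obtain ⟨ε, h⟩ := exists_eps A
  have hs := UV_sub (ε := ε) (h := h) hU3
  have h2 := (dual A ε h).N2_le (U := UV A ε h U)
  have h3 := (dual A ε h).N1_le hs
  have h5 := Finset.card_le_card (SU_UV (ε := ε) (h := h) (U := U))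
  have h8 := edges_le (ε := ε) (h := h) (U := U)
  have h9 : 2 * ((dual A ε h).N2 (UV A ε h U)).card ≤
      308 * (U.biUnion id).card + 92 * (sw A (fun u => u ∈ U)).card := by omega
  have h10 : (((dual A ε h).N2 (UV A ε h U)).card : ℝ) ≤
      154 * ((U.biUnion id).card : ℝ) + 46 * ((sw A (fun u => u ∈ U)).card : ℝ) := by
    have : ((dual A ε h).N2 (UV A ε h U)).card ≤
      154 * (U.biUnion id).card + 46 * (sw A (fun u => u ∈ U)).card := by omega
    exact_mod_cast this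
  have hex : ∀ K : Finset (ℝ × ℝ), ∃ B : Finset (ℝ × ℝ), (B ⊆ A ∧ OnC B) ∧
      (K ∈ (dual A ε h).Cs (UV A ε h U) → ∀ v ∈ K, (dual A ε h).L v ⊆ B) := by
    intro K
    by_cases hK : K ∈ (dual A ε h).Cs (UV A ε h U)
    · obtain ⟨B, h1, h2, h3⟩ := cubic_comp hK
      exact ⟨B, ⟨h1, h2⟩, fun _ => h3⟩
    · exact ⟨∅, ⟨Finset.empty_subset _, 1, one_ne_zero, by simp, by simp⟩, fun hc => absurd hc hK⟩
  choose Bf hB1 hB2 using hex
  refine ⟨((dual A ε h).Big (UV A ε h U) t).image Bf, ?_, ?_, ?_⟩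
  · intro B hB
    rw [Finset.mem_image] at hB
    obtain ⟨K, -, rfl⟩ := hB
    exact hB1 K
  · have k1 := (dual A ε h).big_le (U := UV A ε h U) (t := t)
    have k2 : (((((dual A ε h).Big (UV A ε h U) t).image Bf).card : ℕ) : ℝ) ≤
        (((dual A ε h).Big (UV A ε h U) t).card : ℝ) := by
      exact_mod_cast Finset.card_image_le
    have k3 := mul_le_mul_of_nonneg_right k2 ht.le
    linarith
  · have k1 := (dual A ε h).uncovered_le (U := UV A ε h U) ht
    have k2 : (U.filter (fun u => ∀ B ∈ ((dual A ε h).Big (UV A ε h U) t).image Bf, ¬ u ⊆ B)).card ≤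
        ((UV A ε h U).filter (fun v => ∀ K ∈ (dual A ε h).Big (UV A ε h U) t, v ∉ K)).card := by
      apply Finset.card_le_card_of_forall_subsingleton (fun u v => (dual A ε h).L v = u)
      · intro u hu
        rw [Finset.mem_filter] at hu
        obtain ⟨x, hx, y, hy, hxy, he⟩ := (mem_LinesOf A u).1 (hU hu.1)
        obtain ⟨v, hV, h1, h2⟩ := exists_vertex (ε := ε) (h := h) hx hy hxy
        have e := lineOf_dual h1 h2 hxy
        rw [← he] at e
        refine ⟨v, ?_, e.symm⟩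
        rw [Finset.mem_filter]
        constructor
        · unfold UV
          rw [Finset.mem_filter, Fam.mem_V, ← e]
          exact ⟨hV, hu.1⟩
        · intro K hK hv
          have hKC : K ∈ (dual A ε h).Cs (UV A ε h U) := by
            unfold Fam.Big at hK
            exact (Finset.mem_filter.1 hK).1
          apply hu.2 (Bf K) (Finset.mem_image_of_mem _ hK)
          rw [e]
          exact hB2 K hKC v hv
      · intro v _ u hu u' hu'
        simp only [Set.mem_ofPred_eq] at hu hu'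
        rw [← hu.2, ← hu'.2]
    have k2' : ((U.filter (fun u => ∀ B ∈ ((dual A ε h).Big (UV A ε h U) t).image Bf, ¬ u ⊆ B)).card : ℝ) ≤
        (((UV A ε h U).filter (fun v => ∀ K ∈ (dual A ε h).Big (UV A ε h U) t, v ∉ K)).card : ℝ) := by
      exact_mod_cast k2
    have k3 : (1 + t / 2) * (((dual A ε h).N2 (UV A ε h U)).card : ℝ) ≤ (1 + t / 2) *
        (154 * ((U.biUnion id).card : ℝ) + 46 * ((sw A (fun u => u ∈ U)).card : ℝ)) :=
      mul_le_mul_of_nonneg_left h10 (by positivity)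
    linarith

/-- a line is on a cubic -/
theorem onC_line {A : Finset (ℝ × ℝ)} {u : Finset (ℝ × ℝ)} (hu : u ∈ LinesOf A) : OnC u := by
  obtain ⟨x, hx, y, hy, hxy, rfl⟩ := (mem_LinesOf A u).1 hu
  refine ⟨MvPolynomial.C (y.1 - x.1) * (MvPolynomial.X 1 - MvPolynomial.C x.2) -
    MvPolynomial.C (y.2 - x.2) * (MvPolynomial.X 0 - MvPolynomial.C x.1), ?_, ?_, ?_⟩
  · intro hc
    have h1 := congrArg (MvPolynomial.eval ![x.1, x.2 + 1]) hc
    have h2 := congrArg (MvPolynomial.eval ![x.1 + 1, x.2]) hc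
    simp at h1 h2
    exact hxy (Prod.ext (by linarith) (by linarith))
  · have e1 : ∀ (a b : ℝ) (i : Fin 2),
        (MvPolynomial.C a * (MvPolynomial.X i - MvPolynomial.C b) : MvPolynomial (Fin 2) ℝ).totalDegree ≤ 3 := by
      intro a b i
      refine (MvPolynomial.totalDegree_mul _ _).trans ?_
      rw [MvPolynomial.totalDegree_C, zero_add]
      refine (MvPolynomial.totalDegree_sub _ _).trans (max_le ?_ ?_)
      · rw [MvPolynomial.totalDegree_X]; norm_num
      · rw [MvPolynomial.totalDegree_C]; norm_num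
    exact (MvPolynomial.totalDegree_sub _ _).trans (max_le (e1 _ _ _) (e1 _ _ _))
  · intro p hp
    unfold lineOf at hp
    rw [Finset.mem_filter] at hp
    simp only [map_sub, map_mul, MvPolynomial.eval_C, MvPolynomial.eval_X]
    exact hp.2

/-- ordered pairs on rich lines outside all members of `D` -/
noncomputable def freePairs (A : Finset (ℝ × ℝ)) (D : Finset (Finset (ℝ × ℝ))) :
    Finset ((ℝ × ℝ) × (ℝ × ℝ)) :=
  (A ×ˢ A).filter (fun t => t.1 ≠ t.2 ∧ 3 ≤ (lineOf A t.1 t.2).card ∧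
    ∀ B ∈ D, ¬ lineOf A t.1 t.2 ⊆ B)

theorem mem_lineOf_self {A : Finset (ℝ × ℝ)} {a b : ℝ × ℝ} (ha : a ∈ A) (hb : b ∈ A) :
    a ∈ lineOf A a b ∧ b ∈ lineOf A a b := by
  unfold lineOf
  rw [Finset.mem_filter, Finset.mem_filter]
  exact ⟨⟨ha, by unfold ori; ring⟩, ⟨hb, by unfold ori; ring⟩⟩

theorem freePairs_le (A : Finset (ℝ × ℝ)) (D : Finset (Finset (ℝ × ℝ))) :
    (freePairs A D).card ≤ ∑ u ∈ (rich A).filter (fun u => ∀ B ∈ D, ¬ u ⊆ B), u.card ^ 2 := by
  have h1 : (freePairs A D).card ≤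
      (((rich A).filter (fun u => ∀ B ∈ D, ¬ u ⊆ B)).sigma (fun u => u ×ˢ u)).card := by
    apply Finset.card_le_card_of_injOn
      (fun t => (⟨lineOf A t.1 t.2, t⟩ : Σ _ : Finset (ℝ × ℝ), (ℝ × ℝ) × (ℝ × ℝ)))
    · rintro ⟨a, b⟩ ht
      unfold freePairs at ht
      rw [Finset.mem_coe, Finset.mem_filter, Finset.mem_product] at ht
      obtain ⟨⟨ha, hb⟩, hab, h3, h4⟩ := ht
      simp only at ha hb hab h3 h4
      rw [Finset.mem_coe, Finset.mem_sigma]
      unfold rich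
      rw [Finset.mem_filter, Finset.mem_filter, Finset.mem_product]
      have hm := mem_lineOf_self ha hb
      exact ⟨⟨⟨(mem_LinesOf A _).2 ⟨a, ha, b, hb, hab, rfl⟩, h3⟩, h4⟩, hm.1, hm.2⟩
    · intro t _ t' _ he
      simp only [Sigma.mk.injEq, heq_eq_eq] at he
      exact he.2
  rw [Finset.card_sigma] at h1
  refine h1.trans (le_of_eq ?_)
  apply Finset.sum_congr rfl
  intro u _
  rw [Finset.card_product, pow_two]

end MP9b2b
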