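import Pool.Agent.Lib.MP_9b2b7a_co.SW.Ring

set_option autoImplicit false
open scoped Classical

/-! Long straight walks through good vertices, and the lines of a cubic along them. -/

namespace MP9b2b
namespace Fam

variable {ι : Type} (F : Fam ι) {U : Finset (ℝ × ℝ)}

/-- triple, all angles triangular, all neighbours in `U` and triple -/
def B1 (U : Finset (ℝ × ℝ)) (c : ℝ × ℝ) : Prop :=
  c ∈ U ∧ (F.L c).card = 3 ∧ F.AG c ∧ ∀ d q, F.Nx d c q → q ∈ U ∧ (F.L q).card = 3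

def B2 (U : Finset (ℝ × ℝ)) (c : ℝ × ℝ) : Prop := F.B1 U c ∧ ∀ d q, F.Nx d c q → F.B1 U q

noncomputable def N1 (U : Finset (ℝ × ℝ)) : Finset (ℝ × ℝ) := U.filter (fun c => ¬ F.B1 U c)
noncomputable def N2 (U : Finset (ℝ × ℝ)) : Finset (ℝ × ℝ) := U.filter (fun c => ¬ F.B2 U c)

theorem near_four : (U.filter (fun c => ∃ d q, F.Nx d c q ∧ q ∈ U ∧ 4 ≤ (F.L q).card)).card ≤
    8 * F.ex U := by
  have h6 : ((U.filter (fun q => 4 ≤ (F.L q).card)).sigma
      (fun q => (F.L q) ×ˢ (Finset.univ : Finset Bool))).card ≤ 8 * F.ex U := by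
    rw [Finset.card_sigma, Finset.sum_filter]
    unfold ex
    rw [Finset.mul_sum]
    apply Finset.sum_le_sum
    intro v _
    rw [Finset.card_product, Finset.card_univ, Fintype.card_bool]
    split_ifs with h <;> omega
  refine le_trans ?_ h6
  apply Finset.card_le_card_of_forall_subsingleton
    (fun (c : ℝ × ℝ) (t : Σ _ : ℝ × ℝ, ι × Bool) => F.Nx t.2 t.1 c)
  · intro c hc
    rw [Finset.mem_filter] at hc
    obtain ⟨hcU, d, q, hn, hq, h4⟩ := hc
    have D := F.nx_data hn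
    refine ⟨⟨q, op d⟩, ?_, F.nx_op.2 hn⟩
    rw [Finset.mem_sigma, Finset.mem_filter, Finset.mem_product, mem_L]
    exact ⟨⟨hq, h4⟩, ⟨D.1, D.2.2.1⟩, Finset.mem_univ _⟩
  · intro t _ c hc c' hc'
    simp only [Set.mem_ofPred_eq] at hc hc'
    exact F.nx_unique hc.2 hc'.2

theorem N1_le (hU : U ⊆ F.R3) : 2 * (F.N1 U).card ≤
    44 * (F.SU U).card + 13 * (F.EDr U).card + 9 * (F.mx.EDr (U.image tx)).card := by
  have h1 := F.card_Bad3 hU
  have h2 := F.notAG_le hU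
  have h3 := F.exit_le (U := U)
  have h4 := F.four_le (U := U)
  have h5 := F.near_four (U := U)
  have l1 := F.LB2 hU
  have l2 := F.mx.LB2 (F.img_R3 hU)
  rw [SU_mx, ex_mx] at l2
  have hsub : F.N1 U ⊆ ((((F.Ne U).filter (fun c => ¬ F.AG c)) ∪
      (U.filter (fun c => 4 ≤ (F.L c).card))) ∪
      (U.filter (fun c => ∃ d q, F.Nx d c q ∧ q ∉ U))) ∪
      (U.filter (fun c => ∃ d q, F.Nx d c q ∧ q ∈ U ∧ 4 ≤ (F.L q).card)) := by
    intro c hc
    unfold N1 at hc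
    rw [Finset.mem_filter] at hc
    obtain ⟨hcU, hB⟩ := hc
    unfold B1 at hB
    have hc3 := (F.mem_R3 c).1 (hU hcU)
    rw [Finset.mem_union, Finset.mem_union, Finset.mem_union, Finset.mem_filter, Finset.mem_filter,
      Finset.mem_filter, Finset.mem_filter, mem_Ne]
    by_cases hex : ∃ d q, F.Nx d c q ∧ q ∉ U
    · exact Or.inl (Or.inr ⟨hcU, hex⟩)
    · push Not at hex
      by_cases hA : F.AG c
      · by_cases h4 : 4 ≤ (F.L c).card
        · exact Or.inl (Or.inl (Or.inr ⟨hcU, h4⟩))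
        · right
          refine ⟨hcU, ?_⟩
          by_contra hcon
          push Not at hcon
          apply hB
          refine ⟨hcU, by omega, hA, fun d q hn => ?_⟩
          have hq := hex d q hn
          have hq3 := (F.mem_R3 q).1 (hU hq)
          have := hcon d q hn hq
          exact ⟨hq, by omega⟩
      · exact Or.inl (Or.inl (Or.inl ⟨⟨hcU, hex⟩, hA⟩))
  have k1 := Finset.card_le_card hsub
  have k2 := Finset.card_union_le ((((F.Ne U).filter (fun c => ¬ F.AG c)) ∪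
      (U.filter (fun c => 4 ≤ (F.L c).card))) ∪ (U.filter (fun c => ∃ d q, F.Nx d c q ∧ q ∉ U)))
      (U.filter (fun c => ∃ d q, F.Nx d c q ∧ q ∈ U ∧ 4 ≤ (F.L q).card))
  have k3 := Finset.card_union_le (((F.Ne U).filter (fun c => ¬ F.AG c)) ∪
      (U.filter (fun c => 4 ≤ (F.L c).card))) (U.filter (fun c => ∃ d q, F.Nx d c q ∧ q ∉ U))
  have k4 := Finset.card_union_le ((F.Ne U).filter (fun c => ¬ F.AG c))
      (U.filter (fun c => 4 ≤ (F.L c).card))
  omega

theorem N2_le : (F.N2 U).card ≤ 7 * (F.N1 U).card := by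
  have h6 : (((F.N1 U).filter (fun q => (F.L q).card = 3)).sigma
      (fun q => (F.L q) ×ˢ (Finset.univ : Finset Bool))).card ≤ 6 * (F.N1 U).card := by
    rw [Finset.card_sigma]
    have : ∑ q ∈ (F.N1 U).filter (fun q => (F.L q).card = 3),
        ((F.L q) ×ˢ (Finset.univ : Finset Bool)).card =
        ∑ q ∈ (F.N1 U).filter (fun q => (F.L q).card = 3), 6 := by
      apply Finset.sum_congr rfl
      intro q hq
      rw [Finset.mem_filter] at hq
      rw [Finset.card_product, Finset.card_univ, Fintype.card_bool, hq.2]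
    rw [this, Finset.sum_const, smul_eq_mul, mul_comm]
    have := Finset.card_filter_le (F.N1 U) (fun q => (F.L q).card = 3)
    omega
  have h1 : (U.filter (fun c => F.B1 U c ∧ ∃ d q, F.Nx d c q ∧ ¬ F.B1 U q)).card ≤
      6 * (F.N1 U).card := by
    refine le_trans ?_ h6
    apply Finset.card_le_card_of_forall_subsingleton
      (fun (c : ℝ × ℝ) (t : Σ _ : ℝ × ℝ, ι × Bool) => F.Nx t.2 t.1 c)
    · intro c hc
      rw [Finset.mem_filter] at hc
      obtain ⟨hcU, hB, d, q, hn, hq⟩ := hc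
      have D := F.nx_data hn
      refine ⟨⟨q, op d⟩, ?_, F.nx_op.2 hn⟩
      rw [Finset.mem_sigma]
      unfold N1
      rw [Finset.mem_filter, Finset.mem_filter, Finset.mem_product, mem_L]
      have hq2 := hB.2.2.2 d q hn
      exact ⟨⟨⟨hq2.1, hq⟩, hq2.2⟩, ⟨D.1, D.2.2.1⟩, Finset.mem_univ _⟩
    · intro t _ c hc c' hc'
      simp only [Set.mem_ofPred_eq] at hc hc'
      exact F.nx_unique hc.2 hc'.2
  have hsub : F.N2 U ⊆ (F.N1 U) ∪ (U.filter (fun c => F.B1 U c ∧ ∃ d q, F.Nx d c q ∧ ¬ F.B1 U q)) := by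
    intro c hc
    unfold N2 at hc
    rw [Finset.mem_filter] at hc
    unfold B2 at hc
    unfold N1
    rw [Finset.mem_union, Finset.mem_filter, Finset.mem_filter]
    by_cases hB : F.B1 U c
    · right
      refine ⟨hc.1, hB, ?_⟩
      by_contra hcon
      push Not at hcon
      exact hc.2 ⟨hB, hcon⟩
    · exact Or.inl ⟨hc.1, hB⟩
  have h4 := (Finset.card_le_card hsub).trans (Finset.card_union_le _ _)
  omega

/-- `r` further steps to the right on the line `l` stay at good vertices -/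
def Walk (U : Finset (ℝ × ℝ)) : ℕ → (ℝ × ℝ) → ι → Prop
  | 0, c, _ => F.B2 U c
  | r + 1, c, l => F.B2 U c ∧ ∃ q, F.Adj l c q ∧ Walk U r q l

theorem walk_B2 {r : ℕ} {c : ℝ × ℝ} {l : ι} (h : F.Walk U r c l) : F.B2 U c := by
  cases r with
  | zero => exact h
  | succ r => exact h.1

noncomputable def U3 (U : Finset (ℝ × ℝ)) : Finset (ℝ × ℝ) := U.filter (fun c => (F.L c).card = 3)

noncomputable def N2' (U : Finset (ℝ × ℝ)) : Finset (ℝ × ℝ) := (F.N2 U).filter (fun c => (F.L c).card = 3)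

noncomputable def BW (U : Finset (ℝ × ℝ)) (r : ℕ) : Finset (Σ _ : ℝ × ℝ, ι) :=
  ((F.U3 U).sigma (fun c => F.L c)).filter (fun t => ¬ F.Walk U r t.1 t.2)

theorem sigma3 (W : Finset (ℝ × ℝ)) (h : ∀ c ∈ W, (F.L c).card = 3) :
    (W.sigma (fun c => F.L c)).card = 3 * W.card := by
  rw [Finset.card_sigma]
  have : ∑ q ∈ W, (F.L q).card = ∑ q ∈ W, 3 := Finset.sum_congr rfl h
  rw [this, Finset.sum_const, smul_eq_mul, mul_comm]

theorem card_N2_sigma : ((F.N2' U).sigma (fun c => F.L c)).card = 3 * (F.N2' U).card := by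
  apply F.sigma3
  intro c hc
  unfold N2' at hc
  exact (Finset.mem_filter.1 hc).2

theorem exists_right {c : ℝ × ℝ} {l : ι} (hV : F.IsV c) (hA : F.AG c) (hl : l ∈ F.L c) :
    ∃ q, F.Adj l c q := by
  obtain ⟨d', hs⟩ := F.exists_su hV (d := (l, true)) hl
  obtain ⟨-, q, q', h1, -, -⟩ := hA _ _ hs
  rcases h1 with ⟨-, h⟩ | ⟨h, -⟩
  · exact ⟨q, h⟩
  · exact absurd h (by simp)

theorem BW_le (r : ℕ) : (F.BW U r).card ≤ 3 * ((r + 1) * (F.N2' U).card) := by
  induction r with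
  | zero =>
    rw [zero_add, one_mul, ← F.card_N2_sigma]
    apply Finset.card_le_card
    intro t ht
    unfold BW U3 at ht
    rw [Finset.mem_filter, Finset.mem_sigma, Finset.mem_filter] at ht
    unfold N2' N2
    rw [Finset.mem_sigma, Finset.mem_filter, Finset.mem_filter]
    exact ⟨⟨⟨ht.1.1.1, ht.2⟩, ht.1.1.2⟩, ht.1.2⟩
  | succ r ih =>
    have hsub : F.BW U (r + 1) ⊆ ((F.N2' U).sigma (fun c => F.L c)) ∪
        ((F.BW U (r + 1)).filter (fun t => F.B2 U t.1)) := by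
      intro t ht
      have ht' := ht
      unfold BW U3 at ht'
      rw [Finset.mem_filter, Finset.mem_sigma, Finset.mem_filter] at ht'
      rw [Finset.mem_union, Finset.mem_filter, Finset.mem_sigma]
      by_cases hB : F.B2 U t.1
      · exact Or.inr ⟨ht, hB⟩
      · left
        unfold N2' N2
        rw [Finset.mem_filter, Finset.mem_filter]
        exact ⟨⟨⟨ht'.1.1.1, hB⟩, ht'.1.1.2⟩, ht'.1.2⟩
    have h2 : ((F.BW U (r + 1)).filter (fun t => F.B2 U t.1)).card ≤ (F.BW U r).card := by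
      apply Finset.card_le_card_of_forall_subsingleton
        (fun (t t' : Σ _ : ℝ × ℝ, ι) => t'.2 = t.2 ∧ F.Adj t.2 t.1 t'.1)
      · rintro ⟨c, l⟩ ht
        rw [Finset.mem_filter] at ht
        obtain ⟨ht, hB⟩ := ht
        unfold BW U3 at ht
        rw [Finset.mem_filter, Finset.mem_sigma, Finset.mem_filter] at ht
        obtain ⟨⟨hc, hl⟩, hW⟩ := ht
        simp only at hc hl hW hB
        have hV : F.IsV c := F.card_L_isV (by omega)
        obtain ⟨q, hq⟩ := F.exists_right hV hB.1.2.2.1 hl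
        refine ⟨⟨q, l⟩, ?_, rfl, hq⟩
        unfold BW U3
        rw [Finset.mem_filter, Finset.mem_sigma, Finset.mem_filter]
        refine ⟨⟨hB.1.2.2.2 (l, true) q (Or.inl ⟨rfl, hq⟩), ?_⟩, fun hc' => hW ⟨hB, q, hq, hc'⟩⟩
        rw [mem_L]
        exact ⟨hq.1, hq.2.2.1⟩
      · rintro ⟨q, l⟩ - ⟨c, m⟩ ht ⟨c', m'⟩ ht'
        simp only [Set.mem_ofPred_eq] at ht ht'
        obtain ⟨-, e1, a1⟩ := ht
        obtain ⟨-, e2, a2⟩ := ht'
        subst e1
        subst e2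
        rw [F.adj_prev_unique a1 a2]
    have h3 := (Finset.card_le_card hsub).trans (Finset.card_union_le _ _)
    rw [F.card_N2_sigma] at h3
    have h4 : 3 * ((r + 1 + 1) * (F.N2' U).card) = 3 * (F.N2' U).card + 3 * ((r + 1) * (F.N2' U).card) := by
      ring
    omega

theorem exists_walk (r : ℕ) (h : (r + 1) * (F.N2 U).card < U.card) :
    ∃ c ∈ U, ∃ l ∈ F.L c, F.Walk U r c l := by
  by_contra hcon
  push Not at hcon
  have h1 := F.BW_le (U := U) r
  have h2 : F.BW U r = (F.U3 U).sigma (fun c => F.L c) := by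
    unfold BW
    rw [Finset.filter_eq_self]
    intro t ht
    unfold U3 at ht
    rw [Finset.mem_sigma, Finset.mem_filter] at ht
    exact hcon t.1 ht.1.1 t.2 ht.2
  have h3 : ((F.U3 U).sigma (fun c => F.L c)).card = 3 * (F.U3 U).card := by
    apply F.sigma3
    intro c hc
    unfold U3 at hc
    exact (Finset.mem_filter.1 hc).2
  rw [h2, h3] at h1
  have e1 : (F.U3 U).card + (U.filter (fun c => ¬ (F.L c).card = 3)).card = U.card :=
    Finset.card_filter_add_card_filter_not _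
  have e2 : (F.N2' U).card + ((F.N2 U).filter (fun c => ¬ (F.L c).card = 3)).card = (F.N2 U).card :=
    Finset.card_filter_add_card_filter_not _
  have e3 : (U.filter (fun c => ¬ (F.L c).card = 3)).card ≤
      ((F.N2 U).filter (fun c => ¬ (F.L c).card = 3)).card := by
    apply Finset.card_le_card
    intro c hc
    rw [Finset.mem_filter] at hc
    unfold N2
    rw [Finset.mem_filter, Finset.mem_filter]
    exact ⟨⟨hc.1, fun hB => hc.2 hB.1.2.1⟩, hc.2⟩
  have e4 : (r + 1) * (F.N2 U).card = (r + 1) * (F.N2' U).card +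
      (r + 1) * ((F.N2 U).filter (fun c => ¬ (F.L c).card = 3)).card := by
    rw [← e2]; ring
  have e5 : ((F.N2 U).filter (fun c => ¬ (F.L c).card = 3)).card ≤
      (r + 1) * ((F.N2 U).filter (fun c => ¬ (F.L c).card = 3)).card := Nat.le_mul_of_pos_left _ (by omega)
  omega

theorem good_of_B1 {c : ℝ × ℝ} (h : F.B1 U c) : F.Good1 c :=
  ⟨h.2.1, h.2.2.1, fun d q hn => (h.2.2.2 d q hn).2⟩

/-- the cubic follows the walk -/
theorem walk_next {Z : ι → Prop} (hCB : F.CBP Z) {c q q2 : ℝ × ℝ} {l : ι}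
    (h1 : F.Adj l c q) (hB : F.B2 U q) (h2 : F.Adj l q q2) (zc : F.GZ Z c) (zq : F.GZ Z q) :
    F.GZ Z q2 := by
  have hq3 := (F.good_of_B1 hB.1).1
  have hA : F.AG q := hB.1.2.2.1
  have hV : F.IsV q := h1.2.2.2.2.1
  have hlq : l ∈ F.L q := by rw [mem_L]; exact ⟨h1.1, h1.2.2.1⟩
  have n1 : F.Nx (l, false) q c := Or.inr ⟨rfl, h1⟩
  obtain ⟨x2, s12⟩ := F.exists_su hV (d := (l, false)) hlq
  obtain ⟨x3, s23⟩ := F.exists_su hV (F.su_data s12).2
  have s34 : F.Su q x3 (op (l, false)) := F.su3_close hq3 s12 s23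
  have n4 : F.Nx (op (l, false)) q q2 := Or.inl ⟨rfl, h2⟩
  obtain ⟨-, a1, a2, m1, m2, -⟩ := hA _ _ s12
  obtain ⟨-, a2', a3, m2', m3, -⟩ := hA _ _ s23
  have e2 := F.nx_unique m2' m2
  subst e2
  have g2 : F.GZ Z a2' := F.prop_step hCB s12 n1 m2 hA (F.good_of_B1 (hB.2 _ _ m2)) zq zc
  have g3 : F.GZ Z a3 := F.prop_step hCB s23 m2 m3 hA (F.good_of_B1 (hB.2 _ _ m3)) zq g2
  exact F.prop_step hCB s34 m3 n4 hA (F.good_of_B1 (hB.2 _ _ n4)) zq g3

theorem walk_lines {Z : ι → Prop} (hCB : F.CBP Z) (r : ℕ) :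
    ∀ (c q : ℝ × ℝ) (l : ι), F.Adj l c q → F.Walk U r q l → F.GZ Z c → F.GZ Z q →
      ∃ W : Finset ι, W.card = 2 * (r + 1) ∧ ∀ i ∈ W, i ∈ F.S ∧ i ≠ l ∧ Z i ∧
        ∃ v : ℝ × ℝ, F.On i v ∧ F.On l v ∧ q.1 ≤ v.1 := by
  have base : ∀ (c q : ℝ × ℝ) (l : ι), F.Adj l c q → F.B2 U q → F.GZ Z c →
      ((F.L q).erase l).card = 2 ∧ ∀ i ∈ (F.L q).erase l, i ∈ F.S ∧ i ≠ l ∧ Z i ∧
        ∃ v : ℝ × ℝ, F.On i v ∧ F.On l v ∧ q.1 ≤ v.1 := by
    intro c q l h1 hB zc
    have hq3 := (F.good_of_B1 hB.1).1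
    have hlq : l ∈ F.L q := by rw [mem_L]; exact ⟨h1.1, h1.2.2.1⟩
    refine ⟨by rw [Finset.card_erase_of_mem hlq, hq3], fun i hi => ?_⟩
    rw [Finset.mem_erase] at hi
    have hi2 := (F.mem_L _ _).1 hi.2
    exact ⟨hi2.1, hi.1, zc (l, true) q (Or.inl ⟨rfl, h1⟩) i hi.2, q, hi2.2, h1.2.2.1, le_refl _⟩
  induction r with
  | zero =>
    intro c q l h1 hW zc zq
    obtain ⟨b1, b2⟩ := base c q l h1 hW zc
    exact ⟨_, by rw [b1], b2⟩
  | succ r ih =>
    intro c q l h1 hW zc zq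
    obtain ⟨hB, q2, h2, hW2⟩ := hW
    obtain ⟨b1, b2⟩ := base c q l h1 hB zc
    have z2 := F.walk_next hCB h1 hB h2 zc zq
    obtain ⟨W, hW1, hW3⟩ := ih q q2 l h2 hW2 zq z2
    have hlt := h2.2.2.2.2.2.1
    have hdisj : Disjoint W ((F.L q).erase l) := by
      rw [Finset.disjoint_left]
      intro i hi hi'
      obtain ⟨h3, h4, h5, v, h6, h7, h8⟩ := hW3 i hi
      rw [Finset.mem_erase, mem_L] at hi'
      have := F.eq_of_on h3 h1.1 h4 h6 h7 hi'.2.2 h1.2.2.1
      rw [this] at h8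
      linarith
    refine ⟨W ∪ (F.L q).erase l, ?_, ?_⟩
    · rw [Finset.card_union_of_disjoint hdisj, hW1, b1]
      ring
    · intro i hi
      rw [Finset.mem_union] at hi
      rcases hi with hi | hi
      · obtain ⟨h3, h4, h5, v, h6, h7, h8⟩ := hW3 i hi
        exact ⟨h3, h4, h5, v, h6, h7, by linarith⟩
      · exact b2 i hi

/-- a long walk carries many lines of every cubic through a grid and one more line -/
theorem many_lines (r : ℕ) {c : ℝ × ℝ} {l : ι} (hW : F.Walk U (r + 1) c l) :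
    ∃ (g : Fin 3 → Fin 3 → ι) (t : ι), F.G3 g ∧ ∀ Z : ι → Prop, F.CBP Z → (∀ i j, Z (g i j)) → Z t →
      ∃ W : Finset ι, W.card = 2 * (r + 1) + 1 ∧ ∀ i ∈ W, i ∈ F.S ∧ Z i := by
  obtain ⟨hB, q, hq, hW2⟩ := hW
  have hBq := F.walk_B2 hW2
  have hgc := F.good_of_B1 hB.1
  have hgq := F.good_of_B1 hBq.1
  have hn : F.Nx (l, true) c q := Or.inl ⟨rfl, hq⟩
  obtain ⟨t, ht⟩ := F.start_step hn hgc hgq
  have hlc : l ∈ F.L c := by rw [mem_L]; exact ⟨hq.1, hq.2.1⟩
  obtain ⟨x2, hs⟩ := F.exists_su hq.2.2.2.1 (d := (l, true)) hlc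
  obtain ⟨w1, w2, w3, w4, w5, w6, g, n1, n2, -, -, -, hg, -, -, -, -, -, -, hcov⟩ := F.ring6 hgc hs
  refine ⟨g, t, hg, fun Z hCB hZg hZt => ?_⟩
  have zc : F.GZ Z c := by
    intro d p hd i hi
    obtain ⟨a, b, hab⟩ := hcov d p hd i hi
    rw [hab]; exact hZg a b
  have zq := ht Z hCB zc hZt
  obtain ⟨W, hW1, hW3⟩ := F.walk_lines hCB r c q l hq hW2 zc zq
  refine ⟨insert l W, ?_, ?_⟩
  · rw [Finset.card_insert_of_notMem, hW1]
    intro hl
    exact (hW3 l hl).2.1 rfl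
  · intro i hi
    rw [Finset.mem_insert] at hi
    rcases hi with rfl | hi
    · exact ⟨hq.1, zc _ _ hn i (by rw [mem_L]; exact ⟨hq.1, hq.2.2.1⟩)⟩
    · exact ⟨(hW3 i hi).1, (hW3 i hi).2.2.1⟩

end Fam
end MP9b2b
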